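import Pool.Agent.NUU.DiscRel
import Pool.Agent.NUT2.Ring2

/-!
# Rotation of the disc functional (helper72)

`BE z X = UD z X (empty state)`: symmetric (`BE_perm`).
`UDRing c d X`: the disc functional is fixed by the ring (U6).  From it:
`UD_near`: `UD z X = BE z X • VR c d z X` where the ring is uniquely fixed;
`UD_rot`: `UD z (k :: L) = UD z (L ++ [k])` for all generic rapidities;
`UD_tendsto`: the limit at non generic points where the ring is uniquely fixed.
-/

set_option autoImplicit false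

namespace Pool.Agent.NUU

open _root_.Pool.Agent.EXL _root_.Pool.Agent.EXL.Pat Filter Topology
open _root_.Pool.Agent.EXL.Fm (lam)
open _root_.Pool.Agent.NUF
open _root_.Pool.Agent.NUT2
open Complex (I exp sin cos)

variable {α : Type*} [DecidableEq α] {z z' : α → ℂ} {X Y : List α} {p k b c d : α}

/-- **The disc functional is analytic in the rapidities.** -/
theorem UD_dt [Finite α] {zs : ℂ → α → ℂ} {t : ℂ} (hn : X.Nodup)
    (hz : ∀ x ∈ X, DifferentiableAt ℂ (fun s => zs s x) t) (hG : Gz (zs t) X) :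
    DtF (fun s => UD (zs s) X) t := by
  have hx : ∀ x ∈ X.toFinset, DifferentiableAt ℂ (fun s => zs s x) t := fun x hx =>
    hz x (List.mem_toFinset.1 hx)
  have hs : ∀ p ∈ X.toFinset, ∀ k ∈ X.toFinset,
      DifferentiableAt ℂ (fun s => s3 (zs s p - zs s k)) t := by
    intro p hp k hk
    unfold s3
    exact (((hx p hp).sub (hx k hk)).add_const _).csin
  have hpd : ∀ p ∈ X.toFinset, ∀ i ∈ X.toFinset, ∀ Y ⊆ X.toFinset, i ∉ Y →
      DifferentiableAt ℂ (fun s => ∏ k ∈ Y, pd (zs s) p i k) t := by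
    intro p hp i hi Y hY hiY
    refine DifferentiableAt.fun_finsetProd fun k hk => ?_
    have hik : i ≠ k := fun e => hiY (by rw [e]; exact hk)
    have hsin := hG.s i (List.mem_toFinset.1 hi) k (List.mem_toFinset.1 (hY hk)) hik
    unfold pd
    refine DifferentiableAt.div (DifferentiableAt.mul ?_ (hs p hp k (hY hk))) ?_ hsin
    · have h1 : Differentiable ℂ Fm.Dn := by
        unfold Fm.Dn
        fun_prop
      exact (h1 _).comp t ((hx i hi).sub (hx k (hY hk)))
    · exact ((hx i hi).sub (hx k (hY hk))).csin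
  refine RL_dt X.toFinset (fun p hp Y hY _ => ?_) ?_ ?_ X.length X rfl hn
    fun x hx => List.mem_toFinset.2 hx
  · show DifferentiableAt ℂ (fun s => ∏ k ∈ Y, (-I * e3 * s3 (zs s p - zs s k))) t
    exact DifferentiableAt.fun_finsetProd fun k hk => (hs p hp k (hY hk)).const_mul _
  · intro p hp i hi Y hY _ _ hiY
    constructor
    · show DifferentiableAt ℂ (fun s => Fr.c3 * exp (I * (zs s p - zs s i + 3 * lam)) *
        ∏ k ∈ Y, pd (zs s) p i k) t
      exact (((((hx p hp).sub (hx i hi)).add_const _).const_mul _).cexp.const_mul _).mul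
        (hpd p hp i hi Y hY hiY)
    · show DifferentiableAt ℂ (fun s => Fr.c3 * ∏ k ∈ Y, pd (zs s) p i k) t
      exact (hpd p hp i hi Y hY hiY).const_mul _
  · intro i hi r hr hir
    have hi' := List.mem_toFinset.1 hi
    have hr' := List.mem_toFinset.1 hr
    exact dt_R hir ((hz i hi').sub (hz r hr')) (hG.d i hi' r hr' hir)

/-! ### The value at the empty state -/

/-- The value at the empty state. -/
noncomputable def BE (z : α → ℂ) (X : List α) : ℂ := UD z X (HS.ind Pat.empty)

theorem BE_congr (h : ∀ x ∈ X, z x = z' x) : BE z X = BE z' X := by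
  unfold BE
  rw [UD_congr h]

theorem BE_exch [Finite α] {A B : List α} {j k : α} (hn : (A ++ j :: k :: B).Nodup)
    (hb : b ∉ A ++ j :: k :: B) (hc : c ∉ A ++ j :: k :: B) (hbc : b ≠ c)
    (hG : Gz z (A ++ j :: k :: B)) : BE z (A ++ j :: k :: B) = BE z (A ++ k :: j :: B) := by
  have hjk : j ≠ k := by
    intro e
    have h1 := (List.nodup_append.1 hn).2.1
    rw [List.nodup_cons] at h1
    exact h1.1 (by rw [e]; simp)
  have h := congrArg (fun V : Fnl α => V (HS.ind Pat.empty)) (UD_exch hn hb hc hbc hG)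
  simp only [LinearMap.comp_apply] at h
  unfold BE
  rw [← h]
  rw [uops_R_apply hjk, R_fix_ind _ hjk]

/-- **The value at the empty state is symmetric.** -/
theorem BE_perm [Finite α] (hp : X.Perm Y) (hn : X.Nodup) (hb : b ∉ X) (hc : c ∉ X) (hbc : b ≠ c)
    (hG : Gz z X) : BE z X = BE z Y := by
  have key : ∀ {X Y : List α}, X.Perm Y → ∀ A : List α, (A ++ X).Nodup → b ∉ A ++ X → c ∉ A ++ X →
      Gz z (A ++ X) → BE z (A ++ X) = BE z (A ++ Y) := by
    intro X Y hp
    induction hp with
    | nil => intro A _ _ _ _; rfl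
    | cons x _ ih =>
      intro A h1 h2 h3 h4
      have e : ∀ L : List α, (A ++ [x]) ++ L = A ++ x :: L := fun L => by simp
      have h := ih (A ++ [x]) (by rw [e]; exact h1) (by rw [e]; exact h2) (by rw [e]; exact h3)
        (by rw [e]; exact h4)
      rw [e, e] at h
      exact h
    | swap x y l =>
      intro A h1 h2 h3 h4
      exact BE_exch h1 h2 h3 hbc h4
    | trans h12 _ ih1 ih2 =>
      intro A h1 h2 h3 h4
      have hp := List.Perm.append_left A h12
      rw [ih1 A h1 h2 h3 h4]
      exact ih2 A (hp.nodup_iff.1 h1) (fun h => h2 (hp.mem_iff.2 h)) (fun h => h3 (hp.mem_iff.2 h))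
        (h4.perm hp)
  have := key hp [] (by simpa using hn) (by simpa using hb) (by simpa using hc) (by simpa using hG)
  simpa using this

/-! ### The ring -/

/-- (U6): the disc functional is fixed by the ring. -/
def UDRing (c d : α) (X : List α) : Prop :=
  ∀ z : α → ℂ, Gz z X → (∀ j ∈ X, okR (Real.pi / 8 - z j)) → UD z X ∘ₗ rg z c d (Real.pi / 8) X = UD z X

section ring

variable [Finite α] (hcd : c ≠ d)
include hcd

/-- **The disc functional is a multiple of the functional of the ring.** -/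
theorem UD_near (hn : X.Nodup) (hc : c ∉ X) (hd : d ∉ X) (hG : Gz z X)
    (hU : UD z X ∘ₗ rg z c d (Real.pi / 8) X = UD z X) (hR : RegR c d z X) :
    UD z X = BE z X • VR c d z X := by
  have hV := isR_VR hn hcd hc hd hR
  rw [← sub_eq_zero]
  apply fix_unique (A := AX X) (T := rg z c d (Real.pi / 8) X) hR
    ((UD_sup hn hc hd hcd hG).sub (hV.sup.smul _))
  · rw [LinearMap.sub_comp, hU, LinearMap.smul_comp, hV.fix]
  · rw [LinearMap.sub_apply, LinearMap.smul_apply, hV.one, smul_eq_mul, mul_one]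
    exact sub_self _

omit [Finite α] [DecidableEq α] hcd in
/-- The good points near 0. -/
theorem okR8_near : ∃ r : ℝ, 0 < r ∧ ∀ x : ℂ, x ∈ Metric.ball (0 : ℂ) r → okR (Real.pi / 8 - x) := by
  have h : ∀ᶠ x in 𝓝 (0 : ℂ), okR (Real.pi / 8 - x) := by
    have hc : ContinuousAt (fun x : ℂ => Fm.Dn (Real.pi / 8 - x)) 0 := by
      unfold Fm.Dn
      fun_prop
    have h0 : Fm.Dn (Real.pi / 8 - (0 : ℂ)) ≠ 0 := by
      rw [sub_zero]
      exact (Fm.okR_iff _).1 okR_hex
    filter_upwards [hc.eventually_ne h0] with x hx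
    exact (Fm.okR_iff _).2 hx
  obtain ⟨r, hr, h⟩ := Metric.eventually_nhds_iff_ball.1 h
  exact ⟨r, hr, h⟩

/-- The ring is uniquely fixed near 0, uniformly for all lists. -/
theorem regR_ball : ∃ r : ℝ, 0 < r ∧ ∀ (z : α → ℂ) (X : List α), X.Nodup → c ∉ X → d ∉ X →
    (∀ i ∈ X, z i ∈ Metric.ball (0 : ℂ) r) → RegR c d z X ∧ ∀ j ∈ X, okR (Real.pi / 8 - z j) := by
  classical
  have : Fintype α := Fintype.ofFinite α
  obtain ⟨r1, hr1, h1⟩ := Metric.eventually_nhds_iff_ball.1 (regR_nhds (ι := α) hcd)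
  obtain ⟨r2, hr2, h2⟩ := okR8_near
  refine ⟨min r1 r2, lt_min hr1 hr2, fun z X hn hc hd hz => ⟨?_, fun j hj => ?_⟩⟩
  · set z' : α → ℂ := fun i => if i ∈ X then z i else 0 with hz'
    have e : ∀ j ∈ X, z' j = z j := fun j hj => by rw [hz']; exact if_pos hj
    refine RegR.congr e (h1 z' ?_ X hn hc hd)
    rw [Metric.mem_ball, dist_pi_lt_iff hr1]
    intro i
    by_cases hi : i ∈ X
    · rw [e i hi]
      exact lt_of_lt_of_le (Metric.mem_ball.1 (hz i hi)) (min_le_left _ _)
    · have : z' i = 0 := if_neg hi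
      rw [this, dist_self]
      exact hr1
  · exact h2 _ (Metric.ball_subset_ball (min_le_right _ _) (hz j hj))

/-- **ROTATION**: `UD z (k :: L) = UD z (L ++ [k])` for all generic rapidities. -/
theorem UD_rot_of {L : List α} (hn : (k :: L).Nodup) (hc : c ∉ k :: L) (hd : d ∉ k :: L)
    (h1 : UDRing c d (k :: L)) (h2 : UDRing c d (L ++ [k])) (hG : Gz z (k :: L)) :
    UD z (k :: L) = UD z (L ++ [k]) := by
  have hp : (k :: L).Perm (L ++ [k]) := by
    have := List.perm_append_comm (l₁ := [k]) (l₂ := L)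
    simpa using this
  have hn' : (L ++ [k]).Nodup := hp.nodup_iff.1 hn
  have hc' : c ∉ L ++ [k] := fun h => hc (hp.mem_iff.2 h)
  have hd' : d ∉ L ++ [k] := fun h => hd (hp.mem_iff.2 h)
  obtain ⟨r, hr, hR⟩ := regR_ball (α := α) hcd
  refine LinearMap.ext fun F => ?_
  have key : ∀ z : α → ℂ, Gz z (k :: L) → (∀ i ∈ k :: L, z i ∈ Metric.ball (0 : ℂ) r) →
      UD z (k :: L) F = UD z (L ++ [k]) F := by
    intro z hG hz
    have e1 := hR z (k :: L) hn hc hd hz
    have e2 := hR z (L ++ [k]) hn' hc' hd' fun i hi => hz i (hp.mem_iff.2 hi)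
    rw [UD_near hcd hn hc hd hG (h1 z hG e1.2) e1.1,
      UD_near hcd hn' hc' hd' (hG.perm hp) (h2 z (hG.perm hp) e2.2) e2.1,
      VR_rot hn hcd hc hd e1.2, BE_perm hp hn hc hd hcd hG]
  refine gz_ext (X := k :: L) (f := fun z => UD z (k :: L) F) (g := fun z => UD z (L ++ [k]) F)
    hr (P := fun _ => 1) (fun _ => differentiable_const _) ?_ ?_ ?_ hG one_ne_zero
  · intro y hy hGy _
    show UD y (k :: L) F = UD y (L ++ [k]) F
    rw [← UD_shift (-z0) (z := y) (X := k :: L), ← UD_shift (-z0) (z := y) (X := L ++ [k])]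
    refine key _ (hGy.shift (-z0)) fun i hi => ?_
    have := hy i hi
    rw [Metric.mem_ball, dist_eq_norm] at this ⊢
    rwa [sub_zero, ← sub_eq_add_neg]
  · intro w t hG _
    exact UD_dt hn (fun x _ => by fun_prop) hG F
  · intro w t hG _
    exact UD_dt hn' (fun x _ => by fun_prop) (hG.perm hp) F

/-- The value of the disc functional near 0, for all lists. -/
theorem UD_near_ball : ∃ r : ℝ, 0 < r ∧ ∀ (z : α → ℂ) (X : List α), X.Nodup → c ∉ X → d ∉ X →
    UDRing c d X → Gz z X → (∀ i ∈ X, z i ∈ Metric.ball (0 : ℂ) r) → UD z X = BE z X • VR c d z X := by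
  obtain ⟨r, hr, hR⟩ := regR_ball (α := α) hcd
  refine ⟨r, hr, fun z X hn hc hd hU hG hz => ?_⟩
  have e := hR z X hn hc hd hz
  exact UD_near hcd hn hc hd hG (hU z hG e.2) e.1

/-- **The limit at a non generic point** where the ring is uniquely fixed: `B` = a continuous function that gives
the value at the empty state at generic points. -/
theorem UD_tendsto (hn : X.Nodup) (hc : c ∉ X) (hd : d ∉ X) (hU : UDRing c d X) {β : Type*}
    {l : Filter β} {ζ : β → α → ℂ} {z0 : α → ℂ} (hζ : ∀ j ∈ X, Tendsto (fun b => ζ b j) l (𝓝 (z0 j)))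
    (hG : ∀ᶠ b in l, Gz (ζ b) X) (hok : ∀ j ∈ X, okR (Real.pi / 8 - z0 j)) (hR : RegR c d z0 X)
    {B : ℂ} (hB : Tendsto (fun b => BE (ζ b) X) l (𝓝 B)) (F : Pat α → ℂ) :
    Tendsto (fun b => UD (ζ b) X F) l (𝓝 (B * VR c d z0 X F)) := by
  classical
  -- everything as a function of the rapidities of the rows of X
  have hcont := regR_near (c := c) (d := d) hn hcd hc hd
    (ζ := fun (y : α → ℂ) => y) (y0 := z0) (fun j _ => (continuous_apply j).continuousAt) hok hR
  set z1 : β → α → ℂ := fun b i => if i ∈ X then ζ b i else z0 i with hz1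
  have e1 : ∀ b, ∀ i ∈ X, ζ b i = z1 b i := fun b i hi => by rw [hz1]; exact (if_pos hi).symm
  have ht : Tendsto z1 l (𝓝 z0) := by
    rw [tendsto_pi_nhds]
    intro i
    by_cases hi : i ∈ X
    · exact (hζ i hi).congr fun b => e1 b i hi
    · have : (fun b => z1 b i) = fun _ => z0 i := by
        funext b
        exact if_neg hi
      rw [this]
      exact tendsto_const_nhds
  have hok' : ∀ᶠ b in l, ∀ j ∈ X, okR (Real.pi / 8 - ζ b j) := by
    have key : ∀ L : List α, (∀ j ∈ L, j ∈ X) → ∀ᶠ b in l, ∀ j ∈ L, okR (Real.pi / 8 - ζ b j) := by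
      intro L
      induction L with
      | nil => exact fun _ => Eventually.of_forall fun b j hj => absurd hj (by simp)
      | cons i L ih =>
        intro hL
        have hi : ∀ᶠ b in l, okR (Real.pi / 8 - ζ b i) := by
          have hcx : ContinuousAt (fun x : ℂ => Fm.Dn (Real.pi / 8 - x)) (z0 i) := by
            unfold Fm.Dn
            fun_prop
          have h0 : Fm.Dn (Real.pi / 8 - z0 i) ≠ 0 := (Fm.okR_iff _).1 (hok i (hL i (by simp)))
          have := (hcx.tendsto.comp (hζ i (hL i (by simp)))).eventually_ne h0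
          filter_upwards [this] with b hb
          exact (Fm.okR_iff _).2 hb
        filter_upwards [hi, ih fun j hj => hL j (by simp [hj])] with b hb1 hb2 j hj
        rcases List.mem_cons.1 hj with rfl | hj
        · exact hb1
        · exact hb2 j hj
    exact key X fun _ h => h
  have h2 : Tendsto (fun b => VR c d (ζ b) X F) l (𝓝 (VR c d z0 X F)) := by
    have := (hcont.2 F).tendsto.comp ht
    refine this.congr fun b => ?_
    show VR c d (z1 b) X F = _
    rw [VR_congr fun j hj => (e1 b j hj).symm]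
  refine (hB.mul h2).congr' ?_
  filter_upwards [hG, ht.eventually hcont.1, hok'] with b hb1 hb2 hb3
  have hR' : RegR c d (ζ b) X := RegR.congr (fun j hj => (e1 b j hj).symm) hb2
  rw [UD_near hcd hn hc hd hb1 (hU _ hb1 hb3) hR', LinearMap.smul_apply, smul_eq_mul]

end ring

end Pool.Agent.NUU
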