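import Pool.Agent.NUU.Fuse2

/-!
# The functional of the disc (helper36)

`UD z X` = the limit of the functional of the half strip for `z → z + i∞`, normalized; only the differences of
the rapidities occur.
-/

set_option autoImplicit false

namespace Pool.Agent.NUU

open _root_.Pool.Agent.EXL _root_.Pool.Agent.EXL.Pat Filter Topology
open _root_.Pool.Agent.EXL.Fm (lam)
open _root_.Pool.Agent.NUF
open Complex (I exp sin cos)

variable {α : Type*} [DecidableEq α] {z z' : α → ℂ} {X Y : List α} {p q b c : α}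

/-! ### The normalization -/

/-- The product over the pairs of `τ * g k * g m`. -/
noncomputable def rho (τ : ℂ) (g : α → ℂ) (Y : Finset α) : ℂ :=
  τ ^ (Y.card.choose 2) * (∏ k ∈ Y, g k) ^ (Y.card - 1)

theorem rho_empty (τ : ℂ) (g : α → ℂ) : rho τ g ∅ = 1 := by
  unfold rho
  simp

theorem rho_insert (τ : ℂ) (g : α → ℂ) {p : α} {Y : Finset α} (hp : p ∉ Y) :
    rho τ g (insert p Y) = rho τ g Y * ∏ k ∈ Y, (τ * g p * g k) := by
  unfold rho
  rw [Finset.card_insert_of_notMem hp, Finset.prod_insert hp, Finset.prod_mul_distrib,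
    Finset.prod_const, Nat.add_sub_cancel, Nat.choose_succ_succ' Y.card 1, Nat.choose_one_right]
  rcases Y.eq_empty_or_nonempty with rfl | hY
  · simp
  · have hc : Y.card = (Y.card - 1) + 1 := by
      have := Finset.card_pos.2 hY
      omega
    have e : (∏ k ∈ Y, g k) ^ Y.card = (∏ k ∈ Y, g k) ^ (Y.card - 1) * ∏ k ∈ Y, g k := by
      conv_lhs => rw [hc, pow_succ]
    rw [mul_pow, e, mul_pow, pow_add]
    ring

theorem rho_ne {τ : ℂ} {g : α → ℂ} (hτ : τ ≠ 0) (hg : ∀ k, g k ≠ 0) (Y : Finset α) :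
    rho τ g Y ≠ 0 :=
  mul_ne_zero (pow_ne_zero _ hτ) (pow_ne_zero _ (Finset.prod_ne_zero_iff.2 fun k _ => hg k))

theorem aux_div (E R D : ℂ) (h : D ≠ 0) : E * R = R * D * (E / D) := by
  field_simp

/-! ### The coefficients -/

/-- `e^{3 i λ}` -/
noncomputable def e3 : ℂ := exp (I * (3 * lam))

/-- `sin (x + 3 λ)` -/
noncomputable def s3 (x : ℂ) : ℂ := sin (x + 3 * lam)

/-- the factor of a pair -/
noncomputable def pd (z : α → ℂ) (p i k : α) : ℂ :=
  Fm.Dn (z i - z k) * s3 (z p - z k) / sin (z i - z k)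

/-- **The coefficients of the disc.** -/
noncomputable def cD (z : α → ℂ) : Co α where
  m p Y := ∏ k ∈ Y, (-I * e3 * s3 (z p - z k))
  e p i Y := Fr.c3 * exp (I * (z p - z i + 3 * lam)) * ∏ k ∈ Y, pd z p i k
  a p i Y := Fr.c3 * ∏ k ∈ Y, pd z p i k

/-- **The functional of the disc.** -/
noncomputable def UD (z : α → ℂ) (X : List α) : Fnl α := RL (cD z) z ev0 X

theorem UD_nil : UD z [] = ev0 := by
  unfold UD
  rw [RL_nil]

theorem UD_cons : UD z (p :: X) = (∏ k ∈ X.toFinset, (-I * e3 * s3 (z p - z k))) • UD z X +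
    ∑ i ∈ X.toFinset, (UD z (X.erase i) ∘ₗ
      (jn p i (Fr.c3 * exp (I * (z p - z i + 3 * lam)) * ∏ k ∈ X.toFinset.erase i, pd z p i k)
        (Fr.c3 * ∏ k ∈ X.toFinset.erase i, pd z p i k) * oE uops z X i)) := by
  unfold UD
  rw [RL_cons]
  rfl

theorem UD_congr (h : ∀ x ∈ X, z x = z' x) : UD z X = UD z' X := by
  have hu : ∀ x ∈ X.toFinset, z x = z' x := fun x hx => h x (List.mem_toFinset.1 hx)
  refine RL_congr X.toFinset ?_ ?_ ?_ X.length X rfl fun x hx => List.mem_toFinset.2 hx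
  · intro p hp Y hY
    simp only [cD]
    exact Finset.prod_congr rfl fun k hk => by rw [hu p hp, hu k (hY hk)]
  · intro p hp i hi Y hY
    have e : ∏ k ∈ Y, pd z p i k = ∏ k ∈ Y, pd z' p i k :=
      Finset.prod_congr rfl fun k hk => by
        unfold pd
        rw [hu p hp, hu i hi, hu k (hY hk)]
    simp only [cD]
    rw [hu p hp, hu i hi, e]
    exact ⟨rfl, rfl⟩
  · intro i hi r hr
    rw [hu i hi, hu r hr]

/-- Only the differences of the rapidities occur. -/
theorem UD_shift (s : ℂ) : UD (fun i => z i + s) X = UD z X := by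
  refine RL_congr X.toFinset ?_ ?_ ?_ X.length X rfl fun x hx => List.mem_toFinset.2 hx
  · intro p hp Y hY
    simp only [cD, add_sub_add_right_eq_sub]
  · intro p hp i hi Y hY
    constructor <;> simp only [cD, pd, add_sub_add_right_eq_sub]
  · intro i hi r hr
    rw [add_sub_add_right_eq_sub]

theorem ex1 (x : ℂ) : ex 1 x = exp (I * x) := by
  unfold ex
  rw [one_mul]

theorem e3_ne : e3 ≠ 0 := Complex.exp_ne_zero _

theorem ex8 : exp (I * (8 * lam)) = -1 := by
  rw [← Complex.exp_pi_mul_I]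
  congr 1
  unfold Fm.lam
  ring

theorem two_I_s3 (x : ℂ) : 2 * I * s3 x = exp (I * (x + 3 * lam)) - exp (-(I * (x + 3 * lam))) := by
  unfold s3
  rw [← EXL.Fm.two_I_sin]

section lim

variable {β : Type*} {l : Filter β} {f : β → ℝ}

/-- two far lines, the pair factor -/
theorem pr_lim2 (hf : Tendsto f l atTop) (x y : ℂ) :
    Tendsto (fun b => Fr.pr (x - 1 * (f b * I)) (y - 1 * (f b * I)) / TT (f b)) l
      (𝓝 (-2 * I * ex 1 (x + y + 2 * lam) * (Fm.Dn (x - y) / sin (x - y)))) := by
  have h := cos_lim hf (Or.inl rfl) (x + y + 2 * lam - Real.pi / 2)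
  have e1 : ex 1 (x + y + 2 * lam - Real.pi / 2) = -I * ex 1 (x + y + 2 * lam) := by
    rw [ex1, ex1, mul_sub, Complex.exp_sub,
      show I * (Real.pi / 2 : ℂ) = (Real.pi / 2 : ℂ) * I by ring, Complex.exp_pi_div_two_mul_I]
    have hI : I ≠ 0 := Complex.I_ne_zero
    field_simp
    rw [Complex.I_sq]
    ring
  rw [e1] at h
  have h2 := (h.const_mul (2 * (Fm.Dn (x - y) / sin (x - y))))
  rw [show 2 * (Fm.Dn (x - y) / sin (x - y)) * (-I * ex 1 (x + y + 2 * lam)) =
    -2 * I * ex 1 (x + y + 2 * lam) * (Fm.Dn (x - y) / sin (x - y)) by ring] at h2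
  refine h2.congr fun b => ?_
  unfold Fr.pr
  have e2 : cos (x + y + 2 * lam - Real.pi / 2 - 1 * (2 * (f b * I))) =
      sin (y - 1 * (f b * I) + (x - 1 * (f b * I)) + 2 * lam) := by
    rw [← Complex.cos_sub_pi_div_two]
    congr 1
    ring
  rw [e2, show x - 1 * (f b * I) - (y - 1 * (f b * I)) = x - y by ring]
  ring

/-- The scale. -/
noncomputable def tau (f : β → ℝ) (b : β) : ℂ := 2 * TT (f b) * ex 1 (-(3 * lam))

theorem tau_ne (f : β → ℝ) (b : β) : tau f b ≠ 0 :=
  mul_ne_zero (mul_ne_zero two_ne_zero (TT_ne _)) (ex_ne _ _)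

/-- the phase of a line -/
noncomputable def gx (z : α → ℂ) (k : α) : ℂ := ex 1 (ux z k)

omit [DecidableEq α] in
theorem gx_ne (z : α → ℂ) (k : α) : gx z k ≠ 0 := ex_ne _ _

/-- The normalized coefficients. -/
noncomputable def cN (z : α → ℂ) (f : β → ℝ) (b : β) : Co α where
  m p Y := (cP (ux fun i => z i + f b * I)).m p Y / ∏ k ∈ Y, (tau f b * gx z p * gx z k)
  e p i Y := (cP (ux fun i => z i + f b * I)).e p i Y / ((tau f b * gx z p * gx z i) *
    ∏ k ∈ Y, ((tau f b * gx z i * gx z k) * (tau f b * gx z p * gx z k)))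
  a p i Y := (cP (ux fun i => z i + f b * I)).a p i Y / ((tau f b * gx z p * gx z i) *
    ∏ k ∈ Y, ((tau f b * gx z i * gx z k) * (tau f b * gx z p * gx z k)))

theorem PH_gauge (z : α → ℂ) (f : β → ℝ) (b : β) (hn : X.Nodup) :
    PH (fun i => z i + f b * I) X = rho (tau f b) (gx z) X.toFinset •
      RL (cN z f b) (fun i => z i + f b * I) ev0 X := by
  have ht := tau_ne f b
  have hg := gx_ne z
  refine RL_gauge (rho (tau f b) (gx z)) (rho_empty _ _) ?_ ?_ X.length X rfl hn
  · intro p Y hp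
    have h : ∏ k ∈ Y, (tau f b * gx z p * gx z k) ≠ 0 :=
      Finset.prod_ne_zero_iff.2 fun k _ => mul_ne_zero (mul_ne_zero ht (hg p)) (hg k)
    rw [rho_insert _ _ hp]
    exact aux_div _ _ _ h
  · intro p i Y hpi hp hi
    have hp' : p ∉ insert i Y := by
      rw [Finset.mem_insert, not_or]
      exact ⟨hpi, hp⟩
    have h : ∏ k ∈ Y, ((tau f b * gx z i * gx z k) * (tau f b * gx z p * gx z k)) ≠ 0 :=
      Finset.prod_ne_zero_iff.2 fun k _ => mul_ne_zero
        (mul_ne_zero (mul_ne_zero ht (hg i)) (hg k)) (mul_ne_zero (mul_ne_zero ht (hg p)) (hg k))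
    have h1 : tau f b * gx z p * gx z i ≠ 0 := mul_ne_zero (mul_ne_zero ht (hg p)) (hg i)
    have e : rho (tau f b) (gx z) (insert p (insert i Y)) = rho (tau f b) (gx z) Y *
        ((tau f b * gx z p * gx z i) *
          ∏ k ∈ Y, ((tau f b * gx z i * gx z k) * (tau f b * gx z p * gx z k))) := by
      have e2 := Finset.prod_mul_distrib (s := Y) (f := fun k => tau f b * gx z i * gx z k)
        (g := fun k => tau f b * gx z p * gx z k)
      rw [rho_insert _ _ hp', rho_insert _ _ hi, Finset.prod_insert hi, e2]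
      ring
    rw [e]
    exact ⟨aux_div _ _ _ (mul_ne_zero h1 h), aux_div _ _ _ (mul_ne_zero h1 h)⟩

theorem dlN_lim (hf : Tendsto f l atTop) (z : α → ℂ) (p k : α) :
    Tendsto (fun b => Fr.dl (ux (fun i => z i + f b * I) p) (ux (fun i => z i + f b * I) k) /
      (tau f b * gx z p * gx z k)) l (𝓝 (-I * e3 * s3 (z p - z k))) := by
  have h := (dl_lim2 hf (σ := 1) (Or.inl rfl) (ux z p) (ux z k)).mul_const
    ((2 * ex 1 (-(3 * lam)) * gx z p * gx z k)⁻¹)
  have e : (ex 1 (2 * ux z p - 3 * lam) - ex 1 (2 * ux z k + 3 * lam)) *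
      (2 * ex 1 (-(3 * lam)) * gx z p * gx z k)⁻¹ = -I * e3 * s3 (z p - z k) := by
    have hne : 2 * ex 1 (-(3 * lam)) * gx z p * gx z k ≠ 0 :=
      mul_ne_zero (mul_ne_zero (mul_ne_zero two_ne_zero (ex_ne _ _)) (gx_ne _ _)) (gx_ne _ _)
    rw [← div_eq_mul_inv, div_eq_iff hne]
    have h3 := two_I_s3 (z p - z k)
    have hs : -I * e3 * s3 (z p - z k) * (2 * ex 1 (-(3 * lam)) * gx z p * gx z k) =
        -(2 * I * s3 (z p - z k)) * (e3 * ex 1 (-(3 * lam)) * gx z p * gx z k) := by ring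
    rw [hs, h3]
    unfold gx e3
    simp only [ex1]
    rw [neg_mul, sub_mul]
    simp only [← Complex.exp_add]
    unfold ux
    rw [neg_sub]
    congr 1
    · congr 1
      ring
    · congr 1
      ring
  rw [e] at h
  refine h.congr fun b => ?_
  have e1 : ∀ k, ux (fun i => z i + f b * I) k = ux z k - 1 * (f b * I) := fun k => by
    unfold ux
    ring
  rw [e1, e1]
  unfold tau
  rw [div_mul_eq_mul_div, ← div_eq_mul_inv, div_div]
  congr 1
  ring

theorem prN_lim (hf : Tendsto f l atTop) (z : α → ℂ) (p i k : α) :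
    Tendsto (fun b => Fr.pr (ux (fun i => z i + f b * I) k) (ux (fun i => z i + f b * I) i) *
      Fr.dl (ux (fun i => z i + f b * I) p) (ux (fun i => z i + f b * I) k) /
      ((tau f b * gx z i * gx z k) * (tau f b * gx z p * gx z k))) l (𝓝 (pd z p i k)) := by
  have h := ((pr_lim2 hf (ux z k) (ux z i)).mul_const
    ((2 * ex 1 (-(3 * lam)) * gx z i * gx z k)⁻¹)).mul (dlN_lim hf z p k)
  have e : -2 * I * ex 1 (ux z k + ux z i + 2 * lam) * (Fm.Dn (ux z k - ux z i) / sin (ux z k - ux z i)) *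
      (2 * ex 1 (-(3 * lam)) * gx z i * gx z k)⁻¹ * (-I * e3 * s3 (z p - z k)) = pd z p i k := by
    have hne : 2 * ex 1 (-(3 * lam)) * gx z i * gx z k ≠ 0 :=
      mul_ne_zero (mul_ne_zero (mul_ne_zero two_ne_zero (ex_ne _ _)) (gx_ne _ _)) (gx_ne _ _)
    have e2 : ux z k - ux z i = z i - z k := by
      unfold ux
      ring
    rw [e2]
    unfold pd
    have e4 : -2 * I * ex 1 (ux z k + ux z i + 2 * lam) * (-I * e3) =
        2 * ex 1 (-(3 * lam)) * gx z i * gx z k := by
      have h1 : -2 * I * ex 1 (ux z k + ux z i + 2 * lam) * (-I * e3) =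
          (2 * I ^ 2) * (ex 1 (ux z k + ux z i + 2 * lam) * e3) := by ring
      rw [h1, Complex.I_sq]
      have h8 := ex8
      unfold gx e3
      simp only [ex1]
      have h2 : exp (I * (ux z k + ux z i + 2 * lam)) * exp (I * (3 * lam)) =
          exp (I * (8 * lam)) * (exp (I * -(3 * lam)) * exp (I * ux z i) * exp (I * ux z k)) := by
        simp only [← Complex.exp_add]
        congr 1
        ring
      rw [h2, h8]
      ring
    calc -2 * I * ex 1 (ux z k + ux z i + 2 * lam) * (Fm.Dn (z i - z k) / sin (z i - z k)) *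
        (2 * ex 1 (-(3 * lam)) * gx z i * gx z k)⁻¹ * (-I * e3 * s3 (z p - z k))
        = (-2 * I * ex 1 (ux z k + ux z i + 2 * lam) * (-I * e3)) *
          (2 * ex 1 (-(3 * lam)) * gx z i * gx z k)⁻¹ *
            (Fm.Dn (z i - z k) / sin (z i - z k) * s3 (z p - z k)) := by ring
      _ = _ := by
        rw [e4, mul_inv_cancel₀ hne]
        ring
  rw [e] at h
  refine h.congr fun b => ?_
  have e1 : ∀ k, ux (fun i => z i + f b * I) k = ux z k - 1 * (f b * I) := fun k => by
    unfold ux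
    ring
  rw [e1, e1, e1]
  have ht := TT_ne (f b)
  have h1 := ex_ne 1 (-(3 * lam))
  have h2 := gx_ne z i
  have h3 := gx_ne z k
  have h4 := gx_ne z p
  unfold tau
  field_simp

variable [Finite α]

/-- **The limit of the half strip.** -/
theorem PH_lim (hf : Tendsto f l atTop) (z : α → ℂ) (hn : X.Nodup) :
    LmF l (fun b => (rho (tau f b) (gx z) X.toFinset)⁻¹ • PH (fun i => z i + f b * I) X) (UD z X) := by
  have key := RL_lim (l := l) (C := cD z) (V0 := (ev0 : Fnl α)) (z := z) (Cb := cN z f)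
    (zb := fun b i => z i + f b * I) ?_ ?_ ?_ X.length X rfl hn
  · refine key.congr fun b => ?_
    rw [PH_gauge z f b hn, smul_smul, inv_mul_cancel₀ (rho_ne (tau_ne f b) (gx_ne z) _), one_smul]
  · intro p Y hp
    refine (tendsto_finsetProd Y fun k _ => dlN_lim hf z p k).congr fun b => ?_
    rw [Finset.prod_div_distrib]
    rfl
  · intro p i Y hpi hp hi
    have e1 : ∀ b k, ux (fun i => z i + f b * I) k = ux z k - 1 * (f b * I) := fun b k => by
      unfold ux
      ring
    have hP := tendsto_finsetProd Y fun k _ => prN_lim hf z p i k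
    constructor
    · have h := ((ae_lim hf (σ := 1) (Or.inl rfl) (ux z i)).mul_const
        ((2 * ex 1 (-(3 * lam)) * gx z p * gx z i)⁻¹)).mul hP
      have e : (ex 1 (2 * ux z i + 3 * lam) + ex 1 (2 * ux z i - 3 * lam)) *
          (2 * ex 1 (-(3 * lam)) * gx z p * gx z i)⁻¹ =
            Fr.c3 * exp (I * (z p - z i + 3 * lam)) := by
        have hne : 2 * ex 1 (-(3 * lam)) * gx z p * gx z i ≠ 0 :=
          mul_ne_zero (mul_ne_zero (mul_ne_zero two_ne_zero (ex_ne _ _)) (gx_ne _ _)) (gx_ne _ _)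
        rw [← div_eq_mul_inv, div_eq_iff hne]
        have h3 := c3_ex (σ := 1) (Or.inl rfl)
        have hs : Fr.c3 * exp (I * (z p - z i + 3 * lam)) *
            (2 * ex 1 (-(3 * lam)) * gx z p * gx z i) =
            (2 * Fr.c3) * (exp (I * (z p - z i + 3 * lam)) * ex 1 (-(3 * lam)) * gx z p * gx z i) := by
          ring
        rw [hs, h3]
        unfold gx
        simp only [ex1]
        rw [add_mul]
        simp only [← Complex.exp_add]
        unfold ux
        congr 1
        · congr 1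
          ring
        · congr 1
          ring
      rw [e] at h
      refine h.congr fun b => ?_
      rw [Finset.prod_div_distrib, Finset.prod_mul_distrib]
      simp only [cN, cP, Fr.wt, Fr.Dl]
      rw [e1 b i]
      have ht := TT_ne (f b)
      have h1 := ex_ne 1 (-(3 * lam))
      have h2 := gx_ne z i
      have h4 := gx_ne z p
      have h5 : ∏ k ∈ Y, ((tau f b * gx z i * gx z k) * (tau f b * gx z p * gx z k)) ≠ 0 :=
        Finset.prod_ne_zero_iff.2 fun k _ => mul_ne_zero
          (mul_ne_zero (mul_ne_zero (tau_ne f b) h2) (gx_ne z k))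
          (mul_ne_zero (mul_ne_zero (tau_ne f b) h4) (gx_ne z k))
      rw [show tau f b * gx z p * gx z i = 2 * TT (f b) * ex 1 (-(3 * lam)) * gx z p * gx z i by
        rw [tau]]
      field_simp
    · have h := ((aa_lim hf (σ := 1) (Or.inl rfl) (ux z i) (ux z p)).mul_const
        ((2 * ex 1 (-(3 * lam)) * gx z p * gx z i)⁻¹)).mul hP
      have e : 2 * Fr.c3 * ex 1 (ux z i + ux z p - 3 * lam) *
          (2 * ex 1 (-(3 * lam)) * gx z p * gx z i)⁻¹ = Fr.c3 := by
        have hne : 2 * ex 1 (-(3 * lam)) * gx z p * gx z i ≠ 0 :=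
          mul_ne_zero (mul_ne_zero (mul_ne_zero two_ne_zero (ex_ne _ _)) (gx_ne _ _)) (gx_ne _ _)
        rw [← div_eq_mul_inv, div_eq_iff hne]
        have hs : ex 1 (ux z i + ux z p - 3 * lam) = ex 1 (-(3 * lam)) * gx z p * gx z i := by
          unfold gx
          simp only [ex1, ← Complex.exp_add]
          congr 1
          ring
        rw [hs]
        ring
      rw [e] at h
      refine h.congr fun b => ?_
      rw [Finset.prod_div_distrib, Finset.prod_mul_distrib]
      simp only [cN, cP, Fr.wt, Fr.Dl]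
      rw [e1 b i, e1 b p]
      have ht := TT_ne (f b)
      have h1 := ex_ne 1 (-(3 * lam))
      have h2 := gx_ne z i
      have h4 := gx_ne z p
      have h5 : ∏ k ∈ Y, ((tau f b * gx z i * gx z k) * (tau f b * gx z p * gx z k)) ≠ 0 :=
        Finset.prod_ne_zero_iff.2 fun k _ => mul_ne_zero
          (mul_ne_zero (mul_ne_zero (tau_ne f b) h2) (gx_ne z k))
          (mul_ne_zero (mul_ne_zero (tau_ne f b) h4) (gx_ne z k))
      rw [show tau f b * gx z p * gx z i = 2 * TT (f b) * ex 1 (-(3 * lam)) * gx z p * gx z i by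
        rw [tau]]
      field_simp
  · intro b i r
    rw [add_sub_add_right_eq_sub]

end lim

end Pool.Agent.NUU
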