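import Pool.Agent.NUU.Rot
import Pool.Agent.NUT2.Tp2

/-!
# Rotation and reflection of the disc functional, all lists (helper72)

`UDRingAll β`: (U6) on the label type `β`.  With `β = α ⊕ Fin 4` (four spare labels): `rot_all`, `refl_all` on `α`,
without spare labels.
-/

set_option autoImplicit false

namespace Pool.Agent.NUU

open _root_.Pool.Agent.EXL _root_.Pool.Agent.EXL.Pat Filter Topology
open _root_.Pool.Agent.EXL.Fm (lam)
open _root_.Pool.Agent.NUF
open _root_.Pool.Agent.NUT2
open Complex (I exp sin cos)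

/-- (U6) for all the lists of labels. -/
def UDRingAll (β : Type*) [DecidableEq β] : Prop :=
  ∀ (c d e : β) (X : List β), X.Nodup → c ≠ d → c ≠ e → d ≠ e → c ∉ X → d ∉ X → e ∉ X → UDRing c d X

/-- The value at the empty state is even. -/
def BENeg (β : Type*) [DecidableEq β] : Prop :=
  ∀ (z : β → ℂ) (X : List β), X.Nodup → Gz z X → BE (fun i => -z i) X = BE z X

section big

variable {β : Type*} [DecidableEq β] [Finite β] {z : β → ℂ} {X A B : List β} {c d e f : β}

omit [DecidableEq β] [Finite β] in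
theorem gz_neg (h : Gz z X) : Gz (fun i => -z i) X where
  s i hi k hk hik := by
    have := h.s k hk i hi hik.symm
    rw [show -z i - -z k = z k - z i by ring]
    exact this
  d i hi k hk hik := by
    have := h.d k hk i hi hik.symm
    rw [show -z i - -z k = z k - z i by ring]
    exact this

/-- Rotation by several steps. -/
theorem rot_big (hU : UDRingAll β) (hcd : c ≠ d) (hce : c ≠ e) (hde : d ≠ e) (hn : (A ++ B).Nodup)
    (hc : c ∉ A ++ B) (hd : d ∉ A ++ B) (he : e ∉ A ++ B) (hG : Gz z (A ++ B)) :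
    UD z (A ++ B) = UD z (B ++ A) := by
  induction A generalizing B with
  | nil => simp
  | cons k A ih =>
    have hp : (k :: (A ++ B)).Perm ((A ++ B) ++ [k]) := by
      have := List.perm_append_comm (l₁ := [k]) (l₂ := A ++ B)
      simpa using this
    have e0 : k :: A ++ B = k :: (A ++ B) := rfl
    rw [e0] at hn hc hd he hG ⊢
    have hn' := hp.nodup_iff.1 hn
    have hc' : c ∉ (A ++ B) ++ [k] := fun h => hc (hp.mem_iff.2 h)
    have hd' : d ∉ (A ++ B) ++ [k] := fun h => hd (hp.mem_iff.2 h)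
    have he' : e ∉ (A ++ B) ++ [k] := fun h => he (hp.mem_iff.2 h)
    rw [UD_rot_of hcd hn hc hd (hU c d e _ hn hcd hce hde hc hd he)
      (hU c d e _ hn' hcd hce hde hc' hd' he') hG, List.append_assoc]
    rw [List.append_assoc] at hn' hc' hd' he'
    have hG' := hG.perm hp
    rw [List.append_assoc] at hG'
    rw [ih hn' hc' hd' he' hG']
    simp

omit [Finite β] in
theorem okZ_near : ∃ r : ℝ, 0 < r ∧ ∀ x : ℂ, x ∈ Metric.ball (0 : ℂ) r → OkZ x := by
  have key : ∀ (s t : ℂ), Fm.Dn s ≠ 0 → ∀ᶠ x in 𝓝 (0 : ℂ), okR (s + t * x) := by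
    intro s t h0
    have hc : ContinuousAt (fun x : ℂ => Fm.Dn (s + t * x)) 0 := by
      unfold Fm.Dn
      fun_prop
    have h1 : Fm.Dn (s + t * 0) ≠ 0 := by rwa [mul_zero, add_zero]
    filter_upwards [hc.eventually_ne h1] with x hx
    exact (Fm.okR_iff _).2 hx
  have h8 : Fm.Dn (Real.pi / 8 : ℂ) ≠ 0 := (Fm.okR_iff _).1 okR_hex
  have h4 : Fm.Dn (Real.pi / 4 : ℂ) ≠ 0 := (Fm.okR_iff _).1
    (okR_t (t := 2) (by norm_num) (by norm_num) (by unfold lam; push_cast; ring))
  have h : ∀ᶠ x in 𝓝 (0 : ℂ), OkZ x := by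
    filter_upwards [key _ (-1) h8, key _ 1 h8, key _ (-1) h4, key _ 1 h4] with x h1 h2 h3 h4
    refine ⟨?_, ?_, ?_, ?_⟩
    · rw [neg_one_mul, ← sub_eq_add_neg] at h1
      exact h1
    · rw [neg_one_mul, ← sub_eq_add_neg] at h3
      exact h3
    · rwa [one_mul] at h2
    · rwa [one_mul] at h4
  obtain ⟨r, hr, h⟩ := Metric.eventually_nhds_iff_ball.1 h
  exact ⟨r, hr, h⟩

/-- **Reflection**, with four spare labels. -/
theorem refl_big (hU : UDRingAll β) (hB : BENeg β) (hcd : c ≠ d) (hef : e ≠ f) (h1 : c ≠ e) (h2 : c ≠ f)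
    (h3 : d ≠ e) (h4 : d ≠ f) (hn : X.Nodup) (hc : c ∉ X) (hd : d ∉ X) (he : e ∉ X) (hf : f ∉ X)
    (hG : Gz z X) : UD (fun i => -z i) X = UD z X.reverse := by
  have hn' : X.reverse.Nodup := List.nodup_reverse.2 hn
  have hc' : c ∉ X.reverse := fun h => hc (List.mem_reverse.1 h)
  have hd' : d ∉ X.reverse := fun h => hd (List.mem_reverse.1 h)
  have he' : e ∉ X.reverse := fun h => he (List.mem_reverse.1 h)
  have hf' : f ∉ X.reverse := fun h => hf (List.mem_reverse.1 h)
  obtain ⟨r1, hr1, hR⟩ := regR_ball (α := β) hcd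
  obtain ⟨r2, hr2, hO⟩ := okZ_near
  set r := min r1 r2 with hr
  have hr0 : 0 < r := lt_min hr1 hr2
  refine LinearMap.ext fun F => ?_
  have key : ∀ z : β → ℂ, Gz z X → (∀ i ∈ X, z i ∈ Metric.ball (0 : ℂ) r) →
      UD (fun i => -z i) X F = UD z X.reverse F := by
    intro z hG hz
    have hz1 : ∀ i ∈ X, z i ∈ Metric.ball (0 : ℂ) r1 := fun i hi =>
      Metric.ball_subset_ball (min_le_left _ _) (hz i hi)
    have hz2 : ∀ i ∈ X, OkZ (z i) := fun i hi => hO _ (Metric.ball_subset_ball (min_le_right _ _) (hz i hi))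
    have hz3 : ∀ i ∈ X, -z i ∈ Metric.ball (0 : ℂ) r1 := fun i hi => by
      have := hz1 i hi
      rw [Metric.mem_ball, dist_zero_right] at this ⊢
      rwa [norm_neg]
    have a1 := hR (fun i => -z i) X hn hc hd hz3
    have a2 := hR z X.reverse hn' hc' hd' fun i hi => hz1 i (List.mem_reverse.1 hi)
    have hG' : Gz z X.reverse := hG.perm X.reverse_perm.symm
    have a3 : VR c d (fun i => -z i) X.reverse.reverse = VR c d z X.reverse :=
      VR_refl (X := X.reverse) hn' hcd hef h1 h2 h3 h4 hc' hd' he' hf' (fun j hj => hz2 j (List.mem_reverse.1 hj))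
        a2.1 (by rw [List.reverse_reverse]; exact a1.1)
    rw [List.reverse_reverse] at a3
    rw [UD_near hcd hn hc hd (gz_neg hG) (hU c d e X hn hcd h1 h3 hc hd he _ (gz_neg hG) a1.2) a1.1,
      UD_near hcd hn' hc' hd' hG' (hU c d e _ hn' hcd h1 h3 hc' hd' he' _ hG' a2.2) a2.1, a3,
      hB z X hn hG, BE_perm X.reverse_perm.symm hn hc hd hcd hG]
  refine gz_ext (X := X) (f := fun z => UD (fun i => -z i) X F) (g := fun z => UD z X.reverse F)
    hr0 (P := fun _ => 1) (fun _ => differentiable_const _) ?_ ?_ ?_ hG one_ne_zero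
  · intro y hy hGy _
    show UD (fun i => -y i) X F = UD y X.reverse F
    rw [← UD_shift z0 (z := fun i => -y i) (X := X), ← UD_shift (-z0) (z := y) (X := X.reverse)]
    have e1 : (fun i => -y i + z0) = fun i => -(y i + -z0) := by
      funext i
      ring
    rw [e1]
    refine key (fun i => y i + -z0) (hGy.shift (-z0)) fun i hi => ?_
    have := hy i hi
    rw [Metric.mem_ball, dist_eq_norm] at this ⊢
    rwa [sub_zero, ← sub_eq_add_neg]
  · intro w t hG _
    exact UD_dt hn (fun x _ => by fun_prop) (gz_neg hG) F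
  · intro w t hG _
    exact UD_dt hn' (fun x _ => by fun_prop) (hG.perm X.reverse_perm.symm) F

end big

/-! ### Without spare labels -/

section all

variable {α : Type*} [DecidableEq α] [Finite α] {z : α → ℂ} {X A B : List α}

omit [DecidableEq α] [Finite α] in
theorem inl_inj : Function.Injective (Sum.inl : α → α ⊕ Fin 4) := Sum.inl_injective

omit [DecidableEq α] [Finite α] in
theorem push_inj {β : Type*} [DecidableEq β] {e : α → β} (he : Function.Injective e) {V W : Fnl α}
    (h : push he V = push he W) : V = W := by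
  have : Nonempty (Pat α) := ⟨Pat.empty⟩
  refine LinearMap.ext fun F => ?_
  have hr : Function.Injective (rst he : Pat α → Pat β) := fun q q' h => rst_inj he h
  have h1 : V (fun q => F (Function.invFun (rst he) (rst he q))) =
      W (fun q => F (Function.invFun (rst he) (rst he q))) :=
    congrArg (fun U : Fnl β => U fun q => F (Function.invFun (rst he) q)) h
  have h2 : (fun q => F (Function.invFun (rst he) (rst he q))) = F := by
    funext q
    rw [Function.leftInverse_invFun hr q]
  rwa [h2] at h1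

/-- The rapidities on the bigger set of labels. -/
noncomputable def zS (z : α → ℂ) : α ⊕ Fin 4 → ℂ := Sum.elim z fun _ => 0

omit [DecidableEq α] [Finite α] in
theorem gz_inl (h : Gz z X) : Gz (zS z) (X.map Sum.inl) where
  s i hi k hk hik := by
    obtain ⟨i, hi', rfl⟩ := List.mem_map.1 hi
    obtain ⟨k, hk', rfl⟩ := List.mem_map.1 hk
    exact h.s i hi' k hk' fun e => hik (by rw [e])
  d i hi k hk hik := by
    obtain ⟨i, hi', rfl⟩ := List.mem_map.1 hi
    obtain ⟨k, hk', rfl⟩ := List.mem_map.1 hk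
    exact h.d i hi' k hk' fun e => hik (by rw [e])

/-- **ROTATION**, all lists. -/
theorem rot_all (hU : UDRingAll (α ⊕ Fin 4)) (hn : (A ++ B).Nodup) (hG : Gz z (A ++ B)) :
    UD z (A ++ B) = UD z (B ++ A) := by
  apply push_inj (inl_inj (α := α))
  have h1 : UD (zS z) ((A ++ B).map Sum.inl) = push inl_inj (UD z (A ++ B)) := UD_map inl_inj fun _ _ => rfl
  have h2 : UD (zS z) ((B ++ A).map Sum.inl) = push inl_inj (UD z (B ++ A)) := UD_map inl_inj fun _ _ => rfl
  have hn' := hn.map (inl_inj (α := α))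
  have hG' := gz_inl hG
  rw [← h1, ← h2]
  rw [List.map_append] at hn' hG' ⊢
  rw [List.map_append]
  have hc : ∀ k : Fin 4, (Sum.inr k : α ⊕ Fin 4) ∉ A.map Sum.inl ++ B.map Sum.inl := fun k => by simp
  exact rot_big hU (c := Sum.inr 0) (d := Sum.inr 1) (e := Sum.inr 2) (by simp) (by simp) (by simp) hn'
    (hc _) (hc _) (hc _) hG'

/-- **REFLECTION**, all lists. -/
theorem refl_all (hU : UDRingAll (α ⊕ Fin 4)) (hB : BENeg (α ⊕ Fin 4)) (hn : X.Nodup) (hG : Gz z X) :
    UD (fun i => -z i) X = UD z X.reverse := by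
  apply push_inj (inl_inj (α := α))
  have h1 : UD (fun i => -zS z i) (X.map Sum.inl) = push inl_inj (UD (fun i => -z i) X) :=
    UD_map inl_inj fun _ _ => rfl
  have h2 : UD (zS z) (X.reverse.map Sum.inl) = push inl_inj (UD z X.reverse) := UD_map inl_inj fun _ _ => rfl
  rw [← h1, ← h2, List.map_reverse]
  have hc : ∀ k : Fin 4, (Sum.inr k : α ⊕ Fin 4) ∉ X.map Sum.inl := fun k => by simp
  exact refl_big hU hB (c := Sum.inr 0) (d := Sum.inr 1) (e := Sum.inr 2) (f := Sum.inr 3) (by simp)
    (by simp) (by simp) (by simp) (by simp) (by simp) (hn.map inl_inj) (hc _) (hc _) (hc _) (hc _) (gz_inl hG)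

end all

end Pool.Agent.NUU
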