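import Pool.Agent.NUU.DiscFuse

/-!
# The degree of the disc functional in the lowest line (helper36)
-/

set_option autoImplicit false

namespace Pool.Agent.NUU

open _root_.Pool.Agent.EXL _root_.Pool.Agent.EXL.Pat Filter Topology
open _root_.Pool.Agent.EXL.Fm (lam)
open _root_.Pool.Agent.NUF
open Complex (I exp sin cos)
open Polynomial (C natDegree)

variable {α : Type*} [DecidableEq α] {z z' : α → ℂ} {X Y : List α} {p q b c : α}

section deg

variable [Finite α]

/-- the part with the lowest line empty -/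
theorem UD_consE (hn : (p :: X).Nodup) (hb : b ∉ X) (hc : c ∉ X) (hbc : b ≠ c) (hG : Gz z X)
    (F : Pat α → ℂ) : UD z (p :: X) (opE ℂ p F) =
      (∏ k ∈ X.toFinset, (-I * e3 * s3 (z p - z k))) * UD z X F +
      ∑ i ∈ X.toFinset, (Fr.c3 * exp (I * (z p - z i + 3 * lam)) *
        ∏ k ∈ X.toFinset.erase i, pd z p i k) * UD z (X.erase i) (oE uops z X i F) := by
  have hn1 := List.nodup_cons.1 hn
  have hSup : ∀ (Z : List α), Z.Sublist X → p ∉ Z → ∀ G : Pat α → ℂ, UD z Z (opE ℂ p G) = UD z Z G := by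
    intro Z hZ hp G
    have hS := UD_sup (z := z) (X := Z) (hn1.2.sublist hZ) (fun h => hb (hZ.subset h))
      (fun h => hc (hZ.subset h)) hbc (hG.sub fun x hx => hZ.subset hx)
    apply hS.congr
    intro q hq
    have h1 : q p = p := ax_out hq hp
    rw [opE_apply, if_pos h1]
  rw [UD_cons, LinearMap.add_apply, LinearMap.smul_apply, smul_eq_mul,
    hSup X (List.Sublist.refl X) hn1.1, LinearMap.sum_apply]
  congr 1
  refine Finset.sum_congr rfl fun i hi => ?_
  have hiX := List.mem_toFinset.1 hi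
  have hpi : p ≠ i := fun e => hn1.1 (e ▸ hiX)
  have hcomm : oE uops z X i (opE ℂ p F) = opE ℂ p (oE uops z X i F) := by
    have h := (HLaws.oE_E (z := z) ulaws (k := p) hpi hn1.1 (i := i) (X := X)).eq
    rw [uops_E] at h
    exact LinearMap.congr_fun h F
  have hcu : opCu ℂ p i (opE ℂ p (oE uops z X i F)) = 0 := by
    funext q
    rw [opCu_apply]
    split_ifs with h
    · rw [opE_apply, if_neg]
      · rfl
      · rw [cup_apply h, if_pos rfl]
        exact hpi.symm
    · rfl
  rw [LinearMap.comp_apply, Module.End.mul_apply, hcomm, jn, LinearMap.add_apply,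
    LinearMap.smul_apply, LinearMap.smul_apply, hcu, smul_zero, add_zero, Module.End.one_apply, map_smul,
    hSup _ List.erase_sublist (fun h => hn1.1 (List.mem_of_mem_erase h)), smul_eq_mul]

/-- the part with the lowest line occupied -/
theorem UD_consO (hn : (p :: X).Nodup) (hb : b ∉ X) (hc : c ∉ X) (hbc : b ≠ c) (hG : Gz z X)
    (F : Pat α → ℂ) : UD z (p :: X) (F - opE ℂ p F) =
      ∑ i ∈ X.toFinset, (Fr.c3 * ∏ k ∈ X.toFinset.erase i, pd z p i k) *
        UD z (X.erase i) (opCu ℂ p i (oE uops z X i F)) := by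
  rw [map_sub, UD_consE hn hb hc hbc hG, UD_cons, LinearMap.add_apply, LinearMap.smul_apply,
    smul_eq_mul, LinearMap.sum_apply, add_sub_add_left_eq_sub, ← Finset.sum_sub_distrib]
  refine Finset.sum_congr rfl fun i hi => ?_
  rw [LinearMap.comp_apply, Module.End.mul_apply, jn, LinearMap.add_apply,
    LinearMap.smul_apply, LinearMap.smul_apply, Module.End.one_apply, map_add, map_smul, map_smul,
    smul_eq_mul, smul_eq_mul, add_sub_cancel_left]

/-! ### The polynomials -/

/-- `e^{iz}` -/
noncomputable def ez (z : α → ℂ) (k : α) : ℂ := exp (I * z k)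

omit [Finite α] [DecidableEq α] in
theorem ez_ne (z : α → ℂ) (k : α) : ez z k ≠ 0 := Complex.exp_ne_zero _

/-- the polynomial of `s3 (s - z k)` -/
noncomputable def lp (z : α → ℂ) (k : α) : Polynomial ℂ :=
  C (e3 / (2 * I * ez z k)) * Polynomial.X + C (-(ez z k * e3⁻¹ / (2 * I)))

omit [Finite α] [DecidableEq α] in
theorem lp_eval (z : α → ℂ) (k : α) (s : ℂ) :
    exp (I * s) * s3 (s - z k) = (lp z k).eval (exp (I * s) ^ 2) := by
  have hI : (2 : ℂ) * I ≠ 0 := mul_ne_zero two_ne_zero Complex.I_ne_zero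
  have h3 := two_I_s3 (s - z k)
  have e1 : exp (I * (s - z k + 3 * lam)) = exp (I * s) * (ez z k)⁻¹ * e3 := by
    unfold ez e3
    rw [← Complex.exp_neg, ← Complex.exp_add, ← Complex.exp_add]
    congr 1
    ring
  have e2 : exp (-(I * (s - z k + 3 * lam))) = (exp (I * s))⁻¹ * ez z k * e3⁻¹ := by
    rw [Complex.exp_neg, e1]
    have := ez_ne z k
    have := e3_ne
    field_simp
  rw [e1, e2] at h3
  have h4 : s3 (s - z k) = (exp (I * s) * (ez z k)⁻¹ * e3 - (exp (I * s))⁻¹ * ez z k * e3⁻¹) / (2 * I) := by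
    rw [eq_div_iff hI, ← h3]
    ring
  have := ez_ne z k
  have := e3_ne
  have := Complex.exp_ne_zero (I * s)
  have := Complex.I_ne_zero
  rw [h4]
  unfold lp
  simp only [Polynomial.eval_add, Polynomial.eval_mul, Polynomial.eval_C, Polynomial.eval_X]
  field_simp
  ring

omit [Finite α] [DecidableEq α] in
theorem lp_deg (z : α → ℂ) (k : α) : (lp z k).natDegree ≤ 1 := by
  unfold lp
  exact Polynomial.natDegree_linear_le

omit [Finite α] [DecidableEq α] in
theorem lp_c1 (z : α → ℂ) (k : α) : (lp z k).coeff 1 = e3 / (2 * I * ez z k) := by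
  unfold lp
  simp [Polynomial.coeff_C]

omit [Finite α] [DecidableEq α] in
theorem lp_c0 (z : α → ℂ) (k : α) : (lp z k).coeff 0 = -(ez z k * e3⁻¹ / (2 * I)) := by
  unfold lp
  simp

/-- `W = e^{2iλ}` -/
noncomputable def W2 : ℂ := exp (I * (2 * lam))

theorem W2_ne : W2 ≠ 0 := Complex.exp_ne_zero _

theorem e3_sq : -(e3 * e3) = W2⁻¹ := by
  have h8 := ex8
  have h16 : exp (I * (8 * lam)) * exp (I * (8 * lam)) = 1 := by
    rw [h8]
    ring
  unfold e3 W2
  rw [← Complex.exp_neg]
  calc -(exp (I * (3 * lam)) * exp (I * (3 * lam))) =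
      exp (I * (8 * lam)) * (exp (I * (3 * lam)) * exp (I * (3 * lam))) := by
        rw [h8]
        ring
    _ = exp (I * (8 * lam)) * exp (I * (8 * lam)) * exp (-(I * (2 * lam))) := by
        simp only [← Complex.exp_add]
        congr 1
        ring
    _ = _ := by rw [h16, one_mul]

omit [Finite α] in
theorem prod_pow (w : ℂ) (Y : Finset α) (g : α → ℂ) :
    w ^ Y.card * ∏ k ∈ Y, g k = ∏ k ∈ Y, (w * g k) := by
  rw [Finset.prod_mul_distrib, Finset.prod_const]

omit [Finite α] in
theorem deg_prod (Y : Finset α) (f : α → Polynomial ℂ) (h : ∀ k ∈ Y, (f k).natDegree ≤ 1) :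
    (∏ k ∈ Y, f k).natDegree ≤ Y.card ∧ (∏ k ∈ Y, f k).coeff Y.card = ∏ k ∈ Y, (f k).coeff 1 := by
  constructor
  · refine (Polynomial.natDegree_prod_le _ _).trans ?_
    refine (Finset.sum_le_card_nsmul _ _ 1 h).trans ?_
    simp
  · have := Polynomial.coeff_prod_of_natDegree_le Y f 1 h
    rwa [mul_one] at this

omit [Finite α] [DecidableEq α] in
theorem clp_deg (z : α → ℂ) (a : ℂ) (k : α) : (C a * lp z k).natDegree ≤ 1 :=
  (Polynomial.natDegree_C_mul_le _ _).trans (lp_deg z k)

/-- the pair factor `Dn / sin` -/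
noncomputable def dq (z : α → ℂ) (i k : α) : ℂ := Fm.Dn (z i - z k) / sin (z i - z k)

/-- **(U3), the empty part.** -/
theorem UD_degE (hn : (p :: X).Nodup) (hb : b ∉ X) (hc : c ∉ X) (hbc : b ≠ c) (hG : Gz z X)
    (F : Pat α → ℂ) : ∃ P : Polynomial ℂ, P.natDegree ≤ X.length ∧
      P.coeff X.length = (∏ k ∈ X.toFinset, (2 * ez z k)⁻¹) * UD z X F ∧
      P.coeff 0 = (∏ k ∈ X.toFinset, ez z k / 2) * UD z X F ∧
      ∀ s, exp (I * s) ^ X.length * UD (Function.update z p s) (p :: X) (opE ℂ p F) =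
        P.eval (exp (I * s) ^ 2) := by
  have hn1 := List.nodup_cons.1 hn
  have hcard : X.toFinset.card = X.length := List.toFinset_card_of_nodup hn1.2
  have hI : (2 : ℂ) * I ≠ 0 := mul_ne_zero two_ne_zero Complex.I_ne_zero
  set n := X.length with hnn
  set v : α → ℂ := fun i => UD z (X.erase i) (oE uops z X i F) with hv
  set P : Polynomial ℂ := C (UD z X F) * ∏ k ∈ X.toFinset, (C (-I * e3) * lp z k) +
    ∑ i ∈ X.toFinset, C (v i * (Fr.c3 * e3 / ez z i)) * (Polynomial.X *
      ∏ k ∈ X.toFinset.erase i, (C (dq z i k) * lp z k)) with hP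
  have hmain := deg_prod X.toFinset (fun k => C (-I * e3) * lp z k) fun k _ => clp_deg z _ k
  have hpart := fun i => deg_prod (X.toFinset.erase i) (fun k => C (dq z i k) * lp z k)
    fun k _ => clp_deg z _ k
  have hc1 : ∀ i ∈ X.toFinset, (X.toFinset.erase i).card + 1 = n := fun i hi => by
    rw [← hcard]
    exact Finset.card_erase_add_one hi
  have hrec := UD_rec (z := z) hn1.2 hb hc hbc hG
  refine ⟨P, ?_, ?_, ?_, ?_⟩
  · rw [hP]
    refine Polynomial.natDegree_add_le_of_degree_le ?_ ?_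
    · refine (Polynomial.natDegree_C_mul_le _ _).trans ?_
      rw [← hcard]
      exact hmain.1
    · refine Polynomial.natDegree_sum_le_of_forall_le _ _ fun i hi => ?_
      refine (Polynomial.natDegree_C_mul_le _ _).trans ?_
      refine Polynomial.natDegree_mul_le.trans ?_
      rw [Polynomial.natDegree_X, ← hc1 i hi, add_comm]
      exact Nat.add_le_add_right (hpart i).1 1
  · -- the top coefficient
    have q1 : ∀ i k, dq z i k * (e3 / (2 * I * ez z k)) = W2⁻¹ * (pt z i k * (2 * ez z k)⁻¹) := by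
      intro i k
      rw [← e3_sq]
      unfold pt dq
      have := ez_ne z k
      have := e3_ne
      have := Complex.I_ne_zero
      generalize Fm.Dn (z i - z k) / sin (z i - z k) = D
      field_simp
      rw [Complex.I_sq]
      ring
    have q2 : ∀ i ∈ X.toFinset, (C (v i * (Fr.c3 * e3 / ez z i)) * (Polynomial.X *
        ∏ k ∈ X.toFinset.erase i, (C (dq z i k) * lp z k))).coeff n =
          2 * Fr.c3 * e3 * W2 * W2⁻¹ ^ n * (∏ k ∈ X.toFinset, (2 * ez z k)⁻¹) *
            ((∏ k ∈ X.toFinset.erase i, pt z i k) * v i) := by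
      intro i hi
      have h1 := (hpart i).2
      have h2 : ∏ k ∈ X.toFinset.erase i, (C (dq z i k) * lp z k).coeff 1 =
          W2⁻¹ ^ (X.toFinset.erase i).card * ((∏ k ∈ X.toFinset.erase i, pt z i k) *
            ∏ k ∈ X.toFinset.erase i, (2 * ez z k)⁻¹) := by
        rw [← Finset.prod_mul_distrib, prod_pow]
        refine Finset.prod_congr rfl fun k _ => ?_
        rw [Polynomial.coeff_C_mul, lp_c1, q1]
      have h3 : ∏ k ∈ X.toFinset, (2 * ez z k)⁻¹ = (2 * ez z i)⁻¹ *
          ∏ k ∈ X.toFinset.erase i, (2 * ez z k)⁻¹ :=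
        (Finset.mul_prod_erase X.toFinset (fun k => (2 * ez z k)⁻¹) hi).symm
      have h4 : W2 * W2⁻¹ ^ n = W2⁻¹ ^ (X.toFinset.erase i).card := by
        rw [← hc1 i hi, pow_succ, mul_comm (W2⁻¹ ^ _), ← mul_assoc, mul_inv_cancel₀ W2_ne, one_mul]
      rw [Polynomial.coeff_C_mul, ← hc1 i hi, Polynomial.coeff_X_mul, h1, h2, hc1 i hi, h3,
        mul_assoc (2 * Fr.c3 * e3), h4]
      have := ez_ne z i
      field_simp
    have q3 : ∏ k ∈ X.toFinset, (C (-I * e3) * lp z k).coeff 1 =
        W2⁻¹ ^ n * ∏ k ∈ X.toFinset, (2 * ez z k)⁻¹ := by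
      rw [← hcard, prod_pow]
      refine Finset.prod_congr rfl fun k _ => ?_
      rw [Polynomial.coeff_C_mul, lp_c1, ← e3_sq]
      have := ez_ne z k
      have := e3_ne
      have := Complex.I_ne_zero
      field_simp
    have q4 : (W2 ^ n - 1) * UD z X F = (-(2 * Fr.c3 * e3⁻¹)) *
        ∑ i ∈ X.toFinset, ((∏ k ∈ X.toFinset.erase i, pt z i k) * v i) := by
      have h := LinearMap.congr_fun hrec F
      rw [LinearMap.smul_apply, LinearMap.smul_apply, smul_eq_mul, smul_eq_mul,
        LinearMap.sum_apply] at h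
      exact h
    have q5 : W2⁻¹ ^ n * W2 ^ n = 1 := by
      rw [← mul_pow, inv_mul_cancel₀ W2_ne, one_pow]
    have q6 : W2 * (e3 * e3) = -1 := by
      have h := e3_sq
      have h' : e3 * e3 = -W2⁻¹ := by rw [← h, neg_neg]
      rw [h', mul_neg, mul_inv_cancel₀ W2_ne]
    have q7 : 2 * Fr.c3 * ∑ i ∈ X.toFinset, ((∏ k ∈ X.toFinset.erase i, pt z i k) * v i) =
        -(e3 * ((W2 ^ n - 1) * UD z X F)) := by
      rw [q4]
      have := e3_ne
      field_simp
    rw [hP, Polynomial.coeff_add, Polynomial.coeff_C_mul, Polynomial.finsetSum_coeff,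
      Finset.sum_congr rfl q2, ← Finset.mul_sum]
    have h5 := hmain.2
    rw [hcard] at h5
    rw [h5, q3]
    generalize ∑ i ∈ X.toFinset, ((∏ k ∈ X.toFinset.erase i, pt z i k) * v i) = S at q7 ⊢
    generalize ∏ k ∈ X.toFinset, (2 * ez z k)⁻¹ = A
    linear_combination (e3 * W2 * W2⁻¹ ^ n * A) * q7 - (W2⁻¹ ^ n * A * (W2 ^ n - 1) * UD z X F) * q6 +
      (A * UD z X F) * q5
  · -- the lowest coefficient
    rw [hP, Polynomial.coeff_add, Polynomial.coeff_C_mul, Polynomial.finsetSum_coeff,
      Finset.sum_eq_zero fun i _ => ?_, add_zero, Polynomial.coeff_zero_prod, mul_comm]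
    · congr 1
      refine Finset.prod_congr rfl fun k _ => ?_
      rw [Polynomial.coeff_C_mul, lp_c0]
      have := e3_ne
      have := Complex.I_ne_zero
      field_simp
    · rw [Polynomial.coeff_C_mul, Polynomial.mul_coeff_zero, Polynomial.coeff_X_zero, zero_mul,
        mul_zero]
  · intro s
    set z1 := Function.update z p s with hz1
    have ez1 : ∀ x ∈ X, z1 x = z x := fun x hx =>
      Function.update_of_ne (fun e : x = p => hn1.1 (e ▸ hx)) _ _
    have ezp : z1 p = s := Function.update_self _ _ _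
    have hw := Complex.exp_ne_zero (I * s)
    rw [UD_consE hn hb hc hbc (hG.congr fun x hx => (ez1 x hx).symm), UD_congr ez1, mul_add, hP,
      Polynomial.eval_add, Polynomial.eval_mul, Polynomial.eval_C, Polynomial.eval_finsetSum,
      Polynomial.eval_prod, Finset.mul_sum, ezp]
    congr 1
    · rw [← mul_assoc, ← hcard, prod_pow, mul_comm]
      congr 1
      refine Finset.prod_congr rfl fun k hk => ?_
      rw [ez1 k (List.mem_toFinset.1 hk), Polynomial.eval_mul, Polynomial.eval_C, ← lp_eval]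
      ring
    · refine Finset.sum_congr rfl fun i hi => ?_
      have hiX := List.mem_toFinset.1 hi
      have e1 : UD z1 (X.erase i) = UD z (X.erase i) :=
        UD_congr fun x hx => ez1 x (List.mem_of_mem_erase hx)
      have e2 : oE uops z1 X i = oE uops z X i := oE_congr (ez1 i hiX) ez1
      have e3' : exp (I * (s - z1 i + 3 * lam)) = exp (I * s) * (ez z i)⁻¹ * e3 := by
        rw [ez1 i hiX]
        unfold ez e3
        rw [← Complex.exp_neg, ← Complex.exp_add, ← Complex.exp_add]
        congr 1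
        ring
      have e4 : exp (I * s) ^ (X.toFinset.erase i).card * ∏ k ∈ X.toFinset.erase i, pd z1 p i k =
          ∏ k ∈ X.toFinset.erase i, (C (dq z i k) * lp z k).eval (exp (I * s) ^ 2) := by
        rw [prod_pow]
        refine Finset.prod_congr rfl fun k hk => ?_
        have hkX := List.mem_toFinset.1 (Finset.mem_of_mem_erase hk)
        rw [Polynomial.eval_mul, Polynomial.eval_C, ← lp_eval]
        unfold pd dq
        rw [ez1 k hkX, ez1 i hiX, ezp]
        ring
      rw [e1, e2, e3', Polynomial.eval_mul, Polynomial.eval_mul, Polynomial.eval_C,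
        Polynomial.eval_X, Polynomial.eval_prod, ← e4, ← hc1 i hi, pow_succ, hv]
      have := ez_ne z i
      field_simp

/-- **(U3), the occupied part.** -/
theorem UD_degO (hn : (p :: X).Nodup) (hb : b ∉ X) (hc : c ∉ X) (hbc : b ≠ c) (hG : Gz z X)
    (F : Pat α → ℂ) : ∃ Q : Polynomial ℂ, Q.natDegree ≤ X.length - 1 ∧
      ∀ s, exp (I * s) ^ (X.length - 1) * UD (Function.update z p s) (p :: X) (F - opE ℂ p F) =
        Q.eval (exp (I * s) ^ 2) := by
  have hn1 := List.nodup_cons.1 hn
  have hcard : X.toFinset.card = X.length := List.toFinset_card_of_nodup hn1.2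
  have hc1 : ∀ i ∈ X.toFinset, (X.toFinset.erase i).card = X.length - 1 := fun i hi => by
    rw [← hcard]
    exact Finset.card_erase_of_mem hi
  refine ⟨∑ i ∈ X.toFinset, C (Fr.c3 * UD z (X.erase i) (opCu ℂ p i (oE uops z X i F))) *
    ∏ k ∈ X.toFinset.erase i, (C (dq z i k) * lp z k), ?_, ?_⟩
  · refine Polynomial.natDegree_sum_le_of_forall_le _ _ fun i hi => ?_
    refine (Polynomial.natDegree_C_mul_le _ _).trans ?_
    rw [← hc1 i hi]
    exact (deg_prod (X.toFinset.erase i) (fun k => C (dq z i k) * lp z k)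
      fun k _ => clp_deg z _ k).1
  · intro s
    set z1 := Function.update z p s with hz1
    have ez1 : ∀ x ∈ X, z1 x = z x := fun x hx =>
      Function.update_of_ne (fun e : x = p => hn1.1 (e ▸ hx)) _ _
    have ezp : z1 p = s := Function.update_self _ _ _
    rw [UD_consO hn hb hc hbc (hG.congr fun x hx => (ez1 x hx).symm), Polynomial.eval_finsetSum,
      Finset.mul_sum]
    refine Finset.sum_congr rfl fun i hi => ?_
    have hiX := List.mem_toFinset.1 hi
    have e1 : UD z1 (X.erase i) = UD z (X.erase i) :=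
      UD_congr fun x hx => ez1 x (List.mem_of_mem_erase hx)
    have e2 : oE uops z1 X i = oE uops z X i := oE_congr (ez1 i hiX) ez1
    have e4 : exp (I * s) ^ (X.toFinset.erase i).card * ∏ k ∈ X.toFinset.erase i, pd z1 p i k =
        ∏ k ∈ X.toFinset.erase i, (C (dq z i k) * lp z k).eval (exp (I * s) ^ 2) := by
      rw [prod_pow]
      refine Finset.prod_congr rfl fun k hk => ?_
      have hkX := List.mem_toFinset.1 (Finset.mem_of_mem_erase hk)
      rw [Polynomial.eval_mul, Polynomial.eval_C, ← lp_eval]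
      unfold pd dq
      rw [ez1 k hkX, ez1 i hiX, ezp]
      ring
    rw [e1, e2, Polynomial.eval_mul, Polynomial.eval_C, Polynomial.eval_prod, ← e4, hc1 i hi]
    ring

end deg

/-! ### Both signs -/

section sign

/-- the reversed polynomial -/
theorem rev_pol (P : Polynomial ℂ) {n : ℕ} (h : P.natDegree ≤ n) : ∃ P' : Polynomial ℂ,
    P'.natDegree ≤ n ∧ P'.coeff n = P.coeff 0 ∧ P'.coeff 0 = P.coeff n ∧
      ∀ x : ℂ, x ≠ 0 → P'.eval x = x ^ n * P.eval x⁻¹ := by
  refine ⟨Polynomial.reflect n P, ?_, ?_, ?_, ?_⟩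
  · exact Polynomial.natDegree_reflect_le.trans (by omega)
  · rw [Polynomial.coeff_reflect, Polynomial.revAt_le le_rfl, Nat.sub_self]
  · rw [Polynomial.coeff_reflect, Polynomial.revAt_zero]
  · intro x hx
    have hx' : x⁻¹ ≠ 0 := inv_ne_zero hx
    let _ : Invertible (x⁻¹) := invertibleOfNonzero hx'
    have := Polynomial.eval₂_reflect_mul_pow (RingHom.id ℂ) (x⁻¹) n P h
    rw [invOf_eq_inv, inv_inv] at this
    rw [Polynomial.eval, Polynomial.eval, ← this, inv_pow]
    field_simp

theorem upd_neg (z : α → ℂ) (p : α) (s : ℂ) :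
    (fun i => (-1 : ℂ) * Function.update z p s i) = Function.update (fun i => (-1 : ℂ) * z i) p (-s) := by
  funext x
  by_cases hx : x = p
  · subst hx
    rw [Function.update_self, Function.update_self, neg_one_mul]
  · rw [Function.update_of_ne hx, Function.update_of_ne hx]

variable [Finite α] {σ : ℂ}

/-- **(U3) for both signs, the empty part.** -/
theorem UD_degE' (hσ : σ = 1 ∨ σ = -1) (hn : (p :: X).Nodup) (hb : b ∉ X) (hc : c ∉ X) (hbc : b ≠ c)
    (hG : Gz (fun i => σ * z i) X) (F : Pat α → ℂ) : ∃ P : Polynomial ℂ, P.natDegree ≤ X.length ∧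
      P.coeff X.length = (∏ k ∈ X.toFinset, (2 * ez z k)⁻¹) * UD (fun i => σ * z i) X F ∧
      P.coeff 0 = (∏ k ∈ X.toFinset, ez z k / 2) * UD (fun i => σ * z i) X F ∧
      ∀ s, exp (I * s) ^ X.length *
        UD (fun i => σ * Function.update z p s i) (p :: X) (opE ℂ p F) =
          P.eval (exp (I * s) ^ 2) := by
  rcases hσ with rfl | rfl
  · simp only [one_mul] at hG ⊢
    exact UD_degE hn hb hc hbc hG F
  · obtain ⟨P, h1, h2, h3, h4⟩ := UD_degE hn hb hc hbc hG F
    obtain ⟨P', k1, k2, k3, k4⟩ := rev_pol P h1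
    have e1 : ∀ k, ez (fun i => (-1 : ℂ) * z i) k = (ez z k)⁻¹ := fun k => by
      unfold ez
      rw [← Complex.exp_neg]
      congr 1
      ring
    refine ⟨P', k1, ?_, ?_, ?_⟩
    · rw [k2, h3]
      congr 1
      refine Finset.prod_congr rfl fun k _ => ?_
      rw [e1]
      have := ez_ne z k
      field_simp
    · rw [k3, h2]
      congr 1
      refine Finset.prod_congr rfl fun k _ => ?_
      rw [e1]
      have := ez_ne z k
      field_simp
    · intro s
      have hw := Complex.exp_ne_zero (I * s)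
      have e2 : exp (I * -s) = (exp (I * s))⁻¹ := by
        rw [← Complex.exp_neg]
        congr 1
        ring
      have h5 := h4 (-s)
      rw [e2] at h5
      rw [k4 _ (pow_ne_zero _ hw), upd_neg, ← inv_pow, ← h5, ← mul_assoc, ← mul_pow]
      congr 2
      field_simp

/-- **(U3) for both signs, the occupied part.** -/
theorem UD_degO' (hσ : σ = 1 ∨ σ = -1) (hn : (p :: X).Nodup) (hb : b ∉ X) (hc : c ∉ X) (hbc : b ≠ c)
    (hG : Gz (fun i => σ * z i) X) (F : Pat α → ℂ) : ∃ Q : Polynomial ℂ, Q.natDegree ≤ X.length - 1 ∧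
      ∀ s, exp (I * s) ^ (X.length - 1) *
        UD (fun i => σ * Function.update z p s i) (p :: X) (F - opE ℂ p F) =
          Q.eval (exp (I * s) ^ 2) := by
  rcases hσ with rfl | rfl
  · simp only [one_mul] at hG ⊢
    exact UD_degO hn hb hc hbc hG F
  · obtain ⟨P, h1, h4⟩ := UD_degO hn hb hc hbc hG F
    obtain ⟨P', k1, _, _, k4⟩ := rev_pol P h1
    refine ⟨P', k1, ?_⟩
    intro s
    have hw := Complex.exp_ne_zero (I * s)
    have e2 : exp (I * -s) = (exp (I * s))⁻¹ := by
      rw [← Complex.exp_neg]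
      congr 1
      ring
    have h5 := h4 (-s)
    rw [e2] at h5
    rw [k4 _ (pow_ne_zero _ hw), upd_neg, ← inv_pow, ← h5, ← mul_assoc, ← mul_pow]
    congr 2
    field_simp

end sign

end Pool.Agent.NUU
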