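import Pool.Agent.NUU.DiscRel

/-!
# Fusion of the disc functional (helper36)
-/

set_option autoImplicit false

namespace Pool.Agent.NUU

open _root_.Pool.Agent.EXL _root_.Pool.Agent.EXL.Pat Filter Topology
open _root_.Pool.Agent.EXL.Fm (lam)
open _root_.Pool.Agent.NUF
open Complex (I exp sin cos)

variable {α : Type*} [DecidableEq α] {z z' : α → ℂ} {X Y : List α} {p q b c : α}

section lim

variable {β : Type*} {l : Filter β} {f : β → ℝ}

theorem hh_val : hh = 3 / 2 * lam := by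
  unfold hh Fm.lam
  ring

omit [DecidableEq α] in
theorem fu1_lim (hf : Tendsto f l atTop) (x : ℂ) (c : ℂ) :
    Tendsto (fun b => (NUMv.cc (x + f b * I) + c) / (tau f b * ex 1 (hh - x) * ex 1 (hh - x))) l
      (𝓝 (1 / 2)) := by
  have h1 := (cos_lim hf (σ := 1) (Or.inl rfl) (-(2 * x))).add (TT_inv_lim hf c)
  have h2 := h1.mul_const ((2 * ex 1 (-(3 * lam)) * ex 1 (hh - x) * ex 1 (hh - x))⁻¹)
  have e : (ex 1 (-(2 * x)) + 0) * (2 * ex 1 (-(3 * lam)) * ex 1 (hh - x) * ex 1 (hh - x))⁻¹ =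
      1 / 2 := by
    have hs : ex 1 (-(2 * x)) = ex 1 (-(3 * lam)) * ex 1 (hh - x) * ex 1 (hh - x) := by
      rw [← ex_add, ← ex_add, hh_val]
      congr 1
      ring
    have hne : ex 1 (-(2 * x)) ≠ 0 := ex_ne _ _
    rw [add_zero, show 2 * ex 1 (-(3 * lam)) * ex 1 (hh - x) * ex 1 (hh - x) =
      2 * (ex 1 (-(3 * lam)) * ex 1 (hh - x) * ex 1 (hh - x)) by ring, ← hs]
    field_simp
  rw [e] at h2
  refine h2.congr fun b => ?_
  have e1 : NUMv.cc (x + f b * I) = cos (-(2 * x) - 1 * (2 * (f b * I))) := by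
    unfold NUMv.cc
    rw [← Complex.cos_neg]
    congr 1
    ring
  rw [e1]
  have ht := TT_ne (f b)
  have h1 := ex_ne 1 (-(3 * lam))
  have h2 := ex_ne 1 (hh - x)
  unfold tau
  field_simp

theorem fu2_lim (hf : Tendsto f l atTop) (x y : ℂ) :
    Tendsto (fun b => (NUMv.cc (x + f b * I) + NUMv.cc (y + f b * I)) /
      (tau f b * ex 1 (hh - x) * ex 1 (hh - y))) l (𝓝 (cos (x - y))) := by
  have h1 := (cos_lim hf (σ := 1) (Or.inl rfl) (-(x + y))).const_mul (2 * cos (x - y))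
  have h2 := h1.mul_const ((2 * ex 1 (-(3 * lam)) * ex 1 (hh - x) * ex 1 (hh - y))⁻¹)
  have e : 2 * cos (x - y) * ex 1 (-(x + y)) *
      (2 * ex 1 (-(3 * lam)) * ex 1 (hh - x) * ex 1 (hh - y))⁻¹ = cos (x - y) := by
    have hs : ex 1 (-(x + y)) = ex 1 (-(3 * lam)) * ex 1 (hh - x) * ex 1 (hh - y) := by
      rw [← ex_add, ← ex_add, hh_val]
      congr 1
      ring
    have hne : ex 1 (-(x + y)) ≠ 0 := ex_ne _ _
    rw [show 2 * ex 1 (-(3 * lam)) * ex 1 (hh - x) * ex 1 (hh - y) =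
      2 * (ex 1 (-(3 * lam)) * ex 1 (hh - x) * ex 1 (hh - y)) by ring, ← hs]
    field_simp
  rw [e] at h2
  refine h2.congr fun b => ?_
  have e1 : NUMv.cc (x + f b * I) + NUMv.cc (y + f b * I) =
      2 * cos (x - y) * cos (-(x + y) - 1 * (2 * (f b * I))) := by
    unfold NUMv.cc
    rw [Complex.cos_add_cos]
    rw [show (2 * (x + f b * I) + 2 * (y + f b * I)) / 2 = -(-(x + y) - 1 * (2 * (f b * I))) by ring,
      Complex.cos_neg, show (2 * (x + f b * I) - 2 * (y + f b * I)) / 2 = x - y by ring]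
    ring
  rw [e1]
  have ht := TT_ne (f b)
  have h1 := ex_ne 1 (-(3 * lam))
  have h2 := ex_ne 1 (hh - x)
  have h3 := ex_ne 1 (hh - y)
  unfold tau
  field_simp

omit [DecidableEq α] in
theorem fuf_lim (hf : Tendsto f l atTop) (x : ℂ) (z : α → ℂ) (Y : Finset α) :
    Tendsto (fun b => fuf (x + f b * I) (zb z (f b)) Y / ((tau f b * ex 1 (hh - x) * ex 1 (hh - x)) *
      ∏ k ∈ Y, (tau f b * ex 1 (hh - x) * gx z k))) l (𝓝 (Fr.s2 * ∏ k ∈ Y, cos (x - z k))) := by
  have h := ((fu1_lim hf x Fr.c3).const_mul NUMv.rt).mul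
    (tendsto_finsetProd Y fun k _ => fu2_lim hf x (z k))
  rw [Fr.rt_eq, show 2 * Fr.s2 * (1 / 2) = Fr.s2 by ring] at h
  refine h.congr fun b => ?_
  rw [Finset.prod_div_distrib]
  unfold fuf
  rw [Fr.rt_eq, mul_div_mul_comm, mul_div_assoc]
  have e : ∀ k, gx z k = ex 1 (hh - z k) := fun k => by
    unfold gx
    rw [ux_hh]
  simp only [e]

variable [Finite α]

/-- **(U5)** Fusion: `z p = z q - 2 λ` are the two lowest lines, the fused line is `z' q = z q - λ`. -/
theorem UD_fuse (hn : (p :: q :: Y).Nodup) (hb : b ∉ p :: q :: Y) (hc : c ∉ p :: q :: Y) (hbc : b ≠ c)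
    (hz : z p = z q - 2 * lam) (hz' : z' q = z q - lam) (hY : ∀ y ∈ Y, z' y = z y)
    (h1 : Gz z (q :: Y)) (h2 : Gz z (p :: Y)) :
    UD z (p :: q :: Y) = (Fr.s2 * ∏ k ∈ Y.toFinset, cos (z' q - z k)) •
      (UD z' (q :: Y) ∘ₗ uops.Y q p) := by
  have hn1 := List.nodup_cons.1 hn
  have hn2 := List.nodup_cons.1 hn1.2
  have hpq : p ≠ q := fun e => hn1.1 (by simp [e])
  have hpY : p ∉ Y.toFinset := fun e => hn1.1 (List.mem_cons_of_mem _ (List.mem_toFinset.1 e))
  have hqY : q ∉ Y.toFinset := fun e => hn2.1 (List.mem_toFinset.1 e)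
  have L1 := PH_lim' z hn
  have L2 := LmF.smul (fuf_lim id_top (z' q) z Y.toFinset)
    ((PH_lim' z' hn1.2).comp (LmE.const (uops.Y q p)))
  refine L1.unique (L2.congr fun r => ?_)
  have e1 : (p :: q :: Y).toFinset = insert p (insert q Y.toFinset) := by
    rw [List.toFinset_cons, List.toFinset_cons]
  have e2 : (q :: Y).toFinset = insert q Y.toFinset := List.toFinset_cons
  have hp' : p ∉ insert q Y.toFinset := by
    rw [Finset.mem_insert, not_or]
    exact ⟨hpq, hpY⟩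
  have e3 : rho (tau (fun r : ℝ => r) r) (gx z') Y.toFinset = rho (tau (fun r : ℝ => r) r) (gx z) Y.toFinset := by
    unfold rho
    congr 2
    refine Finset.prod_congr rfl fun k hk => ?_
    unfold gx ux
    rw [hY k (List.mem_toFinset.1 hk)]
  have e4 : ∀ k ∈ Y.toFinset, gx z' k = gx z k := fun k hk => by
    unfold gx ux
    rw [hY k (List.mem_toFinset.1 hk)]
  have e5 : gx z q * gx z p = ex 1 (hh - z' q) * ex 1 (hh - z' q) := by
    unfold gx
    rw [ux_hh, ux_hh, ← ex_add, ← ex_add, hz, hz']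
    congr 1
    ring
  have e6 : gx z' q = ex 1 (hh - z' q) := by
    unfold gx
    rw [ux_hh]
  have key := PH_fuse hn hb hc hbc (z := zb z r) (z' := zb z' r) (by simp only [zb, hz]; ring)
    (by simp only [zb, hz']; ring) (fun y hy => by simp only [zb, hY y hy]) (h1.zb r) (h2.zb r)
  have e7 : ∏ k ∈ Y.toFinset, (tau (fun r : ℝ => r) r * gx z' q * gx z' k) =
      ∏ k ∈ Y.toFinset, (tau (fun r : ℝ => r) r * ex 1 (hh - z' q) * gx z k) :=
    Finset.prod_congr rfl fun k hk => by rw [e4 k hk, e6]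
  have e8 : (∏ k ∈ Y.toFinset, (tau (fun r : ℝ => r) r * gx z q * gx z k)) *
      ∏ k ∈ Y.toFinset, (tau (fun r : ℝ => r) r * gx z p * gx z k) =
      (∏ k ∈ Y.toFinset, (tau (fun r : ℝ => r) r * ex 1 (hh - z' q) * gx z k)) *
      ∏ k ∈ Y.toFinset, (tau (fun r : ℝ => r) r * ex 1 (hh - z' q) * gx z k) := by
    rw [← Finset.prod_mul_distrib, ← Finset.prod_mul_distrib]
    refine Finset.prod_congr rfl fun k _ => ?_
    linear_combination (tau (fun r : ℝ => r) r * tau (fun r : ℝ => r) r * gx z k * gx z k) * e5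
  have hT : ∏ k ∈ Y.toFinset, (tau (fun r : ℝ => r) r * ex 1 (hh - z' q) * gx z k) ≠ 0 :=
    Finset.prod_ne_zero_iff.2 fun k _ => mul_ne_zero (mul_ne_zero (tau_ne _ r) (ex_ne _ _)) (gx_ne z k)
  have hρ : rho (tau (fun r : ℝ => r) r) (gx z) Y.toFinset ≠ 0 := rho_ne (tau_ne _ r) (gx_ne z) _
  have ht := tau_ne (fun r : ℝ => r) r
  have hE := ex_ne 1 (hh - z' q)
  rw [key, e1, e2, rho_insert _ _ hp', rho_insert _ _ hqY, rho_insert _ _ hqY, Finset.prod_insert hqY,
    e3, e7, LinearMap.smul_comp, smul_smul, smul_smul]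
  congr 1
  rw [show rho (tau (fun r : ℝ => r) r) (gx z) Y.toFinset *
      (∏ k ∈ Y.toFinset, (tau (fun r : ℝ => r) r * gx z q * gx z k)) *
      ((tau (fun r : ℝ => r) r * gx z p * gx z q) *
        ∏ k ∈ Y.toFinset, (tau (fun r : ℝ => r) r * gx z p * gx z k)) =
      rho (tau (fun r : ℝ => r) r) (gx z) Y.toFinset * (tau (fun r : ℝ => r) r * (gx z q * gx z p)) *
      ((∏ k ∈ Y.toFinset, (tau (fun r : ℝ => r) r * gx z q * gx z k)) *
        ∏ k ∈ Y.toFinset, (tau (fun r : ℝ => r) r * gx z p * gx z k)) by ring, e8, e5]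
  have e9 : zb z' r q = z' q + r * I := rfl
  rw [e9]
  generalize (∏ k ∈ Y.toFinset, (tau (fun r : ℝ => r) r * ex 1 (hh - z' q) * gx z k)) = T at hT
  generalize rho (tau (fun r : ℝ => r) r) (gx z) Y.toFinset = R at hρ
  generalize fuf (z' q + r * I) (zb z r) Y.toFinset = G
  generalize tau (fun r : ℝ => r) r = t at ht
  field_simp

end lim

end Pool.Agent.NUU
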