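import Pool.Agent.NUU.Disc

/-!
# The relations of the disc functional (helper36)

(U1) support, (U2) exchange, (U3) the recursion, (U4) the node, (U5) fusion; all generic rapidities.
-/

set_option autoImplicit false

namespace Pool.Agent.NUU

open _root_.Pool.Agent.EXL _root_.Pool.Agent.EXL.Pat Filter Topology
open _root_.Pool.Agent.EXL.Fm (lam)
open _root_.Pool.Agent.NUF
open Complex (I exp sin cos)

variable {α : Type*} [DecidableEq α] {z z' : α → ℂ} {X Y : List α} {p q b c : α}

theorem id_top : Tendsto (fun r : ℝ => r) atTop atTop := tendsto_id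

/-- the shifted rapidities -/
noncomputable abbrev zb (z : α → ℂ) (r : ℝ) : α → ℂ := fun i => z i + r * I

omit [DecidableEq α] in
theorem zb_sub (z : α → ℂ) (r : ℝ) (i j : α) : zb z r i - zb z r j = z i - z j := by
  simp [zb]

theorem oE_zb (z : α → ℂ) (r : ℝ) (X : List α) (i : α) : oE uops (zb z r) X i = oE uops z X i := by
  unfold oE
  have key : ∀ L : List α, uops.M (zb z r) i (zb z r i) L = uops.M z i (z i) L := by
    intro L
    induction L with
    | nil => rfl
    | cons s L ih => rw [Glob.Ops.M_cons, Glob.Ops.M_cons, zb_sub, ih]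
  exact key _

omit [DecidableEq α] in
theorem Gz.zb (h : Gz z X) (r : ℝ) : Gz (zb z r) X := h.shift _

omit [DecidableEq α] in
theorem ux_zb (z : α → ℂ) (r : ℝ) (k : α) : ux (zb z r) k = ux z k - 1 * (r * I) := by
  unfold ux zb
  ring

section rel

variable [Finite α]

theorem PH_lim' (z : α → ℂ) (hn : X.Nodup) : LmF atTop
    (fun r : ℝ => (rho (tau (fun r : ℝ => r) r) (gx z) X.toFinset)⁻¹ • PH (zb z r) X) (UD z X) :=
  PH_lim id_top z hn

/-- **(U1)** Support. -/
theorem UD_sup (hn : X.Nodup) (hb : b ∉ X) (hc : c ∉ X) (hbc : b ≠ c) (hG : Gz z X) :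
    Sup X (UD z X) := by
  intro F hF
  refine tendsto_nhds_unique (PH_lim' z hn F) ?_
  refine tendsto_const_nhds.congr fun r => ?_
  rw [LinearMap.smul_apply, PH_sup hn hb hc hbc (hG.zb r) F hF, smul_zero]

/-- **(U2)** Exchange. -/
theorem UD_exch {A B : List α} {j k : α} (hn : (A ++ j :: k :: B).Nodup) (hb : b ∉ A ++ j :: k :: B)
    (hc : c ∉ A ++ j :: k :: B) (hbc : b ≠ c) (hG : Gz z (A ++ j :: k :: B)) :
    UD z (A ++ j :: k :: B) ∘ₗ uops.R j k (z j - z k) = UD z (A ++ k :: j :: B) := by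
  have hp : (A ++ j :: k :: B).Perm (A ++ k :: j :: B) :=
    List.Perm.append_left _ (List.Perm.swap _ _ _)
  have hn' := hp.nodup_iff.1 hn
  have h3 : (A ++ j :: k :: B).toFinset = (A ++ k :: j :: B).toFinset := by
    ext x
    rw [List.mem_toFinset, List.mem_toFinset, hp.mem_iff]
  have h1 := (PH_lim' z hn).comp (LmE.const (uops.R j k (z j - z k)))
  have h2 := PH_lim' z hn'
  refine h1.unique (h2.congr fun r => ?_)
  rw [LinearMap.smul_comp, ← zb_sub z r j k, PH_exch hn hb hc hbc (hG.zb r), h3]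

/-- **(U4)** The node: `p` and `i` are the two lowest lines. -/
theorem UD_cross {i : α} (hn : (p :: i :: Y).Nodup) (hb : b ∉ Y) (hc : c ∉ Y) (hbc : b ≠ c)
    (hG : Gz z (i :: Y)) (hz : z p = z i - 3 * lam) :
    UD z (p :: i :: Y) = (Fr.c3 * ∏ k ∈ Y.toFinset, Fm.Dn (z i - z k)) •
      (UD z Y ∘ₗ uops.U p i) := by
  have hn1 := List.nodup_cons.1 hn
  have hn2 := List.nodup_cons.1 hn1.2
  have hpi : p ≠ i := fun e => hn1.1 (by simp [e])
  have hp : p ∉ Y := fun e => hn1.1 (by simp [e])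
  have hi := hn2.1
  have hS := UD_sup hn2.2 hb hc hbc (hG.sub fun x hx => List.mem_cons_of_mem _ hx)
  have h0 : s3 (z p - z i) = 0 := by
    unfold s3
    rw [hz, show z i - 3 * lam - z i + 3 * lam = 0 by ring, Complex.sin_zero]
  have hiY : i ∉ Y.toFinset := by rwa [List.mem_toFinset]
  have hX : (i :: Y).toFinset = insert i Y.toFinset := List.toFinset_cons
  have eV : UD z Y ∘ₗ uops.U p i = UD z Y + UD z Y ∘ₗ opCu ℂ p i := by
    refine LinearMap.ext fun F => ?_
    rw [LinearMap.comp_apply, LinearMap.add_apply, LinearMap.comp_apply, ← map_add]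
    apply hS.congr
    intro q hq
    have h1 : q p = p := ax_out hq hp
    have h2 : q i = i := ax_out hq hi
    rw [uops_U_apply hpi, EXL.U, if_pos h1, if_pos h2, Pi.add_apply, opCu_apply, if_pos ⟨h1, h2⟩]
  have e1 : ∏ k ∈ insert i Y.toFinset, (-I * e3 * s3 (z p - z k)) = 0 := by
    rw [Finset.prod_insert hiY, h0, mul_zero, zero_mul]
  have e2 : ∏ k ∈ Y.toFinset, pd z p i k = ∏ k ∈ Y.toFinset, Fm.Dn (z i - z k) := by
    refine Finset.prod_congr rfl fun k hk => ?_
    have hik : i ≠ k := fun e => hiY (e ▸ hk)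
    have hs := hG.s i (by simp) k (by simp [List.mem_toFinset.1 hk]) hik
    unfold pd s3
    rw [hz, show z i - 3 * lam - z k + 3 * lam = z i - z k by ring, mul_div_assoc, div_self hs,
      mul_one]
  have e3 : exp (I * (z p - z i + 3 * lam)) = 1 := by
    rw [hz, show z i - 3 * lam - z i + 3 * lam = 0 by ring, mul_zero, Complex.exp_zero]
  rw [UD_cons, hX, e1, zero_smul, zero_add, Finset.sum_insert hiY, Finset.erase_insert hiY,
    List.erase_cons_head, oE_head, eV, mul_one, e2, e3, mul_one, Finset.sum_eq_zero]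
  · rw [add_zero]
    refine LinearMap.ext fun F => ?_
    simp only [LinearMap.smul_apply, LinearMap.comp_apply, jn,
      LinearMap.add_apply, map_add, map_smul, Module.End.one_apply, smul_eq_mul]
    ring
  · intro k hk
    have hki : i ≠ k := fun e => hiY (e ▸ hk)
    have e4 : ∏ m ∈ (insert i Y.toFinset).erase k, pd z p k m = 0 := by
      refine Finset.prod_eq_zero (i := i) (Finset.mem_erase.2 ⟨hki, Finset.mem_insert_self _ _⟩) ?_
      unfold pd
      rw [h0, mul_zero, zero_div]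
    rw [e4]
    refine LinearMap.ext fun F => ?_
    simp [jn]

end rel

/-! ### The recursion -/

section lim

variable {β : Type*} {l : Filter β} {f : β → ℝ}

/-- `i e^{-3iλ} Dn / sin` -/
noncomputable def pt (z : α → ℂ) (i k : α) : ℂ := I * e3⁻¹ * (Fm.Dn (z i - z k) / sin (z i - z k))

omit [DecidableEq α] in
theorem prT_lim (hf : Tendsto f l atTop) (z : α → ℂ) (i k : α) :
    Tendsto (fun b => Fr.pr (ux (zb z (f b)) k) (ux (zb z (f b)) i) /
      (tau f b * gx z i * gx z k)) l (𝓝 (pt z i k)) := by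
  have h := (pr_lim2 hf (ux z k) (ux z i)).mul_const
    ((2 * ex 1 (-(3 * lam)) * gx z i * gx z k)⁻¹)
  have e : -2 * I * ex 1 (ux z k + ux z i + 2 * lam) * (Fm.Dn (ux z k - ux z i) / sin (ux z k - ux z i)) *
      (2 * ex 1 (-(3 * lam)) * gx z i * gx z k)⁻¹ = pt z i k := by
    have hne : 2 * ex 1 (-(3 * lam)) * gx z i * gx z k ≠ 0 :=
      mul_ne_zero (mul_ne_zero (mul_ne_zero two_ne_zero (ex_ne _ _)) (gx_ne _ _)) (gx_ne _ _)
    have e2 : ux z k - ux z i = z i - z k := by
      unfold ux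
      ring
    rw [e2]
    unfold pt
    have e4 : -2 * I * ex 1 (ux z k + ux z i + 2 * lam) =
        2 * ex 1 (-(3 * lam)) * gx z i * gx z k * (I * e3⁻¹) := by
      have h8 := ex8
      unfold gx e3
      simp only [ex1]
      have h2 : exp (I * (ux z k + ux z i + 2 * lam)) =
          exp (I * (8 * lam)) * (exp (I * -(3 * lam)) * exp (I * ux z i) * exp (I * ux z k) *
            (exp (I * (3 * lam)))⁻¹) := by
        rw [← Complex.exp_neg]
        simp only [← Complex.exp_add]
        congr 1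
        ring
      rw [h2, h8]
      ring
    rw [e4]
    generalize 2 * ex 1 (-(3 * lam)) * gx z i * gx z k = N at hne
    calc N * (I * e3⁻¹) * (Fm.Dn (z i - z k) / sin (z i - z k)) * N⁻¹ =
        (N * N⁻¹) * (I * e3⁻¹ * (Fm.Dn (z i - z k) / sin (z i - z k))) := by ring
      _ = _ := by rw [mul_inv_cancel₀ hne, one_mul]
  rw [e] at h
  refine h.congr fun b => ?_
  rw [ux_zb, ux_zb]
  have ht := TT_ne (f b)
  have h1 := ex_ne 1 (-(3 * lam))
  have h2 := gx_ne z i
  have h3 := gx_ne z k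
  unfold tau
  field_simp

variable [Finite α]

/-- **(U3)** The recursion of the disc. -/
theorem UD_rec (hn : X.Nodup) (hb : b ∉ X) (hc : c ∉ X) (hbc : b ≠ c) (hG : Gz z X) :
    (exp (I * (2 * lam)) ^ X.length - 1) • UD z X = (-(2 * Fr.c3 * e3⁻¹)) • ∑ i ∈ X.toFinset,
      (∏ k ∈ X.toFinset.erase i, pt z i k) • (UD z (X.erase i) ∘ₗ oE uops z X i) := by
  have hcard : X.toFinset.card = X.length := List.toFinset_card_of_nodup hn
  set n := X.length with hnn
  set f : ℝ → ℝ := fun r => r with hf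
  have hft : Tendsto f atTop atTop := id_top
  have hI : (2 : ℂ) * I ≠ 0 := mul_ne_zero two_ne_zero Complex.I_ne_zero
  -- the scalars
  have a1 : Tendsto (fun r : ℝ => (∏ k ∈ X.toFinset, Fr.fb (ux (zb z (f r)) k)) / exp (f r) ^ n) atTop
      (𝓝 (∏ k ∈ X.toFinset, (1 * ex 1 (2 * lam + ux z k) / (2 * I)))) := by
    refine (tendsto_finsetProd X.toFinset fun k _ =>
      sin_lim hft (σ := 1) (Or.inl rfl) (2 * lam + ux z k)).congr fun r => ?_
    rw [Finset.prod_div_distrib, Finset.prod_const, hcard]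
    congr 1
    refine Finset.prod_congr rfl fun k _ => ?_
    unfold Fr.fb
    rw [ux_zb]
    congr 1
    ring
  have a2 : Tendsto (fun r : ℝ => (∏ k ∈ X.toFinset, Fr.fa (ux (zb z (f r)) k)) / exp (f r) ^ n) atTop
      (𝓝 (∏ k ∈ X.toFinset, (1 * ex 1 (ux z k) / (2 * I)))) := by
    refine (tendsto_finsetProd X.toFinset fun k _ =>
      fa_lim hft (σ := 1) (Or.inl rfl) (ux z k)).congr fun r => ?_
    rw [Finset.prod_div_distrib, Finset.prod_const, hcard]
    congr 1
    refine Finset.prod_congr rfl fun k _ => ?_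
    rw [ux_zb]
  have a3 : ∀ i ∈ X.toFinset, Tendsto (fun r : ℝ =>
      (Fr.wt (ux (zb z (f r))) i (X.toFinset.erase i) *
        ∏ k ∈ X.toFinset.erase i, Fr.fa (ux (zb z (f r)) k)) /
        (exp (f r) ^ n * ∏ k ∈ X.toFinset.erase i, (tau f r * gx z i * gx z k))) atTop
      (𝓝 (4 * Fr.c3 * (-(1 * ex 1 (ux z i - 3 * lam) / (2 * I))) *
        (∏ k ∈ X.toFinset.erase i, pt z i k) *
        ∏ k ∈ X.toFinset.erase i, (1 * ex 1 (ux z k) / (2 * I)))) := by
    intro i hi
    have hc1 : (X.toFinset.erase i).card + 1 = n := by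
      rw [← hcard]
      exact Finset.card_erase_add_one hi
    refine ((((fa'_lim hft (σ := 1) (Or.inl rfl) (ux z i)).const_mul (4 * Fr.c3)).mul
      (tendsto_finsetProd (X.toFinset.erase i) fun k _ => prT_lim hft z i k)).mul
      (tendsto_finsetProd (X.toFinset.erase i) fun k _ =>
        fa_lim hft (σ := 1) (Or.inl rfl) (ux z k))).congr fun r => ?_
    rw [Finset.prod_div_distrib, Finset.prod_div_distrib, Finset.prod_const, ← hc1, pow_succ]
    unfold Fr.wt
    simp only [ux_zb]
    have h1 := Complex.exp_ne_zero (f r : ℂ)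
    have h2 : ∏ k ∈ X.toFinset.erase i, (tau f r * gx z i * gx z k) ≠ 0 :=
      Finset.prod_ne_zero_iff.2 fun k _ => mul_ne_zero (mul_ne_zero (tau_ne f r) (gx_ne z i))
        (gx_ne z k)
    generalize (∏ k ∈ X.toFinset.erase i, (tau f r * gx z i * gx z k)) = T at *
    field_simp
  -- the limits of the functionals
  have L1 := LmF.smul ((a1.sub a2).const_mul 2) (PH_lim hft z hn)
  have L2 := LmF.sum X.toFinset fun i hi => LmF.smul (a3 i hi)
    ((PH_lim hft z (hn.erase i)).comp (LmE.const (oE uops z X i)))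
  have key := L1.unique (L2.congr fun r => ?_)
  · -- simplification
    set Q : ℂ := ∏ k ∈ X.toFinset, (1 * ex 1 (ux z k) / (2 * I)) with hQ
    have hQ0 : Q ≠ 0 := Finset.prod_ne_zero_iff.2 fun k _ =>
      div_ne_zero (mul_ne_zero one_ne_zero (ex_ne _ _)) hI
    have q1 : ∏ k ∈ X.toFinset, (1 * ex 1 (2 * lam + ux z k) / (2 * I)) =
        exp (I * (2 * lam)) ^ n * Q := by
      rw [hQ, ← hcard, ← Finset.prod_const, ← Finset.prod_mul_distrib]
      refine Finset.prod_congr rfl fun k _ => ?_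
      rw [ex_add, ex1]
      ring
    have q2 : ∀ i ∈ X.toFinset, 4 * Fr.c3 * (-(1 * ex 1 (ux z i - 3 * lam) / (2 * I))) *
        (∏ k ∈ X.toFinset.erase i, pt z i k) *
        ∏ k ∈ X.toFinset.erase i, (1 * ex 1 (ux z k) / (2 * I)) =
          2 * Q * ((-(2 * Fr.c3 * e3⁻¹)) * ∏ k ∈ X.toFinset.erase i, pt z i k) := by
      intro i hi
      have h1 : Q = 1 * ex 1 (ux z i) / (2 * I) *
          ∏ k ∈ X.toFinset.erase i, (1 * ex 1 (ux z k) / (2 * I)) := by
        exact (Finset.mul_prod_erase X.toFinset (fun k => 1 * ex 1 (ux z k) / (2 * I)) hi).symm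
      have h2 : ex 1 (ux z i - 3 * lam) = ex 1 (ux z i) * e3⁻¹ := by
        rw [ex1, ex1, e3, ← Complex.exp_neg, ← Complex.exp_add]
        congr 1
        ring
      rw [h1, h2]
      ring
    have q3 : (2 * (exp (I * (2 * lam)) ^ n * Q - Q)) • UD z X = (2 * Q) •
        ((-(2 * Fr.c3 * e3⁻¹)) • ∑ i ∈ X.toFinset,
          (∏ k ∈ X.toFinset.erase i, pt z i k) • (UD z (X.erase i) ∘ₗ oE uops z X i)) := by
      rw [← q1, key, Finset.smul_sum, Finset.smul_sum]
      refine Finset.sum_congr rfl fun i hi => ?_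
      rw [q2 i hi, smul_smul, smul_smul, mul_assoc (2 * Q)]
    have q4 : (2 * (exp (I * (2 * lam)) ^ n * Q - Q)) • UD z X = (2 * Q) •
        ((exp (I * (2 * lam)) ^ n - 1) • UD z X) := by
      rw [smul_smul]
      congr 1
      ring
    rw [q4] at q3
    have h2Q : 2 * Q ≠ 0 := mul_ne_zero two_ne_zero hQ0
    exact smul_right_injective _ h2Q q3
  · have hrec := PH_rec hn hb hc hbc (hG.zb (f r))
    have h1 := Complex.exp_ne_zero (f r : ℂ)
    have hr0 : rho (tau f r) (gx z) X.toFinset ≠ 0 := rho_ne (tau_ne f r) (gx_ne z) _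
    have e1 : (2 * ((∏ k ∈ X.toFinset, Fr.fb (ux (zb z (f r)) k)) / exp (f r) ^ n -
        (∏ k ∈ X.toFinset, Fr.fa (ux (zb z (f r)) k)) / exp (f r) ^ n)) •
          ((rho (tau f r) (gx z) X.toFinset)⁻¹ • PH (zb z (f r)) X) =
        ((exp (f r) ^ n)⁻¹ * (rho (tau f r) (gx z) X.toFinset)⁻¹) •
          ((2 * (∏ k ∈ X.toFinset, Fr.fb (ux (zb z (f r)) k) -
            ∏ k ∈ X.toFinset, Fr.fa (ux (zb z (f r)) k))) • PH (zb z (f r)) X) := by
      rw [smul_smul, smul_smul]
      congr 1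
      field_simp
    rw [e1, hrec, Finset.smul_sum]
    refine Finset.sum_congr rfl fun i hi => ?_
    have hiX := List.mem_toFinset.1 hi
    have e2 : rho (tau f r) (gx z) X.toFinset = rho (tau f r) (gx z) (X.toFinset.erase i) *
        ∏ k ∈ X.toFinset.erase i, (tau f r * gx z i * gx z k) := by
      rw [← rho_insert _ _ (Finset.notMem_erase i _), Finset.insert_erase hi]
    have e3' : oE uops (zb z (f r)) X i = oE uops z X i := oE_zb z (f r) X i
    have h3 : rho (tau f r) (gx z) (X.toFinset.erase i) ≠ 0 := rho_ne (tau_ne f r) (gx_ne z) _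
    have h4 : ∏ k ∈ X.toFinset.erase i, (tau f r * gx z i * gx z k) ≠ 0 :=
      Finset.prod_ne_zero_iff.2 fun k _ => mul_ne_zero (mul_ne_zero (tau_ne f r) (gx_ne z i))
        (gx_ne z k)
    rw [e3', erase_toF hn, LinearMap.smul_comp, smul_smul, smul_smul, e2]
    congr 1
    generalize (∏ k ∈ X.toFinset.erase i, (tau f r * gx z i * gx z k)) = T at *
    generalize rho (tau f r) (gx z) (X.toFinset.erase i) = R at *
    field_simp

end lim

end Pool.Agent.NUU
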