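import Pool.Agent.NUU.Rel
import Pool.Agent.NUF.PRels

/-!
# The half strip at the crossing and at the fusion point (helper36)
-/

set_option autoImplicit false

namespace Pool.Agent.NUU

open _root_.Pool.Agent.EXL _root_.Pool.Agent.EXL.Pat Filter Topology
open _root_.Pool.Agent.EXL.Fm (lam)
open _root_.Pool.Agent.NUF

variable {α : Type*} [DecidableEq α] {z z' : α → ℂ} {X Y : List α} {p q b c : α}

theorem PH_cons : PH z (p :: X) = Fr.Dl (ux z) (ux z p) X.toFinset • PH z X +
    ∑ i ∈ X.toFinset, (PH z (X.erase i) ∘ₗ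
      (jn p i (Fr.wt (ux z) i (X.toFinset.erase i) * Fr.Dl (ux z) (ux z p) (X.toFinset.erase i) *
        Fr.fe (ux z i)) (Fr.wt (ux z) i (X.toFinset.erase i) *
        Fr.Dl (ux z) (ux z p) (X.toFinset.erase i) * Fr.fa (ux z p)) * oE uops z X i)) := by
  unfold PH
  rw [RL_cons]
  rfl

/-- The bottom line has no poles. -/
theorem PH_dt1 [Finite α] {zs : ℂ → α → ℂ} {t : ℂ} (hn : X.Nodup)
    (hp : DifferentiableAt ℂ (fun s => zs s p) t)
    (hz : ∀ x ∈ X, DifferentiableAt ℂ (fun s => zs s x) t) (hG : Gz (zs t) X) :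
    DtF (fun s => PH (zs s) (p :: X)) t := by
  have hx : ∀ x ∈ X.toFinset, DifferentiableAt ℂ (fun s => ux (zs s) x) t := fun x hx => by
    unfold ux
    exact (hz x (List.mem_toFinset.1 hx)).const_sub _
  have hxp : DifferentiableAt ℂ (fun s => ux (zs s) p) t := by
    unfold ux
    exact hp.const_sub _
  have hDl : ∀ Y ⊆ X.toFinset,
      DifferentiableAt ℂ (fun s => Fr.Dl (ux (zs s)) (ux (zs s) p) Y) t := by
    intro Y hY
    unfold Fr.Dl
    exact DifferentiableAt.fun_finsetProd fun k hk => dt_dl hxp (hx k (hY hk))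
  simp only [PH_cons]
  refine (DtF.smul (hDl _ (Finset.Subset.refl _)) (PH_dt hn hz hG)).add (DtF.sum _ fun i hi => ?_)
  have hi' := List.mem_toFinset.1 hi
  have hwt : DifferentiableAt ℂ (fun s => Fr.wt (ux (zs s)) i (X.toFinset.erase i)) t := by
    unfold Fr.wt
    refine ((dt_fa' (hx i hi)).const_mul _).mul (DifferentiableAt.fun_finsetProd fun k hk => ?_)
    have hk' := Finset.mem_erase.1 hk
    refine dt_pr (hx k hk'.2) (hx i hi) ?_
    have := hG.s i hi' k (List.mem_toFinset.1 hk'.2) hk'.1.symm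
    unfold ux
    rwa [sub_sub_sub_cancel_left]
  have hD2 := hDl (X.toFinset.erase i) (Finset.erase_subset _ _)
  refine DtF.comp (PH_dt (hn.erase i) (fun x hx => hz x (List.mem_of_mem_erase hx))
    (hG.sub fun x hx => List.mem_of_mem_erase hx)) (DtE.mul (dt_jn ((hwt.mul hD2).mul (dt_fe (hx i hi)))
      ((hwt.mul hD2).mul (dt_fa hxp))) ?_)
  unfold oE
  refine dt_M fun r hr => ?_
  obtain ⟨k1, k2⟩ := below_subset r hr
  exact dt_R k2.symm ((hz i hi').sub (hz r k1)) (hG.d i hi' r k1 k2.symm)

variable [Finite α]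

/-- One more line below good lines. -/
theorem PH_far (hG : Good z X) (hb : b ∉ X) (hc : c ∉ X) (hbc : b ≠ c) :
    PH z (p :: X) = far z p (ux z p) X := by
  rw [PH_cons, PH_good hbc _ X rfl hG hb hc]
  unfold far farE farC
  rw [add_assoc, Finset.smul_sum, ← Finset.sum_add_distrib]
  congr 1
  · rw [smul_smul]
  · apply Finset.sum_congr rfl
    intro i hi
    rw [PH_good hbc _ (X.erase i) rfl (hG.sub List.erase_sublist)
      (fun h => hb (List.mem_of_mem_erase h)) (fun h => hc (List.mem_of_mem_erase h)), erase_toF hG.nd]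
    refine LinearMap.ext fun F => ?_
    simp only [LinearMap.smul_apply, LinearMap.comp_apply, Module.End.mul_apply, jn,
      LinearMap.add_apply, map_add, map_smul, Module.End.one_apply, smul_eq_mul]
    ring

/-- **(S4) Crossing**, `p` and `i` are the two lowest lines. -/
theorem PH_cross {i : α} (hn : (p :: i :: Y).Nodup) (hS : Sup Y (PH z Y))
    (hz : z p = z i - 3 * lam) :
    PH z (p :: i :: Y) = (Fr.wt (ux z) i Y.toFinset * Fr.Dl (ux z) (ux z p) Y.toFinset *
      Fr.fe (ux z i)) • (PH z Y ∘ₗ uops.U p i) := by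
  have hn1 := List.nodup_cons.1 hn
  have hn2 := List.nodup_cons.1 hn1.2
  have hpi : p ≠ i := fun e => hn1.1 (by simp [e])
  have hp : p ∉ Y := fun e => hn1.1 (by simp [e])
  have hi := hn2.1
  have hu : ux z p = ux z i + 3 * lam := by
    unfold ux
    rw [hz]
    ring
  have h0 : Fr.dl (ux z p) (ux z i) = 0 := by
    unfold Fr.dl Fr.fa Fr.fa' Fr.fe
    rw [hu, show 3 * lam - (ux z i + 3 * lam) = -(ux z i) by ring, Complex.sin_neg,
      add_comm (3 * lam) (ux z i)]
    ring
  have hfa : Fr.fa (ux z p) = Fr.fe (ux z i) := by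
    unfold Fr.fa Fr.fe
    rw [hu, add_comm]
  have hiY : i ∉ Y.toFinset := by rwa [List.mem_toFinset]
  have hX : (i :: Y).toFinset = insert i Y.toFinset := List.toFinset_cons
  have e0 : Fr.Dl (ux z) (ux z p) (insert i Y.toFinset) = 0 := by
    unfold Fr.Dl
    rw [Finset.prod_insert hiY, h0, zero_mul]
  have ek : ∀ k ∈ Y.toFinset, Fr.Dl (ux z) (ux z p) ((insert i Y.toFinset).erase k) = 0 := by
    intro k hk
    have hki : i ≠ k := fun e => hiY (e ▸ hk)
    unfold Fr.Dl
    rw [Finset.prod_eq_zero (i := i) _ h0]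
    exact Finset.mem_erase.2 ⟨hki, Finset.mem_insert_self _ _⟩
  have eV : PH z Y ∘ₗ uops.U p i = PH z Y + PH z Y ∘ₗ opCu ℂ p i := by
    refine LinearMap.ext fun F => ?_
    rw [LinearMap.comp_apply, LinearMap.add_apply, LinearMap.comp_apply, ← map_add]
    apply hS.congr
    intro q hq
    have h1 : q p = p := ax_out hq hp
    have h2 : q i = i := ax_out hq hi
    rw [uops_U_apply hpi, EXL.U, if_pos h1, if_pos h2, Pi.add_apply, opCu_apply, if_pos ⟨h1, h2⟩]
  rw [PH_cons, hX, e0, zero_smul, zero_add, Finset.sum_insert hiY, Finset.erase_insert hiY,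
    List.erase_cons_head, oE_head, eV, hfa, mul_one, Finset.sum_eq_zero]
  · rw [add_zero]
    refine LinearMap.ext fun F => ?_
    simp only [LinearMap.smul_apply, LinearMap.comp_apply, jn,
      LinearMap.add_apply, map_add, map_smul, Module.End.one_apply, smul_eq_mul]
    ring
  · intro k hk
    rw [ek k hk]
    refine LinearMap.ext fun F => ?_
    simp [jn]

/-! ### The singular exchange -/

theorem PH_N (hn : (p :: q :: Y).Nodup) (hb : b ∉ p :: q :: Y) (hc : c ∉ p :: q :: Y) (hbc : b ≠ c)
    (hz : z p = z q - 2 * lam) (h1 : Gz z (q :: Y)) (h2 : Gz z (p :: Y)) (G : Pat α → ℂ) :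
    PH z (p :: q :: Y) (Fm.R6 (Fm.Dn (-(2 * lam))) (Fm.Wn (-(2 * lam))) q p G) = 0 := by
  have hn1 := List.nodup_cons.1 hn
  have hn2 := List.nodup_cons.1 hn1.2
  have hpq : p ≠ q := fun e => hn1.1 (by simp [e])
  have hpY : p ∉ Y := fun e => hn1.1 (by simp [e])
  set zs : ℂ → α → ℂ := fun s => Function.update z p (z q - 2 * lam + s) with hzs
  have e0 : zs 0 = z := by
    rw [hzs]
    simp only [add_zero]
    rw [← hz]
    exact Function.update_eq_self p z
  have ep : ∀ s, zs s p = z q - 2 * lam + s := fun s => by rw [hzs]; simp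
  have ex : ∀ s, ∀ x, x ≠ p → zs s x = z x := fun s x hx => by
    rw [hzs]
    simp [hx]
  have dz : ∀ x, DifferentiableAt ℂ (fun s => zs s x) 0 := fun x => by
    by_cases hx : x = p
    · subst hx
      simp only [ep]
      fun_prop
    · simp only [ex _ x hx]
      exact differentiableAt_const _
  have d1 : DtF (fun s => PH (zs s) (p :: q :: Y)) 0 :=
    PH_dt1 hn1.2 (dz p) (fun x _ => dz x) (by rw [e0]; exact h1)
  have d2 : DtF (fun s => PH (zs s) (q :: p :: Y)) 0 :=
    PH_dt1 (List.nodup_cons.2 ⟨hpY, hn2.2⟩) (dz q) (fun x _ => dz x) (by rw [e0]; exact h2)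
  set u : ℂ → ℂ := fun s => -(2 * lam) + s with hu
  -- the generic points
  have hgen : ∀ᶠ s in 𝓝[≠] (0 : ℂ), Gz (zs s) (p :: q :: Y) ∧ Fm.Dn (u s) ≠ 0 := by
    have a1 : ∀ᶠ s in 𝓝 (0 : ℂ), gzP (zs s) (p :: Y) ≠ 0 := by
      have hcont : ContinuousAt (fun s => gzP (zs s) (p :: Y)) 0 := by
        unfold gzP
        refine tendsto_finsetProd _ fun x _ => ?_
        by_cases e : x.1 = x.2
        · simp only [if_pos e]
          exact tendsto_const_nhds
        · simp only [if_neg e, Fm.Dn]
          have c1 := (dz x.1).continuousAt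
          have c2 := (dz x.2).continuousAt
          exact ((Complex.continuous_sin.continuousAt.comp (c1.sub c2))).mul
            ((Complex.continuous_sin.continuousAt.comp (continuousAt_const.add (c1.sub c2))).mul
            (Complex.continuous_sin.continuousAt.comp (continuousAt_const.add (c1.sub c2))))
      refine hcont.eventually_ne ?_
      rw [e0]
      exact gzP_ne.2 h2
    have a2 : ∀ᶠ s in 𝓝[≠] (0 : ℂ), Complex.sin s ≠ 0 := by
      have : AnalyticAt ℂ Complex.sin 0 := Complex.differentiable_sin.analyticAt 0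
      rcases this.eventually_eq_zero_or_eventually_ne_zero with h | h
      · exfalso
        have h' : Complex.sin =ᶠ[𝓝 0] fun _ => 0 := h
        have := h'.deriv_eq
        rw [Complex.deriv_sin, deriv_const, Complex.cos_zero] at this
        exact one_ne_zero this
      · exact h
    have nz : ∀ f : ℂ → ℂ, Continuous f → f 0 ≠ 0 → ∀ᶠ s in 𝓝 (0 : ℂ), f s ≠ 0 := fun f hf h =>
      hf.continuousAt.eventually_ne h
    have a3 := nz (fun s => Complex.sin (u s)) (by rw [hu]; fun_prop) (by
      rw [hu]
      exact sin_tl_ne' (t := -2) (by norm_num) (by norm_num) (by push_cast; ring))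
    have a4 := nz (fun s => Complex.sin (3 * lam + u s)) (by rw [hu]; fun_prop) (by
      rw [hu]
      exact sin_tl_ne (t := 1) (by norm_num) (by norm_num) (by push_cast; ring))
    have a5 := nz (fun s => Complex.sin (2 * lam - u s)) (by rw [hu]; fun_prop) (by
      rw [hu]
      exact sin_tl_ne (t := 4) (by norm_num) (by norm_num) (by push_cast; ring))
    have a6 := nz (fun s => Complex.sin (3 * lam - u s)) (by rw [hu]; fun_prop) (by
      rw [hu]
      exact sin_tl_ne (t := 5) (by norm_num) (by norm_num) (by push_cast; ring))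
    filter_upwards [eventually_nhdsWithin_of_eventually_nhds a1, a2,
      eventually_nhdsWithin_of_eventually_nhds a3, eventually_nhdsWithin_of_eventually_nhds a4,
      eventually_nhdsWithin_of_eventually_nhds a5, eventually_nhdsWithin_of_eventually_nhds a6] with
      s b1 b2 b3 b4 b5 b6
    have hpq1 : zs s p - zs s q = u s := by
      rw [ep, ex s q hpq.symm, hu]
      ring
    have hqp1 : zs s q - zs s p = -u s := by rw [← hpq1]; ring
    have hD : Fm.Dn (u s) ≠ 0 := by
      unfold Fm.Dn
      refine mul_ne_zero ?_ b4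
      rw [hu, show 2 * lam + (-(2 * lam) + s) = s by ring]
      exact b2
    have hGp := gzP_ne.1 b1
    have hGq : Gz (zs s) (q :: Y) := h1.congr fun x hx => by
      rw [ex s x]
      rintro rfl
      exact hn1.1 hx
    refine ⟨⟨?_, ?_⟩, hD⟩
    · intro i hi j hj hij
      have key : ∀ x, x ∈ p :: q :: Y → x = p ∨ x = q ∨ x ∈ Y := fun x hx => by simpa using hx
      rcases key i hi with rfl | rfl | hi'
      · rcases key j hj with rfl | rfl | hj'
        · exact absurd rfl hij
        · rw [hpq1]; exact b3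
        · exact hGp.s _ (by simp) _ (by simp [hj']) hij
      · rcases key j hj with rfl | rfl | hj'
        · rw [hqp1, Complex.sin_neg]; exact neg_ne_zero.2 b3
        · exact absurd rfl hij
        · exact hGq.s _ (by simp) _ (by simp [hj']) hij
      · rcases key j hj with rfl | rfl | hj'
        · exact hGp.s _ (by simp [hi']) _ (by simp) hij
        · exact hGq.s _ (by simp [hi']) _ (by simp) hij
        · exact hGq.s _ (by simp [hi']) _ (by simp [hj']) hij
    · intro i hi j hj hij
      have key : ∀ x, x ∈ p :: q :: Y → x = p ∨ x = q ∨ x ∈ Y := fun x hx => by simpa using hx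
      rcases key i hi with rfl | rfl | hi'
      · rcases key j hj with rfl | rfl | hj'
        · exact absurd rfl hij
        · rw [hpq1]; exact hD
        · exact hGp.d _ (by simp) _ (by simp [hj']) hij
      · rcases key j hj with rfl | rfl | hj'
        · rw [hqp1, Fm.Dn, ← sub_eq_add_neg, ← sub_eq_add_neg]; exact mul_ne_zero b5 b6
        · exact absurd rfl hij
        · exact hGq.d _ (by simp) _ (by simp [hj']) hij
      · rcases key j hj with rfl | rfl | hj'
        · exact hGp.d _ (by simp [hi']) _ (by simp) hij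
        · exact hGq.d _ (by simp [hi']) _ (by simp) hij
        · exact hGq.d _ (by simp [hi']) _ (by simp [hj']) hij
  -- the identity at the generic points
  have hid : ∀ᶠ s in 𝓝[≠] (0 : ℂ), PH (zs s) (p :: q :: Y) (Fm.R6 (Fm.Dn (u s)) (Fm.Wn (u s)) q p G) =
      Fm.Dn (u s) * PH (zs s) (q :: p :: Y) G := by
    filter_upwards [hgen] with s hs
    have h := PH_exch (z := zs s) (A := []) (B := Y) (j := p) (k := q) hn hb hc hbc hs.1
    have hpq1 : zs s p - zs s q = u s := by
      rw [ep, ex s q hpq.symm, hu]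
      ring
    rw [hpq1] at h
    have h' := LinearMap.congr_fun h G
    rw [LinearMap.comp_apply, uops_R_apply hpq, EXL.Ins.R_symm] at h'
    have e : Fm.R6 (Fm.Dn (u s)) (Fm.Wn (u s)) q p G = Fm.Dn (u s) • EXL.R (rwt (u s)) q p G := by
      funext P
      rw [Pi.smul_apply, smul_eq_mul, ← Fm.R6_eq, Fm.rwt_eq, Fm.Wc_sc hs.2]
    rw [e, map_smul, smul_eq_mul]
    congr 1
  -- continuity
  have c1 : ContinuousAt (fun s => PH (zs s) (p :: q :: Y)
      (Fm.R6 (Fm.Dn (u s)) (Fm.Wn (u s)) q p G)) 0 := by
    refine (DtF.app d1 fun P => ?_).continuousAt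
    have w0 : DifferentiableAt ℂ (fun s => Fm.Dn (u s)) 0 := by
      rw [hu]
      unfold Fm.Dn
      fun_prop
    have w1 : DifferentiableAt ℂ (fun s => (Fm.Wn (u s)).v) 0 := by
      rw [hu]
      simp only [Fm.Wn]
      fun_prop
    have w2 : DifferentiableAt ℂ (fun s => (Fm.Wn (u s)).u1) 0 := by
      rw [hu]
      simp only [Fm.Wn]
      fun_prop
    have w3 : DifferentiableAt ℂ (fun s => (Fm.Wn (u s)).u2) 0 := by
      rw [hu]
      simp only [Fm.Wn]
      fun_prop
    have w4 : DifferentiableAt ℂ (fun s => (Fm.Wn (u s)).w1) 0 := by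
      rw [hu]
      simp only [Fm.Wn]
      fun_prop
    have w5 : DifferentiableAt ℂ (fun s => (Fm.Wn (u s)).w2) 0 := by
      rw [hu]
      simp only [Fm.Wn]
      fun_prop
    by_cases e1 : P q = q
    · by_cases e2 : P p = p
      · simp only [Fm.R6, if_pos e1, if_pos e2]
        exact (w0.mul_const _).add (w3.mul_const _)
      · simp only [Fm.R6, if_pos e1, if_neg e2]
        exact (w1.mul_const _).add (w2.mul_const _)
    · by_cases e2 : P p = p
      · simp only [Fm.R6, if_neg e1, if_pos e2]
        exact (w1.mul_const _).add (w2.mul_const _)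
      · by_cases e3 : P q = p
        · simp only [Fm.R6, if_neg e1, if_neg e2, if_pos e3]
          exact w4.mul_const _
        · simp only [Fm.R6, if_neg e1, if_neg e2, if_neg e3]
          exact ((w4.mul_const _).add (w3.mul_const _)).add (w5.mul_const _)
  have c2 : ContinuousAt (fun s => Fm.Dn (u s) * PH (zs s) (q :: p :: Y) G) 0 := by
    refine ContinuousAt.mul ?_ (d2 G).continuousAt
    rw [hu]
    unfold Fm.Dn
    fun_prop
  have key := tendsto_nhds_unique_of_eventuallyEq (c1.tendsto.mono_left nhdsWithin_le_nhds)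
    (c2.tendsto.mono_left nhdsWithin_le_nhds) hid
  rw [e0] at key
  have hu0 : u 0 = -(2 * lam) := by
    rw [hu]
    simp
  rw [hu0] at key
  rw [key]
  have : Fm.Dn (-(2 * lam)) = 0 := by
    unfold Fm.Dn
    rw [add_neg_cancel, Complex.sin_zero, zero_mul]
  rw [this, zero_mul]

end Pool.Agent.NUU
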