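import Pool.Agent.NUU.Fuse

/-!
# The half strip at the fusion point (helper36)
-/

set_option autoImplicit false

namespace Pool.Agent.NUU

open _root_.Pool.Agent.EXL _root_.Pool.Agent.EXL.Pat Filter Topology
open _root_.Pool.Agent.EXL.Fm (lam)
open _root_.Pool.Agent.NUF

variable {α : Type*} [DecidableEq α] {z z' : α → ℂ} {X Y : List α} {p q b c : α}

theorem dense_eq {f g : ℂ → ℂ} {s0 : ℂ} (hf : ContinuousAt f s0) (hg : ContinuousAt g s0) {S : Set ℂ}
    (hS : S.Countable) (h : ∀ᶠ s in 𝓝 s0, s ∉ S → f s = g s) : f s0 = g s0 := by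
  have hd : Dense Sᶜ := hS.dense_compl ℂ
  have hne : (𝓝[(Sᶜ : Set ℂ)] s0).NeBot := mem_closure_iff_nhdsWithin_neBot.1 (hd s0)
  refine tendsto_nhds_unique_of_eventuallyEq (l := 𝓝[(Sᶜ : Set ℂ)] s0)
    (hf.tendsto.mono_left nhdsWithin_le_nhds) (hg.tendsto.mono_left nhdsWithin_le_nhds) ?_
  filter_upwards [eventually_nhdsWithin_of_eventually_nhds h, self_mem_nhdsWithin] with s h1 h2
  exact h1 h2

theorem gzP_diff {zs : ℂ → α → ℂ} (h : ∀ x, Differentiable ℂ fun s => zs s x) (X : List α) :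
    Differentiable ℂ fun s => gzP (zs s) X := by
  unfold gzP
  refine Differentiable.fun_finsetProd fun x _ => ?_
  by_cases e : x.1 = x.2
  · simp only [if_pos e]
    exact differentiable_const _
  · simp only [if_neg e, Fm.Dn]
    have c1 := h x.1
    have c2 := h x.2
    exact (c1.sub c2).csin.mul ((((c1.sub c2).const_add _).csin).mul ((c1.sub c2).const_add _).csin)

theorem upd_diff {zs : ℂ → α → ℂ} {t : ℂ} (h : ∀ x, DifferentiableAt ℂ (fun s => zs s x) t) (p : α)
    {v : ℂ → ℂ} (hv : DifferentiableAt ℂ v t) (x : α) :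
    DifferentiableAt ℂ (fun s => Function.update (zs s) p (v s) x) t := by
  by_cases hx : x = p
  · subst hx
    simp only [Function.update_self]
    exact hv
  · simp only [Function.update_of_ne hx]
    exact h x

/-- the factor of the fusion -/
noncomputable def fuf (ζ : ℂ) (z : α → ℂ) (Y : Finset α) : ℂ :=
  NUMv.rt * (NUMv.cc ζ + Fr.c3) * ∏ k ∈ Y, (NUMv.cc ζ + NUMv.cc (z k))

variable [Finite α]

theorem near2 : ∀ᶠ r in 𝓝[>] (0 : ℝ), ∀ u ∈ Metric.ball z0 r,
    okR (hh - (u - 2 * lam)) ∧ okR (hh - (u - lam)) := by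
  have c1 := near_ok (Φ := fun a b => hh - (a - 2 * lam)) (by fun_prop)
    (okR_t (t := 3) (by norm_num) (by norm_num) (by unfold z0 hh lam; push_cast; ring))
  have c2 := near_ok (Φ := fun a b => hh - (a - lam)) (by fun_prop)
    (okR_t (t := 2) (by norm_num) (by norm_num) (by unfold z0 hh lam; push_cast; ring))
  filter_upwards [c1, c2] with r h1 h2 u hu
  exact ⟨h1 u hu u hu, h2 u hu u hu⟩

theorem fuse_reg {r : ℝ} (hr : NR α r) (hr2 : ∀ u ∈ Metric.ball z0 r,
    okR (hh - (u - 2 * lam)) ∧ okR (hh - (u - lam))) (hn : (p :: q :: Y).Nodup)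
    (hb : b ∉ p :: q :: Y) (hc : c ∉ p :: q :: Y) (hbc : b ≠ c)
    (hX : ∀ i ∈ q :: Y, z i ∈ Metric.ball z0 r) (hz : z p = z q - 2 * lam) (hz' : z' q = z q - lam)
    (hY : ∀ y ∈ Y, z' y = z y) (h1 : Gz z (q :: Y)) (h2 : Gz z (p :: Y)) (hR : Reg z' (q :: Y)) :
    PH z (p :: q :: Y) = fuf (z' q) z Y.toFinset • (PH z' (q :: Y) ∘ₗ uops.Y q p) := by
  have hn1 := List.nodup_cons.1 hn
  have hn2 := List.nodup_cons.1 hn1.2
  have hb1 : b ∉ q :: Y := fun h => hb (List.mem_cons_of_mem _ h)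
  have hc1 : c ∉ q :: Y := fun h => hc (List.mem_cons_of_mem _ h)
  have hb2 : b ∉ Y := fun h => hb1 (List.mem_cons_of_mem _ h)
  have hc2 : c ∉ Y := fun h => hc1 (List.mem_cons_of_mem _ h)
  have hG := good_of hr hn1.2 hX h1
  have hq := hX q (by simp)
  have hux : ux z p = hh - (z q - 2 * lam) := by
    rw [ux_hh, hz]
  have e1 : PH z (p :: q :: Y) = far z p (hh - (z q - 2 * lam)) (q :: Y) := by
    rw [PH_far hG hb1 hc1 hbc, hux]
  obtain ⟨k1, k2⟩ := side_K (w := z) (w' := z') (p := p) (q := q) (Y := Y) hG hn hb hc hbc rfl hz' hY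
    (hr2 _ hq).1 (hr.ok _ hq _ hq).hm (by rw [hz']; exact (hr2 _ hq).2) hR
    (fun G => by
      rw [← e1]
      exact PH_N hn hb hc hbc hz h1 h2 G)
  have hGY : Good z Y := hG.sub (List.sublist_cons_self q Y)
  have hGY' : Good z' Y := hGY.congr fun y hy => (hY y hy).symm
  have hD : Fm.Dn (ux z' q) ≠ 0 := by
    rw [ux_hh, hz']
    exact (EXL.Fm.okR_iff _).1 (hr2 _ hq).2
  have e2 : PH z' (q :: Y) =
      Fr.Nf (ux z') (Fr.Qs (ux z')) (ux z' q) Y.toFinset • VV z' (q :: Y) := by
    rw [PH_far hGY' hb2 hc2 hbc, far_eq hGY' hn2.1 hb1 hc1 hbc hD hR]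
  -- the scalars
  have hinj : ∀ (X : List α), (∀ i ∈ X, i ∈ q :: Y) → ∀ i ∈ X, ∀ j ∈ X, ux z i = ux z j → i = j :=
    fun X hXX i hi j hj e => by
      by_contra hij
      exact h1.ne (hXX i hi) (hXX j hj) hij (sub_right_injective e)
  have hnb : ∀ i ∈ q :: Y, ux z i ∈ Fr.nb := fun i hi => by
    have := (hr.ok _ (hX i hi) _ (hX i hi)).nm
    rwa [show (3 / 2 * lam - z i) = ux z i by unfold ux lam; ring] at this
  have s1 : Fr.Nf (ux z) (Fr.Qs (ux z)) (hh - (z q - 2 * lam)) (q :: Y).toFinset =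
      Fr.qc (NUMv.cc (z q - 2 * lam) :: NUMv.cc (z q) :: Y.map fun i => NUMv.cc (z i)) := by
    rw [← Fr.qc_far_lab hn1.2 (hinj _ fun _ h => h) hnb, cf_m]
    congr 2
    exact List.map_congr_left fun t _ => cf_m (z t)
  have s2 : Fr.Nf (ux z') (Fr.Qs (ux z')) (ux z' q) Y.toFinset =
      Fr.qc (NUMv.cc (z' q) :: Y.map fun i => NUMv.cc (z i)) := by
    have e3 : Fr.Nf (ux z') (Fr.Qs (ux z')) (ux z' q) Y.toFinset =
        Fr.Nf (ux z) (Fr.Qs (ux z)) (ux z' q) Y.toFinset := by
      apply Nf_congr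
      intro k hk
      rw [ux_hh, ux_hh, hY k (List.mem_toFinset.1 hk)]
    rw [e3, ← Fr.qc_far_lab hn2.2 (hinj _ fun x h => List.mem_cons_of_mem _ h)
      (fun i hi => hnb i (List.mem_cons_of_mem _ hi)), ux_hh, cf_m]
    congr 2
    exact List.map_congr_left fun t _ => cf_m (z t)
  have ccn : ∀ x : ℂ, NUMv.cc (-x) = NUMv.cc x := fun x => by
    unfold NUMv.cc
    rw [show 2 * -x = -(2 * x) by ring, Complex.cos_neg]
  have hel : NUMv.el = lam := Fr.el_eq
  have hqc := Fr.qc_fuse_z (z := -z q) (by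
    have := (hr.ok _ hq _ hq).np
    rwa [show 3 / 2 * lam + z q = 3 / 2 * lam - -z q by ring] at this)
    (Y.map fun i => NUMv.cc (z i))
  rw [hel, show -z q + 2 * lam = -(z q - 2 * lam) by ring, show -z q + lam = -(z q - lam) by ring, ccn,
    ccn, ccn, ← hz'] at hqc
  have hF : NUMv.fuseF (-z q) (Y.map fun i => NUMv.cc (z i)) = fuf (z' q) z Y.toFinset := by
    unfold NUMv.fuseF fuf
    rw [hel, show -z q + lam = -(z q - lam) by ring, ccn, ← hz', kc3, List.map_map,
      List.prod_toFinset _ hn2.2]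
    rfl
  rw [hF] at hqc
  have e4 : (PH z (p :: q :: Y) ∘ₗ Kop q p) = fuf (z' q) z Y.toFinset • PH z' (q :: Y) := by
    rw [e1, k2, s1, hqc, e2, s2, smul_smul]
  have e5 : PH z (p :: q :: Y) = (PH z (p :: q :: Y) ∘ₗ Kop q p) ∘ₗ uops.Y q p := by
    rw [e1]
    exact k1
  rw [e5, e4, LinearMap.smul_comp]

/-- the left side -/
theorem fuseL_dt {zs : ℂ → α → ℂ} {t : ℂ} (hn : (q :: Y).Nodup)
    (h : ∀ x, DifferentiableAt ℂ (fun s => zs s x) t) (hpY : p ∉ q :: Y) (hG : Gz (zs t) (q :: Y))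
    (F : Pat α → ℂ) : DifferentiableAt ℂ (fun s =>
      PH (Function.update (zs s) p (zs s q - 2 * lam)) (p :: q :: Y) F) t := by
  have hu := upd_diff h p ((h q).sub_const (2 * lam))
  refine PH_dt1 hn (hu p) (fun x _ => hu x) (hG.congr fun x hx => ?_) F
  have : x ≠ p := fun e => hpY (e ▸ hx)
  rw [Function.update_of_ne this]

/-- the right side -/
theorem fuseR_dt {zs : ℂ → α → ℂ} {t : ℂ} (hn : (q :: Y).Nodup)
    (h : ∀ x, DifferentiableAt ℂ (fun s => zs s x) t) (hG : Gz (zs t) (q :: Y))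
    (F : Pat α → ℂ) : DifferentiableAt ℂ (fun s => fuf (zs s q - lam) (zs s) Y.toFinset *
      PH (Function.update (zs s) q (zs s q - lam)) (q :: Y) F) t := by
  have hn2 := List.nodup_cons.1 hn
  have hu := upd_diff h q ((h q).sub_const lam)
  refine DifferentiableAt.mul ?_ (PH_dt1 hn2.2 (hu q) (fun x _ => hu x)
    ((hG.sub fun x hx => List.mem_cons_of_mem _ hx).congr fun x hx => ?_) F)
  · unfold fuf NUMv.cc
    refine ((((((h q).sub_const lam).const_mul 2).ccos).add_const _).const_mul _).mul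
      (DifferentiableAt.fun_finsetProd fun k _ => ?_)
    exact (((h q).sub_const lam).const_mul 2).ccos.add (((h k).const_mul 2).ccos)
  · have : x ≠ q := fun e => hn2.1 (e ▸ hx)
    rw [Function.update_of_ne this]

theorem fuse_near {r : ℝ} (hr : NR α r) (hr2 : ∀ u ∈ Metric.ball z0 r,
    okR (hh - (u - 2 * lam)) ∧ okR (hh - (u - lam))) (hn : (p :: q :: Y).Nodup)
    (hb : b ∉ p :: q :: Y) (hc : c ∉ p :: q :: Y) (hbc : b ≠ c)
    (hX : ∀ i ∈ q :: Y, z i ∈ Metric.ball z0 r) (h1 : Gz z (q :: Y))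
    (h2 : Gz (Function.update z p (z q - 2 * lam)) (p :: Y)) (F : Pat α → ℂ) :
    PH (Function.update z p (z q - 2 * lam)) (p :: q :: Y) F = fuf (z q - lam) z Y.toFinset *
      PH (Function.update z q (z q - lam)) (q :: Y) (uops.Y q p F) := by
  have : Fintype α := Fintype.ofFinite α
  have hn1 := List.nodup_cons.1 hn
  have hn2 := List.nodup_cons.1 hn1.2
  have hpq : p ≠ q := fun e => hn1.1 (by simp [e])
  have hb1 : b ∉ q :: Y := fun h => hb (List.mem_cons_of_mem _ h)
  have hc1 : c ∉ q :: Y := fun h => hc (List.mem_cons_of_mem _ h)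
  have hq := hX q (by simp)
  set zs : ℂ → α → ℂ := fun s => Function.update z q s with hzs
  have e0 : zs (z q) = z := Function.update_eq_self q z
  have eq : ∀ s, zs s q = s := fun s => by rw [hzs]; simp
  have ex : ∀ s, ∀ x, x ≠ q → zs s x = z x := fun s x hx => by
    rw [hzs]
    simp [hx]
  have dz : ∀ x, Differentiable ℂ fun s => zs s x := fun x => by
    by_cases hx : x = q
    · subst hx
      simp only [eq]
      exact differentiable_id
    · simp only [ex _ x hx]
      exact differentiable_const _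
  -- the regularity
  obtain ⟨S1, c1, _, _, d1⟩ := far_regular (z := z) (x := q) (ζ0 := z q) hn1.2 hc1
    (hr.ok _ hq _ hq).hm (by
      rw [Function.update_eq_self]
      exact hr.reg z _ hn1.2 hX)
  have hS : ((fun s => s - lam) ⁻¹' S1).Countable := c1.preimage (sub_left_injective)
  have key := dense_eq (s0 := z q) (S := (fun s => s - lam) ⁻¹' S1)
    (fuseL_dt (p := p) hn1.2 (fun x => dz x (z q)) hn1.1 (by rw [e0]; exact h1) F).continuousAt
    (fuseR_dt hn1.2 (fun x => dz x (z q)) (by rw [e0]; exact h1) (uops.Y q p F)).continuousAt hS ?_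
  · rw [e0] at key
    exact key
  · have a1 : ∀ᶠ s in 𝓝 (z q), s ∈ Metric.ball z0 r := Metric.isOpen_ball.mem_nhds hq
    have a2 : ∀ᶠ s in 𝓝 (z q), gzP (zs s) (q :: Y) ≠ 0 := by
      refine (gzP_diff dz _).continuous.continuousAt.eventually_ne ?_
      rw [e0]
      exact gzP_ne.2 h1
    have dzp : ∀ x, Differentiable ℂ fun s => Function.update (zs s) p (zs s q - 2 * lam) x :=
      fun x t => upd_diff (fun x => dz x t) p ((dz q t).sub_const _) x
    have a3 : ∀ᶠ s in 𝓝 (z q), gzP (Function.update (zs s) p (zs s q - 2 * lam)) (p :: Y) ≠ 0 := by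
      refine (gzP_diff dzp _).continuous.continuousAt.eventually_ne ?_
      rw [e0]
      exact gzP_ne.2 h2
    filter_upwards [a1, a2, a3] with s b1 b2 b3 hs
    have hreg := ((d1 _).1 hs).2
    set Z : α → ℂ := Function.update (zs s) p (zs s q - 2 * lam) with hZ
    set Z' : α → ℂ := Function.update (zs s) q (zs s q - lam) with hZ'
    have hpx : ∀ x ∈ q :: Y, x ≠ p := fun x hx e => hn1.1 (e ▸ hx)
    have hqx : ∀ x ∈ Y, x ≠ q := fun x hx e => hn2.1 (e ▸ hx)
    have ez : ∀ x ∈ q :: Y, Z x = zs s x := fun x hx => by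
      rw [hZ, Function.update_of_ne (hpx x hx)]
    have hZq : Z q = s := by rw [ez q (by simp), eq]
    have hZp : Z p = Z q - 2 * lam := by
      rw [hZq, hZ, Function.update_self, eq]
    have hZ'q : Z' q = Z q - lam := by
      rw [hZq, hZ', Function.update_self, eq]
    have hZY : ∀ y ∈ Y, Z' y = Z y := fun y hy => by
      rw [hZ', Function.update_of_ne (hqx y hy), ez y (by simp [hy])]
    have k := fuse_reg (z := Z) (z' := Z') hr hr2 hn hb hc hbc (fun i hi => ?_) hZp hZ'q hZY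
      ((gzP_ne.1 b2).congr fun x hx => (ez x hx).symm) (gzP_ne.1 b3) ?_
    · have k' := LinearMap.congr_fun k F
      rw [k', LinearMap.smul_apply, LinearMap.comp_apply, smul_eq_mul]
      congr 1
      unfold fuf
      rw [hZ'q, hZq, eq]
      congr 1
      apply Finset.prod_congr rfl
      intro k hk
      rw [ez k (by simp [List.mem_toFinset.1 hk])]
    · rw [ez i hi]
      by_cases hiq : i = q
      · subst hiq
        rw [eq]
        exact b1
      · rw [ex s i hiq]
        exact hX i hi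
    · refine hreg.congr fun x hx => ?_
      rw [hZ']
      by_cases hxq : x = q
      · subst hxq
        rw [Function.update_self, Function.update_self, eq]
      · rw [Function.update_of_ne hxq, Function.update_of_ne hxq, ex s x hxq]

/-- **(S5) Fusion.** -/
theorem PH_fuse (hn : (p :: q :: Y).Nodup) (hb : b ∉ p :: q :: Y) (hc : c ∉ p :: q :: Y) (hbc : b ≠ c)
    (hz : z p = z q - 2 * lam) (hz' : z' q = z q - lam) (hY : ∀ y ∈ Y, z' y = z y)
    (h1 : Gz z (q :: Y)) (h2 : Gz z (p :: Y)) :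
    PH z (p :: q :: Y) = fuf (z' q) z Y.toFinset • (PH z' (q :: Y) ∘ₗ uops.Y q p) := by
  have hn1 := List.nodup_cons.1 hn
  have hn2 := List.nodup_cons.1 hn1.2
  have hqx : ∀ x ∈ Y, x ≠ q := fun x hx e => hn2.1 (e ▸ hx)
  obtain ⟨r, ⟨hr, hr2⟩, hr0⟩ := (((near_NR α).and near2).and self_mem_nhdsWithin).exists
  refine LinearMap.ext fun F => ?_
  have key := gz_ext (X := q :: Y) (r := r)
    (f := fun z => PH (Function.update z p (z q - 2 * lam)) (p :: q :: Y) F)
    (g := fun z => fuf (z q - lam) z Y.toFinset *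
      PH (Function.update z q (z q - lam)) (q :: Y) (uops.Y q p F)) hr0
    (P := fun z => gzP (Function.update z p (z q - 2 * lam)) (p :: Y)) ?_ ?_ ?_ ?_ h1 ?_
  · have e1 : Function.update z p (z q - 2 * lam) = z := by
      rw [← hz]
      exact Function.update_eq_self p z
    have e2 : PH (Function.update z q (z q - lam)) (q :: Y) = PH z' (q :: Y) := by
      refine PH_congr fun x hx => ?_
      rcases List.mem_cons.1 hx with rfl | hx'
      · rw [Function.update_self, hz']
      · rw [Function.update_of_ne (hqx x hx'), hY x hx']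
    simp only [e1, e2] at key
    rw [key, LinearMap.smul_apply, LinearMap.comp_apply, smul_eq_mul, hz']
  · intro w
    refine gzP_diff (fun x t => ?_) _
    exact upd_diff (fun x => curve_diff w x t) p ((curve_diff w q t).sub_const _) x
  · intro z hz hG hP
    exact fuse_near hr hr2 hn hb hc hbc hz hG (gzP_ne.1 hP) F
  · intro w t hG _
    exact fuseL_dt hn1.2 (fun x => curve_diff w x t) hn1.1 hG F
  · intro w t hG _
    exact fuseR_dt hn1.2 (fun x => curve_diff w x t) hG _
  · have e1 : Function.update z p (z q - 2 * lam) = z := by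
      rw [← hz]
      exact Function.update_eq_self p z
    rw [e1]
    exact gzP_ne.2 h2

end Pool.Agent.NUU
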