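import Pool.Agent.NUF.PAna
import Pool.Agent.NUF.Far2An

/-!
# Identity theorem: relations near 0 hold for all generic rapidities

`Gz z X`: the rapidities of the rows `X` are generic (`sin` and `Dn` of the differences do not vanish).
`ident_P`: one variable.  `ident_fnl`: two families of functionals that are analytic along curves where an entire
`P` does not vanish and that agree near 0 agree wherever `P` does not vanish (`z = t w`).
-/

set_option autoImplicit false

namespace Pool.Agent.NUU.Idt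

open _root_.Pool.Agent.EXL _root_.Pool.Agent.EXL.Pat Filter Topology
open _root_.Pool.Agent.NUF

/-! ### One variable -/

/-- **Identity theorem, one variable.** -/
theorem ident_P {P f g : ℂ → ℂ} (hP : Differentiable ℂ P) (h1 : P 1 ≠ 0)
    (hf : ∀ t, P t ≠ 0 → DifferentiableAt ℂ f t) (hg : ∀ t, P t ≠ 0 → DifferentiableAt ℂ g t)
    (h0 : ∀ᶠ t in 𝓝 (0 : ℂ), P t ≠ 0 → f t = g t) : f 1 = g 1 := by
  have ho : IsOpen {t | P t ≠ 0} := (isClosed_eq hP.continuous continuous_const).isOpen_compl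
  have hc : ({t | P t ≠ 0} : Set ℂ)ᶜ.Countable := by
    have e : ({t | P t ≠ 0} : Set ℂ)ᶜ = {t | P t = 0} := by
      ext t
      simp
    rw [e]
    exact zeros_countable hP h1
  obtain ⟨V, hV, hVo, h0V⟩ := eventually_nhds_iff.1 h0
  exact eq_off ho hc hf hg hVo ⟨0, h0V⟩ (S := ∅) Set.countable_empty
    (fun t ht _ hPt => hV t ht hPt) 1 h1

/-! ### Generic rapidities -/

section gz

variable {α : Type*}

/-- The rapidities of the rows `X` are generic. -/
def Gz (z : α → ℂ) (X : List α) : Prop :=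
  ∀ i ∈ X, ∀ j ∈ X, i ≠ j → Complex.sin (z i - z j) ≠ 0 ∧ Fm.Dn (z i - z j) ≠ 0

variable {z z' w : α → ℂ} {X Y : List α}

theorem Gz.mono (h : Gz z X) (hY : ∀ i ∈ Y, i ∈ X) : Gz z Y := fun i hi j hj hij =>
  h i (hY i hi) j (hY j hj) hij

theorem Gz.sublist (h : Gz z X) (hY : Y.Sublist X) : Gz z Y := h.mono fun _ hi => hY.subset hi

theorem Gz.perm (hp : X.Perm Y) : Gz z X ↔ Gz z Y :=
  ⟨fun h => h.mono fun _ hi => hp.mem_iff.2 hi, fun h => h.mono fun _ hi => hp.mem_iff.1 hi⟩

theorem Gz.congr (h : Gz z X) (he : ∀ i ∈ X, z i = z' i) : Gz z' X := fun i hi j hj hij => by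
  rw [← he i hi, ← he j hj]
  exact h i hi j hj hij

theorem Gz.nil : Gz z ([] : List α) := fun i hi => absurd hi (by simp)

theorem Gz.tail {p : α} (h : Gz z (p :: X)) : Gz z X := h.mono fun _ hi => List.mem_cons_of_mem _ hi

theorem Gz.erase [DecidableEq α] (h : Gz z X) (i : α) : Gz z (X.erase i) :=
  h.mono fun _ hj => List.mem_of_mem_erase hj

/-- The product of all the denominators. -/
noncomputable def Pz [DecidableEq α] (z : α → ℂ) (X : List α) : ℂ :=
  (X.map fun i => (X.map fun j =>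
    if i = j then 1 else Complex.sin (z i - z j) * Fm.Dn (z i - z j)).prod).prod

theorem Pz_ne [DecidableEq α] : Pz z X ≠ 0 ↔ Gz z X := by
  unfold Pz Gz
  rw [Ne, List.prod_eq_zero_iff, List.mem_map, not_exists]
  constructor
  · intro h i hi j hj hij
    have h1 := h i
    rw [not_and, List.prod_eq_zero_iff, List.mem_map, not_exists] at h1
    have h2 := h1 hi j
    rw [not_and, if_neg hij, mul_eq_zero, not_or] at h2
    exact h2 hj
  · rintro h i ⟨hi, h0⟩
    rw [List.prod_eq_zero_iff, List.mem_map] at h0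
    obtain ⟨j, hj, h0⟩ := h0
    by_cases hij : i = j
    · rw [if_pos hij] at h0
      exact one_ne_zero h0
    · rw [if_neg hij, mul_eq_zero] at h0
      rcases h0 with h0 | h0
      · exact (h i hi j hj hij).1 h0
      · exact (h i hi j hj hij).2 h0

/-- A curve in the space of the rapidities, analytic at `t`. -/
abbrev Cv (zs : ℂ → α → ℂ) (t : ℂ) : Prop := ∀ j, DifferentiableAt ℂ (fun s => zs s j) t

/-- The curve `t w`. -/
abbrev ray (w : α → ℂ) : ℂ → α → ℂ := fun t j => t * w j

theorem cv_ray (w : α → ℂ) (t : ℂ) : Cv (ray w) t := fun j => by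
  unfold ray
  fun_prop

theorem ray_one (w : α → ℂ) : ray w 1 = w := by
  funext j
  simp [ray]

theorem ray_zero (w : α → ℂ) : ray w 0 = fun _ => 0 := by
  funext j
  simp [ray]

theorem ray_tendsto (w : α → ℂ) : Tendsto (ray w) (𝓝 0) (𝓝 fun _ => 0) := by
  rw [← ray_zero w]
  refine Continuous.tendsto ?_ 0
  exact continuous_pi fun j => by
    unfold ray
    fun_prop

/-- Entire along the rays. -/
def Ent (P : (α → ℂ) → ℂ) : Prop := ∀ w, Differentiable ℂ fun t => P (ray w t)

theorem Ent.mul {P Q : (α → ℂ) → ℂ} (hP : Ent P) (hQ : Ent Q) : Ent fun z => P z * Q z :=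
  fun w => (hP w).mul (hQ w)

theorem Ent.one : Ent fun _ : α → ℂ => (1 : ℂ) := fun _ => differentiable_const _

theorem Ent.list {κ : Type*} (L : List κ) {P : κ → (α → ℂ) → ℂ} (hP : ∀ k ∈ L, Ent (P k)) :
    Ent fun z => (L.map fun k => P k z).prod := by
  induction L with
  | nil => exact Ent.one
  | cons k L ih =>
    simp only [List.map_cons, List.prod_cons]
    exact (hP k (by simp)).mul (ih fun m hm => hP m (by simp [hm]))

/-- `Dn` of an affine function. -/
theorem ent_Dn (c : ℂ) (i : α) (s : ℂ) : Ent fun z : α → ℂ => Fm.Dn (c + s * z i) := by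
  intro w
  unfold Fm.Dn ray
  fun_prop

theorem ent_sin (c : ℂ) (i : α) (s : ℂ) : Ent fun z : α → ℂ => Complex.sin (c + s * z i) := by
  intro w
  unfold ray
  fun_prop

theorem ent_Dn2 (c : ℂ) (i j : α) : Ent fun z : α → ℂ => Fm.Dn (c + (z i - z j)) := by
  intro w
  unfold Fm.Dn ray
  fun_prop

theorem ent_sin2 (c : ℂ) (i j : α) : Ent fun z : α → ℂ => Complex.sin (c + (z i - z j)) := by
  intro w
  unfold ray
  fun_prop

theorem ent_Pz [DecidableEq α] (X : List α) : Ent fun z : α → ℂ => Pz z X := by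
  unfold Pz
  refine Ent.list X fun i _ => Ent.list X fun j _ => ?_
  by_cases hij : i = j
  · simp only [if_pos hij]
    exact Ent.one
  · simp only [if_neg hij]
    intro w
    unfold Fm.Dn ray
    fun_prop

/-- **Identity theorem** for functions of the rapidities: `P` is entire along the rays, `f`, `g` are analytic along
the rays where `P` does not vanish and they agree near 0. -/
theorem ident_fun {P f g : (α → ℂ) → ℂ} (hP : Ent P)
    (hf : ∀ w t, P (ray w t) ≠ 0 → DifferentiableAt ℂ (fun s => f (ray w s)) t)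
    (hg : ∀ w t, P (ray w t) ≠ 0 → DifferentiableAt ℂ (fun s => g (ray w s)) t)
    (h0 : ∀ᶠ z in 𝓝 (fun _ : α => (0 : ℂ)), P z ≠ 0 → f z = g z) {z : α → ℂ} (hz : P z ≠ 0) :
    f z = g z := by
  have := ident_P (hP z) (by rw [ray_one]; exact hz) (hf z) (hg z) ((ray_tendsto z).eventually h0)
  rwa [ray_one] at this

/-- **Identity theorem** for functionals. -/
theorem ident_fnl {P : (α → ℂ) → ℂ} {V W : (α → ℂ) → Fnl α} (hP : Ent P)
    (hV : ∀ w t, P (ray w t) ≠ 0 → DtF (fun s => V (ray w s)) t)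
    (hW : ∀ w t, P (ray w t) ≠ 0 → DtF (fun s => W (ray w s)) t)
    (h0 : ∀ᶠ z in 𝓝 (fun _ : α => (0 : ℂ)), P z ≠ 0 → V z = W z) {z : α → ℂ} (hz : P z ≠ 0) :
    V z = W z := by
  refine LinearMap.ext fun F => ?_
  refine ident_fun (f := fun z => V z F) (g := fun z => W z F) hP (fun w t h => hV w t h F)
    (fun w t h => hW w t h F) ?_ hz
  filter_upwards [h0] with y hy hPy
  rw [hy hPy]

/-- **Identity theorem** for functionals at generic rapidities. -/
theorem ident_gz [DecidableEq α] {X : List α} {V W : (α → ℂ) → Fnl α}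
    (hV : ∀ w t, Gz (ray w t) X → DtF (fun s => V (ray w s)) t)
    (hW : ∀ w t, Gz (ray w t) X → DtF (fun s => W (ray w s)) t)
    (h0 : ∀ᶠ z in 𝓝 (fun _ : α => (0 : ℂ)), Gz z X → V z = W z) {z : α → ℂ} (hz : Gz z X) :
    V z = W z := by
  refine ident_fnl (P := fun z => Pz z X) (ent_Pz X) (fun w t h => hV w t (Pz_ne.1 h))
    (fun w t h => hW w t (Pz_ne.1 h)) ?_ (Pz_ne.2 hz)
  filter_upwards [h0] with y hy hPy
  exact hy (Pz_ne.1 hPy)

end gz

end Pool.Agent.NUU.Idt
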