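import Pool.Agent.NUU.Ident

/-!
# Identity theorem in (y, z): from (y0, 0) to (0, z)

`AnV P V`: the family of functionals `V y z` is analytic along every analytic curve `(ys, zs)` at the points where
`P` does not vanish (`P : y → z → Prop`).  `ident_yz`: two such families that agree near `(y0, 0)` agree at `(0, z)`
(one variable: the segment `((1 - t) y0, t z)`).
-/

set_option autoImplicit false

namespace Pool.Agent.NUU.Idt

open _root_.Pool.Agent.EXL _root_.Pool.Agent.EXL.Pat Filter Topology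
open _root_.Pool.Agent.NUF

variable {α : Type*}

/-- Analytic along curves in `(y, z)` where `P` holds. -/
def AnV (P : ℂ → (α → ℂ) → Prop) (V : ℂ → (α → ℂ) → Fnl α) : Prop :=
  ∀ (ys : ℂ → ℂ) (zs : ℂ → α → ℂ) (t : ℂ), DifferentiableAt ℂ ys t → Cv zs t → P (ys t) (zs t) →
    DtF (fun s => V (ys s) (zs s)) t

/-- The same for operators. -/
def AnE (P : ℂ → (α → ℂ) → Prop) (V : ℂ → (α → ℂ) → Module.End ℂ (Pat α → ℂ)) : Prop :=
  ∀ (ys : ℂ → ℂ) (zs : ℂ → α → ℂ) (t : ℂ), DifferentiableAt ℂ ys t → Cv zs t → P (ys t) (zs t) →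
    DtE (fun s => V (ys s) (zs s)) t

/-- The same for scalars. -/
def AnS (P : ℂ → (α → ℂ) → Prop) (c : ℂ → (α → ℂ) → ℂ) : Prop :=
  ∀ (ys : ℂ → ℂ) (zs : ℂ → α → ℂ) (t : ℂ), DifferentiableAt ℂ ys t → Cv zs t → P (ys t) (zs t) →
    DifferentiableAt ℂ (fun s => c (ys s) (zs s)) t

variable {P Q : ℂ → (α → ℂ) → Prop} {V W : ℂ → (α → ℂ) → Fnl α}
  {X Y : ℂ → (α → ℂ) → Module.End ℂ (Pat α → ℂ)} {c e : ℂ → (α → ℂ) → ℂ}

theorem AnV.mono (h : AnV P V) (hQ : ∀ y z, Q y z → P y z) : AnV Q V :=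
  fun ys zs t h1 h2 h3 => h ys zs t h1 h2 (hQ _ _ h3)

theorem AnE.mono (h : AnE P X) (hQ : ∀ y z, Q y z → P y z) : AnE Q X :=
  fun ys zs t h1 h2 h3 => h ys zs t h1 h2 (hQ _ _ h3)

theorem AnS.mono (h : AnS P c) (hQ : ∀ y z, Q y z → P y z) : AnS Q c :=
  fun ys zs t h1 h2 h3 => h ys zs t h1 h2 (hQ _ _ h3)

theorem AnV.const (V : Fnl α) : AnV P fun _ _ => V := fun _ _ _ _ _ _ => DtF.const _

theorem AnE.const (X : Module.End ℂ (Pat α → ℂ)) : AnE P fun _ _ => X := fun _ _ _ _ _ _ => DtE.const _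

theorem AnS.const (c : ℂ) : AnS P fun _ _ => c := fun _ _ _ _ _ _ => differentiableAt_const _

theorem AnS.y : AnS P fun y _ => y := fun _ _ _ h _ _ => h

theorem AnS.z (j : α) : AnS P fun _ z => z j := fun _ _ _ _ h _ => h j

theorem AnS.add (h : AnS P c) (h' : AnS P e) : AnS P fun y z => c y z + e y z :=
  fun ys zs t h1 h2 h3 => (h ys zs t h1 h2 h3).add (h' ys zs t h1 h2 h3)

theorem AnS.sub (h : AnS P c) (h' : AnS P e) : AnS P fun y z => c y z - e y z :=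
  fun ys zs t h1 h2 h3 => (h ys zs t h1 h2 h3).sub (h' ys zs t h1 h2 h3)

theorem AnS.mul (h : AnS P c) (h' : AnS P e) : AnS P fun y z => c y z * e y z :=
  fun ys zs t h1 h2 h3 => (h ys zs t h1 h2 h3).mul (h' ys zs t h1 h2 h3)

theorem AnS.neg (h : AnS P c) : AnS P fun y z => -c y z :=
  fun ys zs t h1 h2 h3 => (h ys zs t h1 h2 h3).neg

theorem AnS.inv (h : AnS P c) (h0 : ∀ y z, P y z → c y z ≠ 0) : AnS P fun y z => (c y z)⁻¹ :=
  fun ys zs t h1 h2 h3 => (h ys zs t h1 h2 h3).inv (h0 _ _ h3)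

theorem AnS.div (h : AnS P c) (h' : AnS P e) (h0 : ∀ y z, P y z → e y z ≠ 0) :
    AnS P fun y z => c y z / e y z :=
  fun ys zs t h1 h2 h3 => (h ys zs t h1 h2 h3).div (h' ys zs t h1 h2 h3) (h0 _ _ h3)

theorem AnS.pow (h : AnS P c) (n : ℕ) : AnS P fun y z => c y z ^ n :=
  fun ys zs t h1 h2 h3 => (h ys zs t h1 h2 h3).pow n

/-- A differentiable function of a scalar. -/
theorem AnS.ent (h : AnS P c) {f : ℂ → ℂ} (hf : Differentiable ℂ f) : AnS P fun y z => f (c y z) :=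
  fun ys zs t h1 h2 h3 => (hf _).comp t (h ys zs t h1 h2 h3)

theorem AnS.exp (h : AnS P c) : AnS P fun y z => Complex.exp (c y z) :=
  h.ent Complex.differentiable_exp

theorem AnS.sin (h : AnS P c) : AnS P fun y z => Complex.sin (c y z) :=
  h.ent Complex.differentiable_sin

theorem AnS.cos (h : AnS P c) : AnS P fun y z => Complex.cos (c y z) :=
  h.ent Complex.differentiable_cos

theorem diff_Dn : Differentiable ℂ Fm.Dn := by
  unfold Fm.Dn
  fun_prop

theorem AnS.Dn (h : AnS P c) : AnS P fun y z => Fm.Dn (c y z) := h.ent diff_Dn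

theorem AnS.prod {κ : Type*} (s : Finset κ) {c : κ → ℂ → (α → ℂ) → ℂ} (h : ∀ k ∈ s, AnS P (c k)) :
    AnS P fun y z => ∏ k ∈ s, c k y z :=
  fun ys zs t h1 h2 h3 => DifferentiableAt.fun_finsetProd fun k hk => h k hk ys zs t h1 h2 h3

theorem AnS.sum {κ : Type*} (s : Finset κ) {c : κ → ℂ → (α → ℂ) → ℂ} (h : ∀ k ∈ s, AnS P (c k)) :
    AnS P fun y z => ∑ k ∈ s, c k y z :=
  fun ys zs t h1 h2 h3 => DifferentiableAt.fun_sum fun k hk => h k hk ys zs t h1 h2 h3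

theorem AnS.list {κ : Type*} (L : List κ) {c : κ → ℂ → (α → ℂ) → ℂ} (h : ∀ k ∈ L, AnS P (c k)) :
    AnS P fun y z => (L.map fun k => c k y z).prod := by
  induction L with
  | nil => exact AnS.const 1
  | cons k L ih =>
    simp only [List.map_cons, List.prod_cons]
    exact (h k (by simp)).mul (ih fun m hm => h m (by simp [hm]))

theorem AnV.add (h : AnV P V) (h' : AnV P W) : AnV P fun y z => V y z + W y z :=
  fun ys zs t h1 h2 h3 => (h ys zs t h1 h2 h3).add (h' ys zs t h1 h2 h3)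

theorem AnV.smul (h : AnS P c) (h' : AnV P V) : AnV P fun y z => c y z • V y z :=
  fun ys zs t h1 h2 h3 => (h' ys zs t h1 h2 h3).smul (h ys zs t h1 h2 h3)

theorem AnV.sum {κ : Type*} (s : Finset κ) {V : κ → ℂ → (α → ℂ) → Fnl α} (h : ∀ k ∈ s, AnV P (V k)) :
    AnV P fun y z => ∑ k ∈ s, V k y z :=
  fun ys zs t h1 h2 h3 => DtF.sum s fun k hk => h k hk ys zs t h1 h2 h3

theorem AnV.comp [Finite α] (h : AnV P V) (h' : AnE P X) : AnV P fun y z => V y z ∘ₗ X y z :=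
  fun ys zs t h1 h2 h3 => (h ys zs t h1 h2 h3).comp (h' ys zs t h1 h2 h3)

theorem AnE.mul [Finite α] (h : AnE P X) (h' : AnE P Y) : AnE P fun y z => X y z * Y y z :=
  fun ys zs t h1 h2 h3 => (h ys zs t h1 h2 h3).mul (h' ys zs t h1 h2 h3)

theorem AnE.add (h : AnE P X) (h' : AnE P Y) : AnE P fun y z => X y z + Y y z :=
  fun ys zs t h1 h2 h3 F p => (h ys zs t h1 h2 h3 F p).add (h' ys zs t h1 h2 h3 F p)

theorem AnE.smul (h : AnS P c) (h' : AnE P X) : AnE P fun y z => c y z • X y z :=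
  fun ys zs t h1 h2 h3 F p => (h ys zs t h1 h2 h3).mul (h' ys zs t h1 h2 h3 F p)

theorem AnE.R [DecidableEq α] {i j : α} (hij : i ≠ j) (h : AnS P c)
    (h0 : ∀ y z, P y z → Fm.Dn (c y z) ≠ 0) : AnE P fun y z => uops.R i j (c y z) :=
  fun ys zs t h1 h2 h3 => dt_R hij (h ys zs t h1 h2 h3) (h0 _ _ h3)

/-- A line `i` through the rows `L`, its parameter is `c y z`. -/
theorem AnE.M [DecidableEq α] [Finite α] {i : α} {L : List α} (hi : i ∉ L) (h : AnS P c)
    (h0 : ∀ y z, P y z → ∀ j ∈ L, Fm.Dn (c y z - z j) ≠ 0) :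
    AnE P fun y z => uops.M z i (c y z) L := by
  intro ys zs t h1 h2 h3
  refine dt_M (w := fun s => c (ys s) (zs s)) fun r hr => ?_
  have hir : i ≠ r := fun e => hi (by rw [e]; exact hr)
  exact dt_R hir ((h ys zs t h1 h2 h3).sub (h2 r)) (h0 _ _ h3 r hr)

/-! ### The identity theorem -/

/-- Entire in `(y, z)` along the segments. -/
def EntY (P : ℂ → (α → ℂ) → ℂ) : Prop :=
  ∀ (y0 : ℂ) (w : α → ℂ), Differentiable ℂ fun t => P ((1 - t) * y0) (ray w t)

theorem EntY.of (h : AnS (fun _ _ => True) c) : EntY c := fun y0 w t =>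
  h (fun t => (1 - t) * y0) (ray w) t (by fun_prop) (cv_ray w t) trivial

/-- **Identity theorem in (y, z)**, scalars: from `(y0, 0)` to `(0, z)`. -/
theorem ident_yz_fun {p : ℂ → (α → ℂ) → ℂ} (hp : EntY p) (hc : AnS (fun y z => p y z ≠ 0) c)
    (he : AnS (fun y z => p y z ≠ 0) e) {y0 : ℂ}
    (h0 : ∀ᶠ q : ℂ × (α → ℂ) in 𝓝 (y0, fun _ => 0), p q.1 q.2 ≠ 0 → c q.1 q.2 = e q.1 q.2)
    {z : α → ℂ} (hz : p 0 z ≠ 0) : c 0 z = e 0 z := by
  have hd : ∀ t : ℂ, DifferentiableAt ℂ (fun t : ℂ => (1 - t) * y0) t := fun t => by fun_prop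
  have h1 : (1 - (1 : ℂ)) * y0 = 0 := by ring
  have := ident_P (P := fun t => p ((1 - t) * y0) (ray z t))
    (f := fun t => c ((1 - t) * y0) (ray z t)) (g := fun t => e ((1 - t) * y0) (ray z t)) (hp y0 z)
    (by rw [h1, ray_one]; exact hz) (fun t ht => hc _ _ t (hd t) (cv_ray z t) ht)
    (fun t ht => he _ _ t (hd t) (cv_ray z t) ht) ?_
  · rwa [h1, ray_one] at this
  · have hT : Tendsto (fun t : ℂ => ((1 - t) * y0, ray z t)) (𝓝 0) (𝓝 (y0, fun _ => 0)) := by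
      refine Tendsto.prodMk_nhds ?_ (ray_tendsto z)
      have : Tendsto (fun t : ℂ => (1 - t) * y0) (𝓝 0) (𝓝 ((1 - 0) * y0)) :=
        (Continuous.tendsto (by fun_prop) 0)
      simpa using this
    exact hT.eventually h0

/-- **Identity theorem in (y, z)**, functionals. -/
theorem ident_yz {p : ℂ → (α → ℂ) → ℂ} (hp : EntY p) (hV : AnV (fun y z => p y z ≠ 0) V)
    (hW : AnV (fun y z => p y z ≠ 0) W) {y0 : ℂ}
    (h0 : ∀ᶠ q : ℂ × (α → ℂ) in 𝓝 (y0, fun _ => 0), p q.1 q.2 ≠ 0 → V q.1 q.2 = W q.1 q.2)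
    {z : α → ℂ} (hz : p 0 z ≠ 0) : V 0 z = W 0 z := by
  refine LinearMap.ext fun F => ?_
  refine ident_yz_fun (c := fun y z => V y z F) (e := fun y z => W y z F) (y0 := y0) hp
    (fun ys zs t h1 h2 h3 => hV ys zs t h1 h2 h3 F) (fun ys zs t h1 h2 h3 => hW ys zs t h1 h2 h3 F)
    ?_ hz
  filter_upwards [h0] with q hq hPq
  rw [hq hPq]

/-- The product of the denominators `sin (z i - z j) Dn (z i - z j)` as an entire function. -/
theorem entY_Pz [DecidableEq α] (X : List α) : EntY fun _ (z : α → ℂ) => Pz z X := fun _ w =>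
  ent_Pz X w

theorem EntY.mul {p q : ℂ → (α → ℂ) → ℂ} (hp : EntY p) (hq : EntY q) :
    EntY fun y z => p y z * q y z := fun y0 w => (hp y0 w).mul (hq y0 w)

/-- **Identity theorem in (y, z)**, functionals, generic rapidities, no further denominators. -/
theorem ident_yz_gz [DecidableEq α] {X : List α} (hV : AnV (fun _ z => Gz z X) V)
    (hW : AnV (fun _ z => Gz z X) W) {y0 : ℂ}
    (h0 : ∀ᶠ q : ℂ × (α → ℂ) in 𝓝 (y0, fun _ => 0), Gz q.2 X → V q.1 q.2 = W q.1 q.2)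
    {z : α → ℂ} (hz : Gz z X) : V 0 z = W 0 z := by
  refine ident_yz (p := fun _ z => Pz z X) (entY_Pz X) (hV.mono fun _ _ h => Pz_ne.1 h)
    (hW.mono fun _ _ h => Pz_ne.1 h) (y0 := y0) ?_ (Pz_ne.2 hz)
  filter_upwards [h0] with q hq hPq
  exact hq (Pz_ne.1 hPq)

end Pool.Agent.NUU.Idt
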