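import Pool.Agent.NUF.Far2An

/-!
# Functionals of lists of lines defined by a recursion (helper36)

`RL C z V0 X`: the functional of the list `X`; the bottom line is either empty or joined to another line.
`C.m`, `C.e`, `C.a` = the coefficients.
-/

set_option autoImplicit false

namespace Pool.Agent.NUU

open _root_.Pool.Agent.EXL _root_.Pool.Agent.EXL.Pat Filter Topology
open _root_.Pool.Agent.EXL.Fm (lam)
open _root_.Pool.Agent.NUF

variable {α : Type*} [DecidableEq α]

/-- The coefficients of the recursion. -/
structure Co (α : Type*) where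
  m : α → Finset α → ℂ
  e : α → α → Finset α → ℂ
  a : α → α → Finset α → ℂ

theorem erase_lt {p i : α} {X : List α} : (X.erase i).length < (p :: X).length := by
  have := List.length_erase_le (a := i) (l := X)
  simp only [List.length_cons]
  omega

/-- The functional of the list. -/
noncomputable def RL (C : Co α) (z : α → ℂ) (V0 : Fnl α) : List α → Fnl α
  | [] => V0
  | p :: X => C.m p X.toFinset • RL C z V0 X +
      ∑ i ∈ X.toFinset, (RL C z V0 (X.erase i) ∘ₗ
        (jn p i (C.e p i (X.toFinset.erase i)) (C.a p i (X.toFinset.erase i)) * oE uops z X i))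
  termination_by X => X.length
  decreasing_by
    · simp
    · exact erase_lt

variable {C C' : Co α} {z z' : α → ℂ} {V0 : Fnl α} {X : List α} {p : α}

theorem RL_nil : RL C z V0 [] = V0 := by rw [RL]

theorem RL_cons : RL C z V0 (p :: X) = C.m p X.toFinset • RL C z V0 X +
    ∑ i ∈ X.toFinset, (RL C z V0 (X.erase i) ∘ₗ
      (jn p i (C.e p i (X.toFinset.erase i)) (C.a p i (X.toFinset.erase i)) * oE uops z X i)) := by
  rw [RL]

theorem jn_smul (p i : α) (c e a : ℂ) : c • jn p i e a = jn p i (c * e) (c * a) := by
  unfold jn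
  rw [smul_add, smul_smul, smul_smul]

theorem comp_smul' (V : Fnl α) (c : ℂ) (Y : Module.End ℂ (Pat α → ℂ)) :
    V ∘ₗ (c • Y) = c • (V ∘ₗ Y) := by
  refine LinearMap.ext fun F => ?_
  simp

/-- **Change of the normalization.** -/
theorem RL_gauge (ρ : Finset α → ℂ) (h0 : ρ ∅ = 1)
    (hm : ∀ p Y, p ∉ Y → C.m p Y * ρ Y = ρ (insert p Y) * C'.m p Y)
    (he : ∀ p i Y, p ≠ i → p ∉ Y → i ∉ Y →
      C.e p i Y * ρ Y = ρ (insert p (insert i Y)) * C'.e p i Y ∧
      C.a p i Y * ρ Y = ρ (insert p (insert i Y)) * C'.a p i Y) :
    ∀ (n : ℕ) (X : List α), X.length = n → X.Nodup →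
      RL C z V0 X = ρ X.toFinset • RL C' z V0 X := by
  intro n
  induction n using Nat.strong_induction_on with
  | _ n ih =>
    intro X hX hn
    cases X with
    | nil => rw [RL_nil, RL_nil, List.toFinset_nil, h0, one_smul]
    | cons p X =>
      obtain ⟨hp, hn'⟩ := List.nodup_cons.1 hn
      have hpF : p ∉ X.toFinset := by rwa [List.mem_toFinset]
      simp only [List.length_cons] at hX
      rw [RL_cons, RL_cons, ih X.length (by omega) X rfl hn', smul_add, smul_smul, smul_smul,
        List.toFinset_cons, hm p _ hpF, Finset.smul_sum]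
      congr 1
      apply Finset.sum_congr rfl
      intro i hi
      have hi' := List.mem_toFinset.1 hi
      have hpi : p ≠ i := fun e => hp (e ▸ hi')
      have hY : (X.erase i).toFinset = X.toFinset.erase i := erase_toF hn'
      have hlen : (X.erase i).length < n := by
        have := List.length_erase_le (a := i) (l := X)
        omega
      obtain ⟨h1, h2⟩ := he p i (X.toFinset.erase i) hpi (fun h => hpF (Finset.mem_of_mem_erase h))
        (Finset.notMem_erase i _)
      rw [Finset.insert_erase hi] at h1 h2
      rw [ih _ hlen (X.erase i) rfl (hn'.erase i), hY]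
      refine LinearMap.ext fun F => ?_
      simp only [LinearMap.smul_apply, LinearMap.comp_apply, Module.End.mul_apply, jn,
        LinearMap.add_apply, map_add, map_smul, Module.End.one_apply, smul_eq_mul]
      linear_combination (RL C' z V0 (X.erase i) (oE uops z X i F)) * h1 +
        (RL C' z V0 (X.erase i) (opCu ℂ p i (oE uops z X i F))) * h2

/-- The functional depends on the coefficients at the lines of the list only. -/
theorem RL_congr (S : Finset α) (hm : ∀ p ∈ S, ∀ Y ⊆ S, C.m p Y = C'.m p Y)
    (he : ∀ p ∈ S, ∀ i ∈ S, ∀ Y ⊆ S, C.e p i Y = C'.e p i Y ∧ C.a p i Y = C'.a p i Y)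
    (hR : ∀ i ∈ S, ∀ r ∈ S, uops.R i r (z i - z r) = uops.R i r (z' i - z' r)) :
    ∀ (n : ℕ) (X : List α), X.length = n → (∀ x ∈ X, x ∈ S) →
      RL C z V0 X = RL C' z' V0 X := by
  intro n
  induction n using Nat.strong_induction_on with
  | _ n ih =>
    intro X hX hS
    cases X with
    | nil => rw [RL_nil, RL_nil]
    | cons p X =>
      simp only [List.length_cons] at hX
      have hSX : ∀ x ∈ X, x ∈ S := fun x hx => hS x (by simp [hx])
      have hYS : X.toFinset ⊆ S := fun x hx => hSX x (List.mem_toFinset.1 hx)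
      rw [RL_cons, RL_cons, ih X.length (by omega) X rfl hSX, hm p (hS p (by simp)) _ hYS]
      congr 1
      apply Finset.sum_congr rfl
      intro i hi
      have hi' := List.mem_toFinset.1 hi
      have hlen : (X.erase i).length < n := by
        have := List.length_erase_le (a := i) (l := X)
        omega
      obtain ⟨h1, h2⟩ := he p (hS p (by simp)) i (hSX i hi') _
        ((Finset.erase_subset i _).trans hYS)
      rw [ih _ hlen (X.erase i) rfl fun x hx => hSX x (List.mem_of_mem_erase hx), h1, h2]
      congr 2
      unfold oE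
      have key : ∀ L : List α, (∀ r ∈ L, r ∈ S) → uops.M z i (z i) L = uops.M z' i (z' i) L := by
        intro L hL
        induction L with
        | nil => rfl
        | cons r L ihL =>
          rw [Glob.Ops.M_cons, Glob.Ops.M_cons, hR i (hSX i hi') r (hL r (by simp)),
            ihL fun s hs => hL s (by simp [hs])]
      exact key _ fun r hr => hSX r (below_subset r hr).1

/-! ### Limits -/

section lim

variable {β : Type*} {l : Filter β} [Finite α]

/-- **Limits.** -/
theorem RL_lim {Cb : β → Co α} {zb : β → α → ℂ} (hm : ∀ p Y, p ∉ Y →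
      Tendsto (fun b => (Cb b).m p Y) l (𝓝 (C.m p Y)))
    (he : ∀ p i Y, p ≠ i → p ∉ Y → i ∉ Y → Tendsto (fun b => (Cb b).e p i Y) l (𝓝 (C.e p i Y)) ∧
      Tendsto (fun b => (Cb b).a p i Y) l (𝓝 (C.a p i Y)))
    (hR : ∀ b i r, uops.R i r (zb b i - zb b r) = uops.R i r (z i - z r)) :
    ∀ (n : ℕ) (X : List α), X.length = n → X.Nodup →
      LmF l (fun b => RL (Cb b) (zb b) V0 X) (RL C z V0 X) := by
  have key : ∀ b i (L : List α), uops.M (zb b) i (zb b i) L = uops.M z i (z i) L := by
    intro b i L
    induction L with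
    | nil => rfl
    | cons r L ihL => rw [Glob.Ops.M_cons, Glob.Ops.M_cons, hR b i r, ihL]
  intro n
  induction n using Nat.strong_induction_on with
  | _ n ih =>
    intro X hX hn
    cases X with
    | nil =>
      simp only [RL_nil]
      exact LmF.const _
    | cons p X =>
      obtain ⟨hp, hn'⟩ := List.nodup_cons.1 hn
      have hpF : p ∉ X.toFinset := by rwa [List.mem_toFinset]
      simp only [List.length_cons] at hX
      simp only [RL_cons]
      refine (LmF.smul (hm p _ hpF) (ih X.length (by omega) X rfl hn')).add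
        (LmF.sum _ fun i hi => ?_)
      have hi' := List.mem_toFinset.1 hi
      have hpi : p ≠ i := fun e => hp (e ▸ hi')
      have hlen : (X.erase i).length < n := by
        have := List.length_erase_le (a := i) (l := X)
        omega
      obtain ⟨h1, h2⟩ := he p i (X.toFinset.erase i) hpi (fun h => hpF (Finset.mem_of_mem_erase h))
        (Finset.notMem_erase i _)
      refine (ih _ hlen (X.erase i) rfl (hn'.erase i)).comp ((lm_jn h1 h2).mul ?_)
      refine (LmE.const _).congr fun b => ?_
      unfold oE
      rw [key]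

/-! ### Analyticity -/

theorem RL_dt {Cs : ℂ → Co α} {zs : ℂ → α → ℂ} {t : ℂ} (S : Finset α)
    (hm : ∀ p ∈ S, ∀ Y ⊆ S, p ∉ Y → DifferentiableAt ℂ (fun s => (Cs s).m p Y) t)
    (he : ∀ p ∈ S, ∀ i ∈ S, ∀ Y ⊆ S, p ≠ i → p ∉ Y → i ∉ Y →
      DifferentiableAt ℂ (fun s => (Cs s).e p i Y) t ∧
      DifferentiableAt ℂ (fun s => (Cs s).a p i Y) t)
    (hR : ∀ i ∈ S, ∀ r ∈ S, i ≠ r → DtE (fun s => uops.R i r (zs s i - zs s r)) t) :
    ∀ (n : ℕ) (X : List α), X.length = n → X.Nodup → (∀ x ∈ X, x ∈ S) →
      DtF (fun s => RL (Cs s) (zs s) V0 X) t := by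
  intro n
  induction n using Nat.strong_induction_on with
  | _ n ih =>
    intro X hX hn hS
    cases X with
    | nil =>
      simp only [RL_nil]
      exact DtF.const _
    | cons p X =>
      obtain ⟨hp, hn'⟩ := List.nodup_cons.1 hn
      have hpF : p ∉ X.toFinset := by rwa [List.mem_toFinset]
      simp only [List.length_cons] at hX
      have hSX : ∀ x ∈ X, x ∈ S := fun x hx => hS x (by simp [hx])
      have hYS : X.toFinset ⊆ S := fun x hx => hSX x (List.mem_toFinset.1 hx)
      simp only [RL_cons]
      refine (DtF.smul (hm p (hS p (by simp)) _ hYS hpF)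
        (ih X.length (by omega) X rfl hn' hSX)).add (DtF.sum _ fun i hi => ?_)
      have hi' := List.mem_toFinset.1 hi
      have hpi : p ≠ i := fun e => hp (e ▸ hi')
      have hlen : (X.erase i).length < n := by
        have := List.length_erase_le (a := i) (l := X)
        omega
      obtain ⟨h1, h2⟩ := he p (hS p (by simp)) i (hSX i hi') _
        ((Finset.erase_subset i _).trans hYS) hpi (fun h => hpF (Finset.mem_of_mem_erase h))
        (Finset.notMem_erase i _)
      refine (ih _ hlen (X.erase i) rfl (hn'.erase i)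
        fun x hx => hSX x (List.mem_of_mem_erase hx)).comp ((dt_jn h1 h2).mul ?_)
      unfold oE
      refine dt_M fun r hr => ?_
      obtain ⟨k1, k2⟩ := below_subset r hr
      exact hR i (hSX i hi') r (hSX r k1) k2.symm

end lim

end Pool.Agent.NUU
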