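import Pool.Agent.NUU.Strip
import Pool.Agent.NUF.PNear

/-!
# The relations of the functional of a half strip for generic rapidities (helper36)
-/

set_option autoImplicit false

namespace Pool.Agent.NUU

open _root_.Pool.Agent.EXL _root_.Pool.Agent.EXL.Pat Filter Topology
open _root_.Pool.Agent.EXL.Fm (lam)
open _root_.Pool.Agent.NUF

variable {α : Type*} [DecidableEq α] {z z' : α → ℂ} {X Y : List α} {p q b c : α}

theorem exists_NR (α : Type*) [DecidableEq α] [Finite α] : ∃ r : ℝ, 0 < r ∧ NR α r := by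
  obtain ⟨r, h1, h2⟩ := ((near_NR α).and self_mem_nhdsWithin).exists
  exact ⟨r, h2, h1⟩

omit [DecidableEq α] in
theorem Gz.ne (h : Gz z X) {i j : α} (hi : i ∈ X) (hj : j ∈ X) (hij : i ≠ j) : z i ≠ z j := by
  intro e
  apply h.s i hi j hj hij
  rw [e, sub_self, Complex.sin_zero]

theorem good_of {r : ℝ} (hr : NR α r) (hn : X.Nodup) (hX : ∀ i ∈ X, z i ∈ Metric.ball z0 r)
    (hG : Gz z X) : Good z X := hr.good z X hn hX fun _ hi _ hj hij => hG.ne hi hj hij

section const

/-- The empty condition. -/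
theorem one_diff (w : α → ℂ) : Differentiable ℂ fun s => (fun _ : α → ℂ => (1 : ℂ)) fun i => z0 + s * w i :=
  differentiable_const _

end const

variable [Finite α]

omit [DecidableEq α] [Finite α] in
theorem curve_diff (w : α → ℂ) (x : α) (t : ℂ) :
    DifferentiableAt ℂ (fun s => (fun i => z0 + s * w i : α → ℂ) x) t := by
  fun_prop

/-- **(S1)** The functional is supported on the planar states. -/
theorem PH_sup (hn : X.Nodup) (hb : b ∉ X) (hc : c ∉ X) (hbc : b ≠ c) (hG : Gz z X) :
    Sup X (PH z X) := by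
  intro F hF
  obtain ⟨r, hr0, hr⟩ := exists_NR α
  refine gz_ext (f := fun z => PH z X F) (g := fun _ => 0) hr0 (P := fun _ => 1) one_diff ?_ ?_ ?_ hG
    one_ne_zero
  · intro z hz hG _
    have hGo := good_of hr hn hz hG
    rw [PH_good hbc _ X rfl hGo hb hc, LinearMap.smul_apply,
      (isV_VV hn hc (hGo.reg X (List.Sublist.refl _))).sup F hF, smul_zero]
  · intro w t hG _
    exact PH_dt hn (fun x _ => curve_diff w x t) hG F
  · intro w t _ _
    exact differentiableAt_const _

/-- **(S2)** The exchange of two neighbouring lines. -/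
theorem PH_exch {A B : List α} {j k : α} (hn : (A ++ j :: k :: B).Nodup) (hb : b ∉ A ++ j :: k :: B)
    (hc : c ∉ A ++ j :: k :: B) (hbc : b ≠ c) (hG : Gz z (A ++ j :: k :: B)) :
    PH z (A ++ j :: k :: B) ∘ₗ uops.R j k (z j - z k) = PH z (A ++ k :: j :: B) := by
  have hp : (A ++ j :: k :: B).Perm (A ++ k :: j :: B) :=
    List.Perm.append_left _ (List.Perm.swap _ _ _)
  have hn' := hp.nodup_iff.1 hn
  have hjk : j ≠ k := by
    have := (List.nodup_append.1 hn).2.1
    rw [List.nodup_cons] at this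
    exact fun e => this.1 (by rw [e]; simp)
  have hb' : b ∉ A ++ k :: j :: B := fun h => hb (hp.mem_iff.2 h)
  have hc' : c ∉ A ++ k :: j :: B := fun h => hc (hp.mem_iff.2 h)
  refine LinearMap.ext fun F => ?_
  obtain ⟨r, hr0, hr⟩ := exists_NR α
  refine gz_ext (f := fun z => (PH z (A ++ j :: k :: B) ∘ₗ uops.R j k (z j - z k)) F)
    (g := fun z => PH z (A ++ k :: j :: B) F) hr0 (P := fun _ => 1) one_diff ?_ ?_ ?_ hG one_ne_zero
  · intro z hz hG _
    have hGo := good_of hr hn hz hG
    have hz' : ∀ i ∈ A ++ k :: j :: B, z i ∈ Metric.ball z0 r := fun i hi => hz i (hp.mem_iff.2 hi)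
    have hGo' := good_of hr hn' hz' (hG.perm hp)
    have hj : j ∈ A ++ j :: k :: B := by simp
    have hk : k ∈ A ++ j :: k :: B := by simp
    have h1 := PH_good hbc _ _ rfl hGo hb hc
    have h2 := PH_good hbc _ _ rfl hGo' hb' hc'
    have h3 : (A ++ j :: k :: B).toFinset = (A ++ k :: j :: B).toFinset := by
      ext x
      rw [List.mem_toFinset, List.mem_toFinset, hp.mem_iff]
    rw [h1, h2, h3, LinearMap.smul_comp, VV_exchange hn hc ((EXL.Fm.okR_iff _).2 (hGo.D j hj))
      ((EXL.Fm.okR_iff _).2 (hGo.D k hk)) ((EXL.Fm.okR_iff _).2 (hG.d j hj k hk hjk))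
      (hGo.reg _ (List.Sublist.refl _)) (hGo'.reg _ (List.Sublist.refl _))]
  · intro w t hG _
    have hj : j ∈ A ++ j :: k :: B := by simp
    have hk : k ∈ A ++ j :: k :: B := by simp
    exact DtF.comp (PH_dt hn (fun x _ => curve_diff w x t) hG)
      (dt_R hjk ((curve_diff w j t).sub (curve_diff w k t)) (hG.d j hj k hk hjk)) F
  · intro w t hG _
    exact PH_dt hn' (fun x _ => curve_diff w x t) (hG.perm hp) F

/-! ### The recursion -/

theorem R0_good (h : Good z X) (hb : b ∉ X) (hc : c ∉ X) (hbc : b ≠ c) :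
    Fr.sg (ux z) X.toFinset • PH z X = ∑ i ∈ X.toFinset,
      (Fr.wt (ux z) i (X.toFinset.erase i) / Fr.fa (ux z i)) • (PH z (X.erase i) ∘ₗ oE uops z X i) := by
  have hs : Sites X.get b c := h.sites hb hc hbc
  have hG := h.gen
  have hsg := hG.sg0
  have hr := rec0 hs h.regS hsg h.regY
  have key := hr.R0 Finset.univ
  have hinj := hs.inj
  have hun : (Finset.univ : Finset (Fin X.length)).image X.get = X.toFinset := by
    rw [← lst_toFinset, lst_univ]
  rw [rph hs h.regS hG.toReg hsg h.regY, lst_univ, sg_comp hinj, Qs_comp hinj, hun,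
    ← PH_good hbc _ X rfl h hb hc] at key
  rw [key, ← hun, Finset.sum_image fun a _ b _ h => hinj h]
  apply Finset.sum_congr rfl
  intro k _
  have hk : k ∉ Finset.univ.erase k := Finset.notMem_erase k _
  have hX : insert k (Finset.univ.erase k) = (Finset.univ : Finset (Fin X.length)) :=
    Finset.insert_erase (Finset.mem_univ k)
  have heX : X.erase (X.get k) = lst X.get (Finset.univ.erase k) := by
    have := erase_lst hinj hk
    rwa [hX, lst_univ] at this
  have hgo : Good z (X.erase (X.get k)) := h.sub List.erase_sublist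
  have e1 := PH_good hbc _ (X.erase (X.get k)) rfl hgo (fun h => hb (List.mem_of_mem_erase h))
    (fun h => hc (List.mem_of_mem_erase h))
  rw [rph hs h.regS hG.toReg hsg h.regY, map_smul, e1, wt_comp hinj, Qs_comp hinj,
    Finset.image_erase hinj, erase_toF h.nd, hun, LinearMap.smul_comp, heX]
  congr 2
  rw [fr_E, hX, lst_univ]

/-- **(S3)** The recursion with cleared denominators. -/
theorem PH_rec (hn : X.Nodup) (hb : b ∉ X) (hc : c ∉ X) (hbc : b ≠ c) (hG : Gz z X) :
    (2 * (∏ k ∈ X.toFinset, Fr.fb (ux z k) - ∏ k ∈ X.toFinset, Fr.fa (ux z k))) • PH z X =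
      ∑ i ∈ X.toFinset, (Fr.wt (ux z) i (X.toFinset.erase i) *
        ∏ k ∈ X.toFinset.erase i, Fr.fa (ux z k)) • (PH z (X.erase i) ∘ₗ oE uops z X i) := by
  refine LinearMap.ext fun F => ?_
  obtain ⟨r, hr0, hr⟩ := exists_NR α
  refine gz_ext (f := fun z => ((2 * (∏ k ∈ X.toFinset, Fr.fb (ux z k) -
      ∏ k ∈ X.toFinset, Fr.fa (ux z k))) • PH z X) F)
    (g := fun z => (∑ i ∈ X.toFinset, (Fr.wt (ux z) i (X.toFinset.erase i) *
        ∏ k ∈ X.toFinset.erase i, Fr.fa (ux z k)) • (PH z (X.erase i) ∘ₗ oE uops z X i)) F)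
    hr0 (P := fun _ => 1) one_diff ?_ ?_ ?_ hG one_ne_zero
  · intro z hz hG _
    have hGo := good_of hr hn hz hG
    have ha : ∀ k ∈ X.toFinset, Fr.fa (ux z k) ≠ 0 := fun k hk => hGo.a k (List.mem_toFinset.1 hk)
    have hR := R0_good hGo hb hc hbc
    have e1 : 2 * (∏ k ∈ X.toFinset, Fr.fb (ux z k) - ∏ k ∈ X.toFinset, Fr.fa (ux z k)) =
        (∏ k ∈ X.toFinset, Fr.fa (ux z k)) * Fr.sg (ux z) X.toFinset := by
      unfold Fr.sg Fr.Pe
      rw [Finset.prod_div_distrib]
      have := Finset.prod_ne_zero_iff.2 ha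
      field_simp
    rw [e1, mul_smul, hR, Finset.smul_sum]
    congr 1
    apply Finset.sum_congr rfl
    intro i hi
    rw [smul_smul]
    congr 1
    rw [← Finset.mul_prod_erase _ _ hi]
    have := ha i hi
    field_simp
  · intro w t hG _
    have hx : ∀ k, DifferentiableAt ℂ (fun s => ux (fun i => z0 + s * w i) k) t := fun k => by
      unfold ux
      exact (curve_diff w k t).const_sub _
    refine DtF.smul ?_ (PH_dt hn (fun x _ => curve_diff w x t) hG) F
    refine DifferentiableAt.const_mul (DifferentiableAt.sub ?_ ?_) _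
    · refine DifferentiableAt.fun_finsetProd fun k _ => ?_
      unfold Fr.fb
      exact ((hx k).const_add _).csin
    · exact DifferentiableAt.fun_finsetProd fun k _ => dt_fa (hx k)
  · intro w t hG _
    have hx : ∀ k, DifferentiableAt ℂ (fun s => ux (fun i => z0 + s * w i) k) t := fun k => by
      unfold ux
      exact (curve_diff w k t).const_sub _
    refine DtF.sum _ (fun i hi => ?_) F
    have hi' := List.mem_toFinset.1 hi
    refine DtF.smul (DifferentiableAt.mul ?_ ?_) (DtF.comp (PH_dt (hn.erase i)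
      (fun x _ => curve_diff w x t) (hG.sub fun x hx => List.mem_of_mem_erase hx)) ?_)
    · unfold Fr.wt
      refine ((dt_fa' (hx i)).const_mul _).mul (DifferentiableAt.fun_finsetProd fun k hk => ?_)
      refine dt_pr (hx k) (hx i) ?_
      have hk' := Finset.mem_erase.1 hk
      have := hG.s i hi' k (List.mem_toFinset.1 hk'.2) hk'.1.symm
      unfold ux
      rwa [sub_sub_sub_cancel_left]
    · exact DifferentiableAt.fun_finsetProd fun k _ => dt_fa (hx k)
    · unfold oE
      refine dt_M fun r hr => ?_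
      obtain ⟨k1, k2⟩ := below_subset r hr
      exact dt_R k2.symm ((curve_diff w i t).sub (curve_diff w r t)) (hG.d i hi' r k1 k2.symm)

end Pool.Agent.NUU
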