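import Pool.Agent.NUU.Rot2
import Pool.Agent.NUBD.UD

/-!
# The scalar of the disc functional (helper72)

`BE = BD` (helper65), so `BENeg` holds, and the limit of the disc functional at non generic points is `BD • VR`.
-/

set_option autoImplicit false

namespace Pool.Agent.NUU

open _root_.Pool.Agent.EXL _root_.Pool.Agent.EXL.Pat Filter Topology
open _root_.Pool.Agent.NUF
open _root_.Pool.Agent.NUT2 _root_.Pool.Agent.NUBD

variable {α : Type*} [DecidableEq α] {z z0 : α → ℂ} {X : List α} {c d : α}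

theorem BE_eq (hn : X.Nodup) (hG : Gz z X) : BE z X = BD z X := UD_ind _ X rfl hn hG.s

/-- **The scalar is even.** -/
theorem beNeg : BENeg α := fun z X hn hG => by
  rw [BE_eq hn (gz_neg hG), BE_eq hn hG, BD_neg]

/-- The scalar at a limit point. -/
theorem BE_tendsto (hn : X.Nodup) {β : Type*} {l : Filter β} {ζ : β → α → ℂ}
    (hζ : ∀ j ∈ X, Tendsto (fun b => ζ b j) l (𝓝 (z0 j))) (hG : ∀ᶠ b in l, Gz (ζ b) X) :
    Tendsto (fun b => BE (ζ b) X) l (𝓝 (BD z0 X)) := by
  classical
  set z1 : β → α → ℂ := fun b i => if i ∈ X then ζ b i else z0 i with hz1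
  have e1 : ∀ b, ∀ i ∈ X, z1 b i = ζ b i := fun b i hi => by rw [hz1]; exact if_pos hi
  have ht : Tendsto z1 l (𝓝 z0) := by
    rw [tendsto_pi_nhds]
    intro i
    by_cases hi : i ∈ X
    · exact (hζ i hi).congr fun b => (e1 b i hi).symm
    · have : (fun b => z1 b i) = fun _ => z0 i := by
        funext b
        exact if_neg hi
      rw [this]
      exact tendsto_const_nhds
  have hc : Continuous fun w : α → ℂ => BD w X :=
    cont_BD fun k _ => continuous_apply k
  refine ((hc.tendsto z0).comp ht).congr' ?_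
  filter_upwards [hG] with b hb
  rw [BE_eq hn hb]
  exact BD_congr (e1 b)

/-- **The limit of the disc functional at a non generic point**: `BD z0 X • VR c d z0 X`. -/
theorem UD_tendsto_BD [Finite α] (hcd : c ≠ d) (hn : X.Nodup) (hc : c ∉ X) (hd : d ∉ X) (hU : UDRing c d X)
    {β : Type*} {l : Filter β} {ζ : β → α → ℂ} (hζ : ∀ j ∈ X, Tendsto (fun b => ζ b j) l (𝓝 (z0 j)))
    (hG : ∀ᶠ b in l, Gz (ζ b) X) (hok : ∀ j ∈ X, okR (Real.pi / 8 - z0 j)) (hR : RegR c d z0 X)
    (F : Pat α → ℂ) : Tendsto (fun b => UD (ζ b) X F) l (𝓝 (BD z0 X * VR c d z0 X F)) :=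
  UD_tendsto hcd hn hc hd hU hζ hG hok hR (BE_tendsto hn hζ hG) F

/-- **REFLECTION**, all lists (up to (U6)). -/
theorem refl_all' [Finite α] (hU : UDRingAll (α ⊕ Fin 4)) (hn : X.Nodup) (hG : Gz z X) :
    UD (fun i => -z i) X = UD z X.reverse := refl_all hU beNeg hn hG

end Pool.Agent.NUU
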