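import Pool.Agent.NUU.Rot3
import Pool.Agent.NUT2.U6

/-!
# Rotation and reflection of the disc functional: final forms (helper72)

`UD_rot`, `UD_refl`: `UD z (A ++ B) = UD z (B ++ A)` and `UD (-z) X = UD z X.reverse` for generic rapidities, no
hypothesis left.
-/

set_option autoImplicit false

namespace Pool.Agent.NUU

open _root_.Pool.Agent.EXL _root_.Pool.Agent.EXL.Pat Filter Topology
open _root_.Pool.Agent.NUF
open _root_.Pool.Agent.NUT2 _root_.Pool.Agent.NUBD

/-- (U6) on every finite label type. -/
theorem udRingAll {β : Type*} [DecidableEq β] [Finite β] : UDRingAll β := by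
  intro c d e X hn hcd hce hde hc hd he
  refine udRing (b := e) ?_ ?_
  · simp [hn, hcd, hc, hd]
  · simp [hce.symm, hde.symm, he]

variable {α : Type*} [DecidableEq α] [Finite α] {z z0 : α → ℂ} {X A B : List α} {c d : α}

/-- **ROTATION of the disc.** -/
theorem UD_rot (hn : (A ++ B).Nodup) (hG : Gz z (A ++ B)) : UD z (A ++ B) = UD z (B ++ A) :=
  rot_all udRingAll hn hG

/-- **REFLECTION of the disc.** -/
theorem UD_refl (hn : X.Nodup) (hG : Gz z X) : UD (fun i => -z i) X = UD z X.reverse :=
  refl_all' udRingAll hn hG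

end Pool.Agent.NUU
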