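import Pool.Agent.NUU.Rec
import Pool.Agent.NUF.PSide
import Pool.Agent.NUF.PAna

/-!
# The functional of a half strip, all rapidities (helper36)

`PH z X` = `Q` times the zero-leg functional, defined by helper8's formula for one more line; it is analytic
in the rapidities of all lines.
-/

set_option autoImplicit false

namespace Pool.Agent.NUU

open _root_.Pool.Agent.EXL _root_.Pool.Agent.EXL.Pat Filter Topology
open _root_.Pool.Agent.EXL.Fm (lam)
open _root_.Pool.Agent.NUF

variable {α : Type*} [DecidableEq α]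

/-- The evaluation at the empty state. -/
noncomputable def ev0 : Fnl α := LinearMap.proj Pat.empty

omit [DecidableEq α] in
theorem ev0_apply (F : Pat α → ℂ) : ev0 F = F Pat.empty := rfl

/-- The coefficients of the half strip, `x` = the frame rapidities. -/
noncomputable def cP (x : α → ℂ) : Co α where
  m p Y := Fr.Dl x (x p) Y
  e p i Y := Fr.wt x i Y * Fr.Dl x (x p) Y * Fr.fe (x i)
  a p i Y := Fr.wt x i Y * Fr.Dl x (x p) Y * Fr.fa (x p)

/-- **The functional of a half strip.** -/
noncomputable def PH (z : α → ℂ) (X : List α) : Fnl α := RL (cP (ux z)) z ev0 X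

/-- Generic rapidities. -/
structure Gz (z : α → ℂ) (X : List α) : Prop where
  s : ∀ i ∈ X, ∀ j ∈ X, i ≠ j → Complex.sin (z i - z j) ≠ 0
  d : ∀ i ∈ X, ∀ j ∈ X, i ≠ j → Fm.Dn (z i - z j) ≠ 0

variable {z z' : α → ℂ} {X Y : List α} {p b c : α}

theorem VV_nil {V : Fnl α} (h : Sup [] V) (h1 : V (HS.ind Pat.empty) = 1) : V = ev0 := by
  refine LinearMap.ext fun F => ?_
  have e : V F = V (F Pat.empty • HS.ind Pat.empty) := by
    refine h.congr fun p hp => ?_
    have hp0 : p = Pat.empty := by
      ext x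
      exact ax_out hp (by simp)
    rw [hp0, Pi.smul_apply, HS.ind, if_pos rfl, smul_eq_mul, mul_one]
  rw [e, map_smul, h1, smul_eq_mul, mul_one, ev0_apply]

theorem PH_good [Finite α] (hbc : b ≠ c) : ∀ (n : ℕ) (X : List α), X.length = n → Good z X →
    b ∉ X → c ∉ X → PH z X = Fr.Qs (ux z) X.toFinset • VV z X := by
  intro n
  induction n using Nat.strong_induction_on with
  | _ n ih =>
    intro X hX hG hb hc
    cases X with
    | nil =>
      have hV := isV_VV (z := z) List.nodup_nil hc (hG.reg [] (List.Sublist.refl _))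
      rw [PH, RL_nil, ← VV_nil hV.sup hV.one]
      have : Fr.Qs (ux z) (([] : List α).toFinset) = 1 := by
        rw [List.toFinset_nil, Fr.Qs_eq, if_pos rfl]
      rw [this, one_smul]
    | cons p X =>
      simp only [List.length_cons] at hX
      have hs := List.sublist_cons_self p X
      have hG' := hG.sub hs
      have hb' : b ∉ X := fun h => hb (hs.subset h)
      have hc' : c ∉ X := fun h => hc (hs.subset h)
      have i1 := ih X.length (by omega) X rfl hG' hb' hc'
      have i2 : ∀ i ∈ X.toFinset, RL (cP (ux z)) z ev0 (X.erase i) =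
          Fr.Qs (ux z) (X.toFinset.erase i) • VV z (X.erase i) := by
        intro i hi
        have hlen : (X.erase i).length < n := by
          have := List.length_erase_le (a := i) (l := X)
          omega
        have := ih _ hlen (X.erase i) rfl (hG'.sub List.erase_sublist)
          (fun h => hb' (List.mem_of_mem_erase h)) (fun h => hc' (List.mem_of_mem_erase h))
        rw [erase_toF hG'.nd] at this
        exact this
      have i1' : RL (cP (ux z)) z ev0 X = Fr.Qs (ux z) X.toFinset • VV z X := i1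
      rw [← far_near hG hb hc hbc, PH, RL_cons, i1']
      unfold far farE farC
      rw [add_assoc, Finset.smul_sum, ← Finset.sum_add_distrib]
      congr 1
      · rw [smul_smul]
        rfl
      · apply Finset.sum_congr rfl
        intro i hi
        rw [i2 i hi]
        refine LinearMap.ext fun F => ?_
        simp only [LinearMap.smul_apply, LinearMap.comp_apply, Module.End.mul_apply, jn,
          LinearMap.add_apply, map_add, map_smul, Module.End.one_apply, smul_eq_mul, cP]
        ring

theorem PH_congr (h : ∀ x ∈ X, z x = z' x) : PH z X = PH z' X := by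
  have hu : ∀ x ∈ X.toFinset, ux z x = ux z' x := fun x hx => by
    unfold ux
    rw [h x (List.mem_toFinset.1 hx)]
  refine RL_congr X.toFinset ?_ ?_ ?_ X.length X rfl fun x hx => List.mem_toFinset.2 hx
  · intro p hp Y hY
    simp only [cP]
    rw [hu p hp, Dl_congr fun k hk => hu k (hY hk)]
  · intro p hp i hi Y hY
    simp only [cP]
    rw [hu p hp, hu i hi, Dl_congr fun k hk => hu k (hY hk), wt_congr (hu i hi) fun k hk => hu k (hY hk)]
    exact ⟨rfl, rfl⟩
  · intro i hi r hr
    rw [h i (List.mem_toFinset.1 hi), h r (List.mem_toFinset.1 hr)]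

/-- **Analyticity.** -/
theorem PH_dt [Finite α] {zs : ℂ → α → ℂ} {t : ℂ} (hn : X.Nodup)
    (hz : ∀ x ∈ X, DifferentiableAt ℂ (fun s => zs s x) t) (hG : Gz (zs t) X) :
    DtF (fun s => PH (zs s) X) t := by
  have hx : ∀ x ∈ X.toFinset, DifferentiableAt ℂ (fun s => ux (zs s) x) t := fun x hx => by
    unfold ux
    exact (hz x (List.mem_toFinset.1 hx)).const_sub _
  have hDl : ∀ p ∈ X.toFinset, ∀ Y ⊆ X.toFinset,
      DifferentiableAt ℂ (fun s => Fr.Dl (ux (zs s)) (ux (zs s) p) Y) t := by
    intro p hp Y hY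
    unfold Fr.Dl
    exact DifferentiableAt.fun_finsetProd fun k hk => dt_dl (hx p hp) (hx k (hY hk))
  have hwt : ∀ i ∈ X.toFinset, ∀ Y ⊆ X.toFinset, i ∉ Y →
      DifferentiableAt ℂ (fun s => Fr.wt (ux (zs s)) i Y) t := by
    intro i hi Y hY hiY
    unfold Fr.wt
    refine ((dt_fa' (hx i hi)).const_mul _).mul (DifferentiableAt.fun_finsetProd fun k hk => ?_)
    refine dt_pr (hx k (hY hk)) (hx i hi) ?_
    have := hG.s i (List.mem_toFinset.1 hi) k (List.mem_toFinset.1 (hY hk)) fun e => hiY (e ▸ hk)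
    unfold ux
    rwa [sub_sub_sub_cancel_left]
  refine RL_dt X.toFinset (fun p hp Y hY _ => hDl p hp Y hY) ?_ ?_ X.length X rfl hn
    fun x hx => List.mem_toFinset.2 hx
  · intro p hp i hi Y hY _ _ hiY
    exact ⟨((hwt i hi Y hY hiY).mul (hDl p hp Y hY)).mul (dt_fe (hx i hi)),
      ((hwt i hi Y hY hiY).mul (hDl p hp Y hY)).mul (dt_fa (hx p hp))⟩
  · intro i hi r hr hir
    have hi' := List.mem_toFinset.1 hi
    have hr' := List.mem_toFinset.1 hr
    exact dt_R hir ((hz i hi').sub (hz r hr')) (hG.d i hi' r hr' hir)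

/-! ### The identity theorem -/

omit [DecidableEq α] in
theorem Gz.perm (h : Gz z X) (hp : X.Perm Y) : Gz z Y where
  s i hi j hj := h.s i (hp.mem_iff.2 hi) j (hp.mem_iff.2 hj)
  d i hi j hj := h.d i (hp.mem_iff.2 hi) j (hp.mem_iff.2 hj)

omit [DecidableEq α] in
theorem Gz.sub (h : Gz z X) (hp : ∀ x ∈ Y, x ∈ X) : Gz z Y where
  s i hi j hj := h.s i (hp i hi) j (hp j hj)
  d i hi j hj := h.d i (hp i hi) j (hp j hj)

omit [DecidableEq α] in
theorem Gz.congr (h : Gz z X) (e : ∀ x ∈ X, z x = z' x) : Gz z' X where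
  s i hi j hj hij := by rw [← e i hi, ← e j hj]; exact h.s i hi j hj hij
  d i hi j hj hij := by rw [← e i hi, ← e j hj]; exact h.d i hi j hj hij

omit [DecidableEq α] in
theorem Gz.shift (h : Gz z X) (s : ℂ) : Gz (fun i => z i + s) X where
  s i hi j hj hij := by rw [add_sub_add_right_eq_sub]; exact h.s i hi j hj hij
  d i hi j hj hij := by rw [add_sub_add_right_eq_sub]; exact h.d i hi j hj hij

/-- A product of functions over the pairs. -/
noncomputable def gzP (z : α → ℂ) (X : List α) : ℂ :=
  ∏ q ∈ X.toFinset ×ˢ X.toFinset, if q.1 = q.2 then 1 else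
    Complex.sin (z q.1 - z q.2) * Fm.Dn (z q.1 - z q.2)

theorem gzP_ne : gzP z X ≠ 0 ↔ Gz z X := by
  unfold gzP
  rw [Finset.prod_ne_zero_iff]
  constructor
  · intro h
    have key : ∀ i ∈ X, ∀ j ∈ X, i ≠ j → Complex.sin (z i - z j) * Fm.Dn (z i - z j) ≠ 0 := by
      intro i hi j hj hij
      have := h (i, j) (by simp [hi, hj])
      rwa [if_neg hij] at this
    exact ⟨fun i hi j hj hij => left_ne_zero_of_mul (key i hi j hj hij),
      fun i hi j hj hij => right_ne_zero_of_mul (key i hi j hj hij)⟩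
  · intro h q hq
    rw [Finset.mem_product, List.mem_toFinset, List.mem_toFinset] at hq
    by_cases e : q.1 = q.2
    · rw [if_pos e]
      exact one_ne_zero
    · rw [if_neg e]
      exact mul_ne_zero (h.s _ hq.1 _ hq.2 e) (h.d _ hq.1 _ hq.2 e)

/-- **The identity theorem.**  `P` = a further analytic condition. -/
theorem gz_ext {f g : (α → ℂ) → ℂ} {r : ℝ} (hr : 0 < r) {P : (α → ℂ) → ℂ}
    (hP : ∀ w : α → ℂ, Differentiable ℂ fun s => P fun i => z0 + s * w i)
    (h : ∀ z : α → ℂ, (∀ i ∈ X, z i ∈ Metric.ball z0 r) → Gz z X → P z ≠ 0 → f z = g z)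
    (hf : ∀ (w : α → ℂ) (t : ℂ), Gz (fun i => z0 + t * w i) X → P (fun i => z0 + t * w i) ≠ 0 →
      DifferentiableAt ℂ (fun s => f fun i => z0 + s * w i) t)
    (hg : ∀ (w : α → ℂ) (t : ℂ), Gz (fun i => z0 + t * w i) X → P (fun i => z0 + t * w i) ≠ 0 →
      DifferentiableAt ℂ (fun s => g fun i => z0 + s * w i) t) (hz : Gz z X) (hz' : P z ≠ 0) :
    f z = g z := by
  set w : α → ℂ := fun i => z i - z0 with hw
  have e1 : (fun i => z0 + 1 * w i) = z := by
    funext i
    rw [hw]
    ring
  set Q : ℂ → ℂ := fun s => gzP (fun i => z0 + s * w i) X * P fun i => z0 + s * w i with hQ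
  have hQd : Differentiable ℂ Q := by
    rw [hQ]
    refine Differentiable.mul ?_ (hP w)
    unfold gzP
    refine Differentiable.fun_finsetProd fun q _ => ?_
    by_cases e : q.1 = q.2
    · simp only [if_pos e]
      exact differentiable_const _
    · simp only [if_neg e, Fm.Dn]
      fun_prop
  have hQ1 : Q 1 ≠ 0 := by
    rw [hQ]
    simp only
    rw [e1]
    exact mul_ne_zero (gzP_ne.2 hz) hz'
  have hO : {t | Q t = 0}.Countable := zeros_countable hQd hQ1
  have hcomp : ({t | Q t ≠ 0} : Set ℂ)ᶜ = {t | Q t = 0} := by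
    ext t
    simp
  have hΩ : IsOpen {t | Q t ≠ 0} := isOpen_ne_fun hQd.continuous continuous_const
  have hmem : ∀ t, Q t ≠ 0 → Gz (fun i => z0 + t * w i) X ∧ P (fun i => z0 + t * w i) ≠ 0 := by
    intro t ht
    exact ⟨gzP_ne.1 (left_ne_zero_of_mul ht), right_ne_zero_of_mul ht⟩
  have hV : IsOpen {t : ℂ | ∀ i ∈ X, z0 + t * w i ∈ Metric.ball z0 r} := by
    have : {t : ℂ | ∀ i ∈ X, z0 + t * w i ∈ Metric.ball z0 r} =
        ⋂ i ∈ X.toFinset, {t : ℂ | z0 + t * w i ∈ Metric.ball z0 r} := by
      ext t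
      simp
    rw [this]
    refine isOpen_biInter_finset fun i _ => ?_
    exact Metric.isOpen_ball.preimage (by fun_prop)
  have key := eq_off (f := fun t => f fun i => z0 + t * w i) (g := fun t => g fun i => z0 + t * w i)
    (V := {t : ℂ | ∀ i ∈ X, z0 + t * w i ∈ Metric.ball z0 r}) (S := ∅) hΩ (by rw [hcomp]; exact hO)
    (fun t ht => hf w t (hmem t ht).1 (hmem t ht).2) (fun t ht => hg w t (hmem t ht).1 (hmem t ht).2) hV
    ⟨0, fun i _ => by
      rw [zero_mul, add_zero]
      exact Metric.mem_ball_self hr⟩ Set.countable_empty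
    (fun t htV _ htΩ => h _ htV (hmem t htΩ).1 (hmem t htΩ).2) 1 hQ1
  simp only [e1] at key
  exact key

end Pool.Agent.NUU
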